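import Mathlib
import Pool.Agent.H44.FM.Wi4
import Pool.Agent.H64.Win.NoRR
import Pool.Agent.H31.Sp.Dat

set_option autoImplicit false
open Filter Topology

/-! # Sequences of coarse windows of one polyomino

`QR H A B` : the cells of the polyomino with the rows `A Y ≤ X < B Y`, `OmR H A B` : its domain. `NoS A B H` : the
polyomino has no level with reflex corners on both sides, `noRR_C` : then the windows have no row with two reflex
ends. `seqL_J` : linked points of the domain are linked points of the windows. -/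

namespace Pool.Agent.H59.J

open Pool.Agent.Q1 Pool.Agent.H33.Q1
open Pool.Agent.Q1.M4 (lat Om isOpen_Om isPreconnected_Om Cell Conn4 Adj4)
open Pool.Agent.H44.FM.WG
open Pool.Agent.H44.FM.Br
open Pool.Agent.H44.FM.Wi
open Pool.Agent.H87.FM (gx gx_mono)
open Pool.Agent.Q1.M6e (Lk)
open Pool.Agent.H46.Sp (Win Out)
open Pool.Agent.H74.Win (OutB InP sh)
open Pool.Agent.H31.Sp (Coarse CoarseC Kp EdF mem_EdF Ed CQ)
open Pool.Agent.H13.Sp (colp)
open Pool.Agent.H42.Sp (Sd)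
open Pool.Agent.H64.Win (NoRR fL_iff fR_iff)
open Pool.Agent.H75.Perc (dir)

/-- the cells of the polyomino -/
noncomputable def QR (H : ℤ) (A B : ℤ → ℤ) : Finset Cell :=
  (Finset.Ico 0 H).biUnion fun Y => (Finset.Ico (A Y) (B Y)) ×ˢ {Y}

lemma mem_QR {H : ℤ} {A B : ℤ → ℤ} {X Y : ℤ} : (X, Y) ∈ QR H A B ↔ CQ H A B X Y := by
  unfold QR CQ
  simp only [Finset.mem_biUnion, Finset.mem_product, Finset.mem_Ico, Finset.mem_singleton]
  constructor
  · rintro ⟨Z, ⟨h1, h2⟩, h3, rfl⟩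
    exact ⟨h1, h2, h3.1, h3.2⟩
  · rintro ⟨h1, h2, h3, h4⟩
    exact ⟨Y, ⟨h1, h2⟩, ⟨h3, h4⟩, rfl⟩

/-- the domain of the polyomino -/
def OmR (H : ℤ) (A B : ℤ → ℤ) : Set ℂ := Om (QR H A B) gx gx

lemma isOpen_OmR (H : ℤ) (A B : ℤ → ℤ) : IsOpen (OmR H A B) := isOpen_Om _ _ _

/-- **Rows which overlap** -/
structure RowO (H : ℤ) (A B : ℤ → ℤ) : Prop where
  HH : 0 < H
  AB : ∀ Y, 0 ≤ Y → Y < H → A Y < B Y
  ov1 : ∀ Y, 0 ≤ Y → Y + 1 < H → A Y < B (Y + 1)
  ov2 : ∀ Y, 0 ≤ Y → Y + 1 < H → A (Y + 1) < B Y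

lemma rowO_of {D : Win} {n H : ℤ} {A B : ℤ → ℤ} (C : Coarse D n H A B) : RowO H A B :=
  ⟨C.HH, C.AB, C.ov1, C.ov2⟩

section

variable {H : ℤ} {A B : ℤ → ℤ}

/-- steps inside the polyomino -/
def St (H : ℤ) (A B : ℤ → ℤ) (a b : Cell) : Prop := Adj4 a b ∧ b ∈ (QR H A B : Set Cell)

lemma st_row {Y : ℤ} (h0 : 0 ≤ Y) (h1 : Y < H) {X : ℤ} (hX : A Y ≤ X) :
    ∀ k : ℕ, X + k < B Y → Relation.ReflTransGen (St H A B) (X, Y) (X + k, Y) ∧
      Relation.ReflTransGen (St H A B) (X + k, Y) (X, Y) := by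
  intro k
  induction k with
  | zero => intro _; simp only [Nat.cast_zero, add_zero]; exact ⟨Relation.ReflTransGen.refl, Relation.ReflTransGen.refl⟩
  | succ k ih =>
    intro h
    push_cast at h ⊢
    obtain ⟨i1, i2⟩ := ih (by omega)
    have m1 : ((X + k, Y) : Cell) ∈ (QR H A B : Set Cell) :=
      Finset.mem_coe.2 (mem_QR.2 ⟨h0, h1, by omega, by omega⟩)
    have m2 : ((X + (k + 1), Y) : Cell) ∈ (QR H A B : Set Cell) :=
      Finset.mem_coe.2 (mem_QR.2 ⟨h0, h1, by omega, by omega⟩)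
    refine ⟨i1.tail ⟨⟨0, ?_⟩, m2⟩, (Relation.ReflTransGen.single ⟨⟨2, ?_⟩, m1⟩).trans i2⟩
    · rw [Prod.ext_iff]; constructor <;> simp [dir] <;> ring
    · rw [Prod.ext_iff]; constructor <;> simp [dir] <;> ring

lemma st_row' {Y X X' : ℤ} (h0 : 0 ≤ Y) (h1 : Y < H) (hX : A Y ≤ X) (hX1 : X < B Y) (hX' : A Y ≤ X')
    (hX1' : X' < B Y) : Relation.ReflTransGen (St H A B) (X, Y) (X', Y) := by
  rcases le_total X X' with h | h
  · have := (st_row (B := B) h0 h1 hX (X' - X).toNat (by omega)).1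
    rwa [show X + ((X' - X).toNat : ℤ) = X' by omega] at this
  · have := (st_row (B := B) h0 h1 hX' (X - X').toNat (by omega)).2
    rwa [show X' + ((X - X').toNat : ℤ) = X by omega] at this

/-- the rows are connected -/
theorem conn_QR (hR : RowO H A B) : Conn4 (QR H A B : Set Cell) := by
  have key : ∀ Y X, CQ H A B X Y → Relation.ReflTransGen (St H A B) (A 0, 0) (X, Y) ∧
      Relation.ReflTransGen (St H A B) (X, Y) (A 0, 0) := by
    have : ∀ k : ℕ, ∀ X, CQ H A B X k → Relation.ReflTransGen (St H A B) (A 0, 0) (X, (k : ℤ)) ∧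
        Relation.ReflTransGen (St H A B) (X, (k : ℤ)) (A 0, 0) := by
      intro k
      induction k with
      | zero =>
        rintro X ⟨h0, h1, h2, h3⟩
        simp only [Nat.cast_zero] at *
        have h4 := hR.AB 0 le_rfl h1
        exact ⟨st_row' le_rfl h1 le_rfl h4 h2 h3, st_row' le_rfl h1 h2 h3 le_rfl h4⟩
      | succ k ih =>
        rintro X ⟨h0, h1, h2, h3⟩
        push_cast at *
        have o1 := hR.ov1 k (by omega) h1
        have o2 := hR.ov2 k (by omega) h1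
        have o3 := hR.AB k (by omega) (by omega)
        have o4 := hR.AB (k + 1) (by omega) (by omega)
        set Z : ℤ := max (A k) (A (k + 1)) with hZ
        have z1 : A k ≤ Z := le_max_left _ _
        have z2 : A (k + 1) ≤ Z := le_max_right _ _
        have z3 : Z < B k := max_lt o3 o2
        have z4 : Z < B (k + 1) := max_lt o1 o4
        obtain ⟨i1, i2⟩ := ih Z ⟨by omega, by omega, z1, z3⟩
        have s1 : St H A B (Z, (k : ℤ)) (Z, (k : ℤ) + 1) :=
          ⟨⟨1, by rw [Prod.ext_iff]; constructor <;> simp [dir]⟩,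
            Finset.mem_coe.2 (mem_QR.2 ⟨by omega, by omega, z2, z4⟩)⟩
        have s2 : St H A B (Z, (k : ℤ) + 1) (Z, (k : ℤ)) :=
          ⟨⟨3, by rw [Prod.ext_iff]; constructor <;> simp [dir]⟩,
            Finset.mem_coe.2 (mem_QR.2 ⟨by omega, by omega, z1, z3⟩)⟩
        exact ⟨(i1.tail s1).trans (st_row' (by omega) h1 z2 z4 h2 h3),
          (st_row' (by omega) h1 h2 h3 z2 z4).trans ((Relation.ReflTransGen.single s2).trans i2)⟩
    intro Y X h
    have := this Y.toNat X (by rw [Int.toNat_of_nonneg h.1]; exact h)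
    rwa [Int.toNat_of_nonneg h.1] at this
  rintro ⟨X, Y⟩ hc ⟨X', Y'⟩ hd
  exact (key Y X (mem_QR.1 (Finset.mem_coe.1 hc))).2.trans (key Y' X' (mem_QR.1 (Finset.mem_coe.1 hd))).1

lemma isPreconnected_OmR (hR : RowO H A B) : IsPreconnected (OmR H A B) :=
  isPreconnected_Om gx_mono gx_mono (conn_QR hR)

/-- a unit edge -/
lemma edge0R (hR : RowO H A B) : ((Sd.F, A 0, (0 : ℤ)) : Sd × ℤ × ℤ) ∈ EdF H A B := by
  rw [mem_EdF]
  have h1 := hR.HH
  have h2 := hR.AB 0 le_rfl h1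
  simp only [Ed, CQ]
  exact ⟨⟨le_rfl, h1, le_rfl, h2⟩, fun h => by omega⟩

/-- a unit edge -/
noncomputable def w0R (hR : RowO H A B) : Kp H A B := ⟨_, edge0R hR⟩

end

/-! ### Linked points -/

/-- **Linked points of the domain are linked points of a coarse window.** -/
theorem lk_co {D : Win} {H : ℤ} {A B : ℤ → ℤ} {n : ℕ} (C : Coarse D (n : ℤ) H A B) {η : ℝ}
    {u v : ℤ × ℤ} (p : Bool) (h : RL (OmR H A B) η (lat u / ((n : ℝ) : ℂ)) (lat v / ((n : ℝ) : ℂ))) :
    Lk (InP D p) (η * (n : ℝ)) (wv p 0 u) (wv p 0 v) := by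
  have hn := C.pos
  have hn1 : 1 ≤ n := by omega
  have h1 := lk_of_RL hn1 h
  have h2 := Lk.shift h1 (0 + sh p)
  have e : ∀ w : ℤ × ℤ, ((w.1, w.2 - (0 + sh p)) : ℤ × ℤ) = wv p 0 w := by
    intro w; unfold wv; rw [sub_sub]
  rw [e, e] at h2
  refine Pool.Agent.Q1.M6e.Lk.imp h2 fun x y hxy => ?_
  rw [zero_add, mem_TL hn, tt_lt] at hxy
  refine C.inP_of (mem_QR.1 ?_)
  exact hxy.2

theorem seqL_J {R : ℕ → ℕ} {F : Filter ℕ} {D : ℕ → Win} {H : ℤ} {A B : ℤ → ℤ}
    (hC : ∀ᶠ j in F, Coarse (D j) (R j : ℤ) H A B) : SeqL R F (OmR H A B) D (fun _ => 0) := by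
  filter_upwards [hC] with j hj η u v h p
  exact lk_co hj p h

/-! ### Rows with two reflex ends -/

/-- no level with reflex corners on both sides -/
def NoS (H : ℤ) (A B : ℤ → ℤ) : Prop := ∀ Y, 0 ≤ Y → Y + 1 < H →
  ¬ (A (Y + 1) < A Y ∧ B Y < B (Y + 1)) ∧ ¬ (A Y < A (Y + 1) ∧ B (Y + 1) < B Y)

section

variable {D : Win} {n H : ℤ} {A B : ℤ → ℤ} {YP YQ : ℤ} {CL CR : ℤ → Bool}

lemma div_mod_succ {n y : ℤ} (hn : 0 < n) (h : y % n ≠ n - 1) : (y + 1) / n = y / n ∧
    (y + 1) % n = y % n + 1 := by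
  have h1 := Int.emod_add_mul_ediv y n
  have h2 := Int.emod_nonneg y hn.ne'
  have h3 := Int.emod_lt_of_pos y hn
  have e : y + 1 = (y % n + 1) + n * (y / n) := by omega
  constructor
  · rw [e, Int.add_mul_ediv_left _ _ hn.ne', Int.ediv_eq_zero_of_lt (by omega) (by omega), zero_add]
  · rw [e, Int.add_mul_emod_self_left, Int.emod_eq_of_lt (by omega) (by omega)]

lemma div_mod_last {n y : ℤ} (hn : 0 < n) (h : y % n = n - 1) : (y + 1) / n = y / n + 1 ∧
    (y + 1) % n = 0 := by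
  have h1 := Int.emod_add_mul_ediv y n
  have e : y + 1 = 0 + n * (y / n + 1) := by rw [mul_add]; omega
  constructor
  · rw [e, Int.add_mul_ediv_left _ _ hn.ne', Int.zero_ediv, zero_add]
  · rw [e, Int.add_mul_emod_self_left, Int.zero_emod]

/-- decreasing steps of the left ends -/
lemma a_dn (C : Coarse D n H A B) {y : ℤ} (h0 : 0 ≤ y) (h1 : y + 1 < D.h)
    (h : D.a (y + 1) < D.a y) : n - 2 ≤ y % n ∧ y / n + 1 < H ∧ A (y / n + 1) < A (y / n) := by
  have hn := C.hn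
  have hp := C.pos
  have k0 := C.a y h0 (by omega)
  have k1 := C.a (y + 1) (by omega) h1
  have k2 := (C.row (y := y + 1) (by omega) h1).2
  have m0 := Int.emod_nonneg y hp.ne'
  by_cases hr : y % n = n - 1
  · obtain ⟨e1, e2⟩ := div_mod_last hp hr
    rw [e1] at k1 k2
    rw [e2, add_sub_cancel_right] at k1
    refine ⟨by omega, k2, ?_⟩
    by_contra hc
    rcases (not_lt.1 hc).lt_or_eq with g | g
    · have : n * A (y / n) + n ≤ n * A (y / n + 1) := by nlinarith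
      omega
    · rw [← g] at k1
      omega
  · obtain ⟨e1, e2⟩ := div_mod_succ hp hr
    rw [e1, e2] at k1
    rcases k1 with g | ⟨g, g' | g'⟩
    · omega
    · exact ⟨by omega, g'.2.1, g'.2.2⟩
    · omega

/-- increasing steps of the left ends -/
lemma a_up' (C : Coarse D n H A B) {y : ℤ} (h0 : 0 ≤ y) (h1 : y + 1 < D.h)
    (h : D.a y < D.a (y + 1)) : (y + 1) % n ≤ 1 ∧ 0 < (y + 1) / n ∧
      A ((y + 1) / n - 1) < A ((y + 1) / n) := by
  have hn := C.hn
  have hp := C.pos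
  have k0 := C.a y h0 (by omega)
  have k1 := C.a (y + 1) (by omega) h1
  have k2 := (C.row (y := y) h0 (by omega)).1
  have m0 := Int.emod_nonneg y hp.ne'
  by_cases hr : y % n = n - 1
  · obtain ⟨e1, e2⟩ := div_mod_last hp hr
    rw [e1] at k1 ⊢
    rw [e2] at k1 ⊢
    rw [add_sub_cancel_right] at k1 ⊢
    refine ⟨by omega, by omega, ?_⟩
    by_contra hc
    rcases (not_lt.1 hc).lt_or_eq with g | g
    · have : n * A (y / n + 1) + n ≤ n * A (y / n) := by nlinarith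
      omega
    · rw [g] at k1
      omega
  · obtain ⟨e1, e2⟩ := div_mod_succ hp hr
    rw [e1, e2] at k1 ⊢
    rcases k0 with g | ⟨g, g' | g'⟩
    · omega
    · omega
    · exact ⟨by omega, g'.2.1, g'.2.2⟩

/-- increasing steps of the right ends -/
lemma b_up' (C : Coarse D n H A B) {y : ℤ} (h0 : 0 ≤ y) (h1 : y + 1 < D.h)
    (h : D.b y < D.b (y + 1)) : n - 2 ≤ y % n ∧ y / n + 1 < H ∧ B (y / n) < B (y / n + 1) := by
  have hn := C.hn
  have hp := C.pos
  have k0 := C.b y h0 (by omega)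
  have k1 := C.b (y + 1) (by omega) h1
  have k2 := (C.row (y := y + 1) (by omega) h1).2
  have m0 := Int.emod_nonneg y hp.ne'
  by_cases hr : y % n = n - 1
  · obtain ⟨e1, e2⟩ := div_mod_last hp hr
    rw [e1] at k1 k2
    rw [e2, add_sub_cancel_right] at k1
    refine ⟨by omega, k2, ?_⟩
    by_contra hc
    rcases (not_lt.1 hc).lt_or_eq with g | g
    · have : n * B (y / n + 1) + n ≤ n * B (y / n) := by nlinarith
      omega
    · rw [g] at k1
      omega
  · obtain ⟨e1, e2⟩ := div_mod_succ hp hr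
    rw [e1, e2] at k1
    rcases k1 with g | ⟨g, g' | g'⟩
    · omega
    · exact ⟨by omega, g'.2.1, g'.2.2⟩
    · omega

/-- decreasing steps of the right ends -/
lemma b_dn (C : Coarse D n H A B) {y : ℤ} (h0 : 0 ≤ y) (h1 : y + 1 < D.h)
    (h : D.b (y + 1) < D.b y) : (y + 1) % n ≤ 1 ∧ 0 < (y + 1) / n ∧
      B ((y + 1) / n) < B ((y + 1) / n - 1) := by
  have hn := C.hn
  have hp := C.pos
  have k0 := C.b y h0 (by omega)
  have k1 := C.b (y + 1) (by omega) h1
  have k2 := (C.row (y := y) h0 (by omega)).1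
  have m0 := Int.emod_nonneg y hp.ne'
  by_cases hr : y % n = n - 1
  · obtain ⟨e1, e2⟩ := div_mod_last hp hr
    rw [e1] at k1 ⊢
    rw [e2] at k1 ⊢
    rw [add_sub_cancel_right] at k1 ⊢
    refine ⟨by omega, by omega, ?_⟩
    by_contra hc
    rcases (not_lt.1 hc).lt_or_eq with g | g
    · have : n * B (y / n) + n ≤ n * B (y / n + 1) := by nlinarith
      omega
    · rw [← g] at k1
      omega
  · obtain ⟨e1, e2⟩ := div_mod_succ hp hr
    rw [e1, e2] at k1 ⊢
    rcases k0 with g | ⟨g, g' | g'⟩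
    · omega
    · omega
    · exact ⟨by omega, g'.2.1, g'.2.2⟩

/-- **The windows have no row with two reflex ends.** -/
theorem noRR_C (C : Coarse D n H A B) (hS : NoS H A B) : NoRR D := by
  intro j h0 h1 ⟨hL, hR⟩
  rw [fL_iff] at hL
  rw [fR_iff] at hR
  have hP0 := D.P0
  have hP1 := D.P1
  have hQ0 := D.Q0
  have hQ1 := D.Q1
  have hn := C.hn
  have row := C.row h0 h1
  rcases hL with ⟨l1, l2⟩ | ⟨l1, l2⟩ <;> rcases hR with ⟨r1, r2⟩ | ⟨r1, r2⟩
  · obtain ⟨-, a2, a3⟩ := a_dn C h0 (by omega) l2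
    obtain ⟨-, -, b3⟩ := b_up' C h0 (by omega) r2
    exact (hS _ row.1 a2).1 ⟨a3, b3⟩
  · obtain ⟨a1, -, -⟩ := a_dn C h0 (by omega) l2
    obtain ⟨b1, -, -⟩ := b_dn C (y := j - 1) (by omega) (by omega) (by rw [sub_add_cancel]; exact r2)
    rw [sub_add_cancel] at b1
    omega
  · obtain ⟨a1, -, -⟩ := a_up' C (y := j - 1) (by omega) (by omega) (by rw [sub_add_cancel]; exact l2)
    obtain ⟨b1, -, -⟩ := b_up' C h0 (by omega) r2
    rw [sub_add_cancel] at a1
    omega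
  · obtain ⟨-, a2, a3⟩ := a_up' C (y := j - 1) (by omega) (by omega) (by rw [sub_add_cancel]; exact l2)
    obtain ⟨-, -, b3⟩ := b_dn C (y := j - 1) (by omega) (by omega) (by rw [sub_add_cancel]; exact r2)
    rw [sub_add_cancel] at a2 a3 b3
    refine (hS (j / n - 1) (by omega) (by omega)).2 ?_
    rw [sub_add_cancel]
    exact ⟨a3, b3⟩

end

end Pool.Agent.H59.J
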