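import Mathlib
import Pool.Agent.H59.J.JS
import Pool.Agent.H44.FM.Wi5

set_option autoImplicit false
open Filter Topology

/-! # Uniform bounds for the potentials of coarse windows

`HF O` : the natural potential of the lower world as a function of the lattice points. `hold_HF` : Hoelder bound of
exponent `2/3`. `hold_co` : the same near an interior point of a coarse window. `bd_co` : bound for linked points. -/

namespace Pool.Agent.H59.J

open Pool.Agent.Q1 Pool.Agent.H33.Q1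
open Pool.Agent.Q1.M4 (lat Om isOpen_Om isPreconnected_Om isBounded_Om Cell fl fl_tendsto)
open Pool.Agent.H44.FM.WG
open Pool.Agent.H44.FM.Br
open Pool.Agent.H44.FM.Wi
open Pool.Agent.H87.FM (gx gx_mono)
open Pool.Agent.Q1.M6e (Lk LC La ap_lk planeK_plane)
open Pool.Agent.Q1.M6c (PlaneK)
open Pool.Agent.H46.Sp (Win)
open Pool.Agent.H74.Win (OutB InP sh XN XO XB EN EN_sub_EO mem_EN)
open Pool.Agent.H31.Sp (Coarse CoarseC)

/-- the natural potential of the lower world as a function of the lattice points -/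
noncomputable def HF {D : Win} (O : OutB D) (v : ℤ × ℤ) : ℂ := HN O false ∅ v.1 v.2

lemma NW_eq (D : ℕ → Win) (O : ∀ j, OutB (D j)) (j : ℕ) (v : ℤ × ℤ) :
    NW D O (fun _ => 0) false ∅ j v = HF (O j) v := by
  unfold NW HF wv
  simp [sh]

lemma planeK_XN {D : Win} (O : OutB D) (p : Bool) (s : Finset Gr) : PlaneK (XN O p s) := by
  unfold XN XO XB
  exact planeK_plane

lemma one_le_lat {p q : ℤ × ℤ} (h : p ≠ q) : 1 ≤ ‖lat p - lat q‖ := by
  have key : ∀ a b : ℤ, a ≠ b → (1 : ℝ) ≤ |(a : ℝ) - b| := by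
    intro a b hab
    have : (1 : ℤ) ≤ |a - b| := Int.one_le_abs (sub_ne_zero.2 hab)
    exact_mod_cast this
  by_cases h1 : p.1 = q.1
  · have h2 : p.2 ≠ q.2 := fun h2 => h (Prod.ext h1 h2)
    refine (key _ _ h2).trans ?_
    have := Complex.abs_im_le_norm (lat p - lat q)
    simpa [lat] using this
  · refine (key _ _ h1).trans ?_
    have := Complex.abs_re_le_norm (lat p - lat q)
    simpa [lat] using this

lemma abs_fst_le (p q : ℤ × ℤ) : |((p.1 : ℝ) - q.1)| ≤ ‖lat p - lat q‖ := by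
  have := Complex.abs_re_le_norm (lat p - lat q)
  simpa [lat] using this

lemma abs_snd_le (p q : ℤ × ℤ) : |((p.2 : ℝ) - q.2)| ≤ ‖lat p - lat q‖ := by
  have := Complex.abs_im_le_norm (lat p - lat q)
  simpa [lat] using this

/-- **Hoelder bound** of the natural potentials -/
theorem hold_HF : ∃ C : ℝ, 0 < C ∧ ∃ R0 : ℝ, 0 < R0 ∧ ∀ (D : Win) (O : OutB D) (u v : ℤ × ℤ),
    Lk (InP D false) (max ‖lat u - lat v‖ R0) u v →
    ‖HF O u - HF O v‖ ≤ C * ‖lat u - lat v‖ ^ (2 / 3 : ℝ) := by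
  obtain ⟨C, hC, R0, H⟩ := ap_lk (η := 1) one_pos
  set R1 : ℝ := max R0 1 with hR1
  have h1 : 1 ≤ R1 := le_max_right _ _
  have h0 : 0 < R1 := one_pos.trans_le h1
  refine ⟨C * R1 ^ (2 / 3 : ℝ), by positivity, R1, h0, ?_⟩
  intro D O u v hL
  rcases eq_or_ne u v with rfl | hne
  · rw [sub_self, norm_zero]
    positivity
  have hd1 := one_le_lat hne
  set d : ℝ := ‖lat u - lat v‖ with hd
  set R : ℝ := max d R1 with hR
  have hRd : R ≤ R1 * d := by
    refine max_le ?_ ?_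
    · nlinarith
    · nlinarith
  have hb := H (XN O false ∅) (planeK_XN O false ∅) (InP D false) (fun x y h => EN_sub_EO (mem_EN.2 h))
    u v R ((le_max_left _ _).trans (le_max_right _ _))
    (by rw [div_one]; exact (abs_fst_le u v).trans (le_max_left _ _))
    (by rw [div_one]; exact (abs_snd_le u v).trans (le_max_left _ _)) (by rw [one_mul]; exact hL)
  rw [sumN_lk (potN_HN O false ∅) (h1.trans (le_max_right _ _)) hL] at hb
  refine hb.trans ?_
  have h2 : R ^ (2 / 3 : ℝ) ≤ R1 ^ (2 / 3 : ℝ) * d ^ (2 / 3 : ℝ) := by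
    rw [← Real.mul_rpow h0.le (by linarith)]
    exact Real.rpow_le_rpow (h0.le.trans (le_max_right _ _)) hRd (by norm_num)
  calc C * R ^ (2 / 3 : ℝ) ≤ C * (R1 ^ (2 / 3 : ℝ) * d ^ (2 / 3 : ℝ)) :=
        mul_le_mul_of_nonneg_left h2 hC.le
    _ = C * R1 ^ (2 / 3 : ℝ) * d ^ (2 / 3 : ℝ) := by ring

lemma lk_HF {D : Win} {H : ℤ} {A B : ℤ → ℤ} {n : ℕ} (C : Coarse D (n : ℤ) H A B) {η : ℝ} {u v : ℤ × ℤ}
    (h : RL (OmR H A B) η (lat u / ((n : ℝ) : ℂ)) (lat v / ((n : ℝ) : ℂ))) :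
    Lk (InP D false) (η * (n : ℝ)) u v := by
  have := lk_co C false h
  have e : ∀ w : ℤ × ℤ, wv false 0 w = w := by
    intro w; unfold wv; simp [sh]
  rwa [e, e] at this

/-- the distance of lattice points near a point -/
lemma lat_near {n : ℝ} (hn : 0 < n) {z : ℂ} {r : ℝ} {u v : ℤ × ℤ} (hu : ‖lat u / (n : ℂ) - z‖ < r)
    (hv : ‖lat v / (n : ℂ) - z‖ < r) : ‖lat u - lat v‖ ≤ 2 * r * n := by
  have hnc : (n : ℂ) ≠ 0 := by exact_mod_cast hn.ne'
  have e : lat u - lat v = ((lat u / (n : ℂ) - z) - (lat v / (n : ℂ) - z)) * n := by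
    field_simp
    ring
  rw [e, norm_mul, Complex.norm_real, Real.norm_eq_abs, abs_of_pos hn]
  refine mul_le_mul_of_nonneg_right ?_ hn.le
  refine (norm_sub_le _ _).trans ?_
  linarith

/-- **Hoelder bound near an interior point** of a coarse window -/
theorem hold_co : ∃ C : ℝ, 0 < C ∧ ∃ R0 : ℝ, 0 < R0 ∧ ∀ (D : Win) (O : OutB D) (n : ℕ) (H : ℤ)
    (A B : ℤ → ℤ), Coarse D (n : ℤ) H A B → ∀ (z : ℂ) (r : ℝ), 0 < r →
    Metric.ball z (8 * r) ⊆ OmR H A B → R0 ≤ 2 * r * n → ∀ u v : ℤ × ℤ,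
    ‖lat u / ((n : ℝ) : ℂ) - z‖ < r → ‖lat v / ((n : ℝ) : ℂ) - z‖ < r →
    ‖HF O u - HF O v‖ ≤ C * ‖lat u - lat v‖ ^ (2 / 3 : ℝ) := by
  obtain ⟨C, hC, R0, hR0, hh⟩ := hold_HF
  refine ⟨C, hC, R0, hR0, ?_⟩
  intro D O n H A B hCo z r hr hball hn u v hu hv
  have hn0 : (0 : ℝ) < n := by
    have := hCo.pos
    exact_mod_cast this
  refine hh D O u v ?_
  have h1 : RL (OmR H A B) (2 * r) (lat u / ((n : ℝ) : ℂ)) (lat v / ((n : ℝ) : ℂ)) := by
    refine RL_near (z := z) (by rw [show 4 * (2 * r) = 8 * r by ring]; exact hball) ?_ ?_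
    · rw [dist_eq_norm]; linarith
    · rw [dist_eq_norm]; linarith
  refine (lk_HF hCo h1).mono (max_le (lat_near hn0 hu hv) hn)

/-- **Bound for linked points** of a coarse window -/
theorem bd_co (H : ℤ) (A B : ℤ → ℤ) {η : ℝ} (hη : 0 < η) : ∃ C : ℝ, 0 < C ∧ ∃ R0 : ℝ, ∀ (D : Win)
    (O : OutB D) (n : ℕ), Coarse D (n : ℤ) H A B → R0 ≤ n → ∀ u v : ℤ × ℤ,
    RL (OmR H A B) η (lat u / ((n : ℝ) : ℂ)) (lat v / ((n : ℝ) : ℂ)) →
    ‖HF O u - HF O v‖ ≤ C * (n : ℝ) ^ (2 / 3 : ℝ) := by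
  obtain ⟨K0, hK0⟩ := (Metric.isBounded_iff_subset_closedBall 0).1 (isBounded_Om (QR H A B) gx gx)
  set K : ℝ := max K0 1 with hK
  have hK1 : 0 < K := one_pos.trans_le (le_max_right _ _)
  set η' : ℝ := min η (1 / (2 * K)) with hη'
  have h0 : 0 < η' := by positivity
  obtain ⟨C, hC, R0, hh⟩ := ap_lk h0
  refine ⟨C, hC, max R0 (1 / η'), ?_⟩
  intro D O n hCo hn u v hL
  have hn0 : (0 : ℝ) < n := by
    have := hCo.pos
    exact_mod_cast this
  have hnc : ((n : ℝ) : ℂ) ≠ 0 := by exact_mod_cast hn0.ne'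
  have hL' : Lk (InP D false) (η' * (n : ℝ)) u v := lk_HF hCo (hL.mono (min_le_left _ _))
  have mem : ∀ u v : ℤ × ℤ, RL (OmR H A B) η (lat u / ((n : ℝ) : ℂ)) (lat v / ((n : ℝ) : ℂ)) →
      ‖lat u‖ ≤ K * n := by
    intro u v h
    have h1 : lat u / ((n : ℝ) : ℂ) ∈ OmR H A B := h
      ⟨by linarith [min_le_left (lat u / ((n : ℝ) : ℂ)).re (lat v / ((n : ℝ) : ℂ)).re],
        by linarith [le_max_left (lat u / ((n : ℝ) : ℂ)).re (lat v / ((n : ℝ) : ℂ)).re],
        by linarith [min_le_left (lat u / ((n : ℝ) : ℂ)).im (lat v / ((n : ℝ) : ℂ)).im],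
        by linarith [le_max_left (lat u / ((n : ℝ) : ℂ)).im (lat v / ((n : ℝ) : ℂ)).im]⟩
    have h2 := hK0 h1
    rw [mem_closedBall_zero_iff, norm_div, Complex.norm_real, Real.norm_eq_abs, abs_of_pos hn0,
      div_le_iff₀ hn0] at h2
    exact h2.trans (mul_le_mul_of_nonneg_right (le_max_left _ _) hn0.le)
  have hd : ‖lat u - lat v‖ ≤ (n : ℝ) / η' := by
    have h1 : (n : ℝ) / (1 / (2 * K)) ≤ (n : ℝ) / η' :=
      div_le_div_of_nonneg_left hn0.le h0 (min_le_right _ _)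
    rw [one_div, div_inv_eq_mul] at h1
    have h2 := mem u v hL
    have h3 := mem v u hL.symm
    refine (norm_sub_le _ _).trans ?_
    linarith
  have hb := hh (XN O false ∅) (planeK_XN O false ∅) (InP D false) (fun x y h => EN_sub_EO (mem_EN.2 h))
    u v n ((le_max_left _ _).trans hn) ((abs_fst_le u v).trans hd) ((abs_snd_le u v).trans hd) hL'
  have h1 : 1 ≤ η' * (n : ℝ) := by
    have := (le_max_right _ _).trans hn
    rw [div_le_iff₀ h0] at this
    linarith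
  rw [sumN_lk (potN_HN O false ∅) h1 hL'] at hb
  exact hb

end Pool.Agent.H59.J
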