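import Mathlib
import Pool.Agent.Q1.M6f.GlueLim

set_option autoImplicit false
open Filter Topology

/-! # Limits of equicontinuous lattice functions

`exists_ilim` : along an ultrafilter, locally bounded and locally equicontinuous lattice functions have a
continuous limit. `DJ` : discrete rectangle integral. `DJ_tendsto` : its limit. -/

namespace Pool.Agent.H59.J

open Pool.Agent.Q1.M4 (lat fl fl_tendsto)
open Pool.Agent.Q1.M6f.Glue

variable {R : ℕ → ℝ} {Ω : Set ℂ} {f : ℕ → ℤ × ℤ → ℂ} {U : Ultrafilter ℕ}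

/-- **Limits along an ultrafilter** -/
theorem exists_ilim (hR : Tendsto R atTop atTop) (hU : (U : Filter ℕ) ≤ atTop)
    (hb : ∀ z ∈ Ω, ∃ C : ℝ, ∀ᶠ j in (U : Filter ℕ), ‖f j (fl R z j)‖ ≤ C)
    (he : ∀ z ∈ Ω, ∀ ε > 0, ∃ δ > 0, ∀ᶠ j in (U : Filter ℕ), ∀ u v : ℤ × ℤ,
      ‖lat u / (R j : ℂ) - z‖ < δ → ‖lat v / (R j : ℂ) - z‖ < δ → ‖f j u - f j v‖ ≤ ε) :
    ∃ g : ℂ → ℂ, ContinuousOn g Ω ∧ ILim R U f Ω g := by
  classical
  have hex : ∀ z, ∃ a : ℂ, z ∈ Ω → Tendsto (fun j => f j (fl R z j)) U (𝓝 a) := by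
    intro z
    by_cases hz : z ∈ Ω
    · obtain ⟨C, hC⟩ := hb z hz
      have hle : (U.map (fun j => f j (fl R z j)) : Filter ℂ) ≤ 𝓟 (Metric.closedBall 0 C) := by
        rw [le_principal_iff]
        change ∀ᶠ j in (U : Filter ℕ), f j (fl R z j) ∈ Metric.closedBall 0 C
        filter_upwards [hC] with j hj
        rwa [mem_closedBall_zero_iff]
      obtain ⟨a, -, ha⟩ := (isCompact_closedBall (0 : ℂ) C).ultrafilter_le_nhds _ hle
      exact ⟨a, fun _ => ha⟩
    · exact ⟨0, fun h => absurd h hz⟩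
  choose g hg using hex
  have hfl : ∀ z, Tendsto (fun j => lat (fl R z j) / (R j : ℂ)) (U : Filter ℕ) (𝓝 z) := fun z =>
    (fl_tendsto hR z).mono_left hU
  refine ⟨g, ?_, ?_⟩
  · intro z hz
    rw [Metric.continuousWithinAt_iff]
    intro ε hε
    obtain ⟨δ, hδ, h⟩ := he z hz (ε / 2) (by positivity)
    refine ⟨δ, hδ, fun w hw hwz => ?_⟩
    rw [dist_eq_norm]
    have t := ((hg w hw).sub (hg z hz)).norm
    refine lt_of_le_of_lt (le_of_tendsto t ?_) (by linarith : ε / 2 < ε)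
    have n1 : ∀ᶠ j in (U : Filter ℕ), ‖lat (fl R w j) / (R j : ℂ) - z‖ < δ := by
      have := (((hfl w).sub_const z).norm).eventually_lt_const (by rwa [dist_eq_norm] at hwz)
      exact this
    have n2 : ∀ᶠ j in (U : Filter ℕ), ‖lat (fl R z j) / (R j : ℂ) - z‖ < δ := by
      have := (((hfl z).sub_const z).norm).eventually_lt_const (by rw [sub_self, norm_zero]; exact hδ)
      exact this
    filter_upwards [h, n1, n2] with j h1 h2 h3
    exact h1 _ _ h2 h3
  · intro z hz v hv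
    have key : Tendsto (fun j => f j (v j) - f j (fl R z j)) (U : Filter ℕ) (𝓝 0) := by
      rw [tendsto_zero_iff_norm_tendsto_zero, Metric.tendsto_nhds]
      intro ε hε
      obtain ⟨δ, hδ, h⟩ := he z hz (ε / 2) (by positivity)
      have n1 : ∀ᶠ j in (U : Filter ℕ), ‖lat (v j) / (R j : ℂ) - z‖ < δ := by
        have := ((hv.sub_const z).norm).eventually_lt_const (by rw [sub_self, norm_zero]; exact hδ)
        exact this
      have n2 : ∀ᶠ j in (U : Filter ℕ), ‖lat (fl R z j) / (R j : ℂ) - z‖ < δ := by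
        have := (((hfl z).sub_const z).norm).eventually_lt_const (by rw [sub_self, norm_zero]; exact hδ)
        exact this
      filter_upwards [h, n1, n2] with j h1 h2 h3
      rw [dist_zero_right, Real.norm_eq_abs, abs_of_nonneg (norm_nonneg _)]
      exact lt_of_le_of_lt (h1 _ _ h2 h3) (by linarith)
    have := key.add (hg z hz)
    simpa using this

/-- **Discrete rectangle integral** -/
noncomputable def DJ (f : ℤ × ℤ → ℂ) (a : ℤ × ℤ) (L M : ℕ) : ℂ := TX f a L M - Complex.I * TY f a L M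

/-- the discrete rectangle integral of a combination -/
lemma DJ_sum {ι : Type*} (s : Finset ι) (w : ι → ℂ) (f : ι → ℤ × ℤ → ℂ) (a : ℤ × ℤ) (L M : ℕ) :
    DJ (fun v => ∑ i ∈ s, w i * f i v) a L M = ∑ i ∈ s, w i * DJ (f i) a L M := by
  unfold DJ TX TY
  simp only [← Finset.sum_sub_distrib]
  have e1 : ∀ p q : ℤ × ℤ, (∑ i ∈ s, w i * f i p - ∑ i ∈ s, w i * f i q) =
      ∑ i ∈ s, w i * (f i p - f i q) := fun p q => by
    rw [← Finset.sum_sub_distrib]
    exact Finset.sum_congr rfl fun i _ => by ring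
  have e2 : ∀ p q : ℤ × ℤ, ∑ i ∈ s, (w i * f i p - w i * f i q) =
      ∑ i ∈ s, w i * (f i p - f i q) := fun p q =>
    Finset.sum_congr rfl fun i _ => by ring
  simp only [e2]
  rw [Finset.sum_comm, Finset.sum_comm (s := Finset.range M), Finset.mul_sum, ← Finset.sum_sub_distrib]
  refine Finset.sum_congr rfl fun i _ => ?_
  rw [← Finset.mul_sum, ← Finset.mul_sum]
  ring

/-- constants do not matter -/
lemma DJ_add_const (f : ℤ × ℤ → ℂ) (κ c : ℂ) (a : ℤ × ℤ) (L M : ℕ) :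
    DJ (fun v => κ * (f v - c)) a L M = κ * DJ f a L M := by
  have e1 : TX (fun v => κ * (f v - c)) a L M = κ * TX f a L M := by
    unfold TX
    rw [Finset.mul_sum]
    exact Finset.sum_congr rfl fun i _ => by ring
  have e2 : TY (fun v => κ * (f v - c)) a L M = κ * TY f a L M := by
    unfold TY
    rw [Finset.mul_sum]
    exact Finset.sum_congr rfl fun i _ => by ring
  unfold DJ
  rw [e1, e2]
  ring

/-- the size of the difference -/
lemma DJ_le {f g : ℤ × ℤ → ℂ} {a : ℤ × ℤ} {L M : ℕ} {τ : ℝ}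
    (h : ∀ u v : ℤ × ℤ, (a.1 ≤ u.1 ∧ u.1 ≤ a.1 + L) → (a.2 ≤ u.2 ∧ u.2 ≤ a.2 + M) →
      (a.1 ≤ v.1 ∧ v.1 ≤ a.1 + L) → (a.2 ≤ v.2 ∧ v.2 ≤ a.2 + M) →
      ‖(f u - f v) - (g u - g v)‖ ≤ τ) : ‖DJ f a L M - DJ g a L M‖ ≤ (L + M) * τ := by
  have e : DJ f a L M - DJ g a L M = (TX f a L M - TX g a L M) -
      Complex.I * (TY f a L M - TY g a L M) := by unfold DJ; ring
  have h1 : ‖TX f a L M - TX g a L M‖ ≤ L * τ := by
    unfold TX
    rw [← Finset.sum_sub_distrib]
    refine (norm_sum_le_of_le _ (n := fun _ => τ) fun k hk => ?_).trans (by simp)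
    rw [Finset.mem_range] at hk
    refine h _ _ ?_ ?_ ?_ ?_ <;> simp [rr, uu] <;> omega
  have h2 : ‖TY f a L M - TY g a L M‖ ≤ M * τ := by
    unfold TY
    rw [← Finset.sum_sub_distrib]
    refine (norm_sum_le_of_le _ (n := fun _ => τ) fun k hk => ?_).trans (by simp)
    rw [Finset.mem_range] at hk
    refine h _ _ ?_ ?_ ?_ ?_ <;> simp [rr, uu] <;> omega
  rw [e]
  refine (norm_sub_le _ _).trans ?_
  rw [norm_mul, Complex.norm_I, one_mul]
  linarith

/-- **The discrete rectangle integrals converge.** -/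
theorem DJ_tendsto {g : ℂ → ℂ} (hRU : Tendsto R U atTop) (hlim : ILim R U f Ω g)
    (hg : ContinuousOn g Ω) (hΩ : IsOpen Ω) {a b c d : ℝ} (hab : a < b) (hcd : c < d)
    (hR : Set.Icc a b ×ℂ Set.Icc c d ⊆ Ω) {p : ℕ → ℤ × ℤ} {L M : ℕ → ℕ}
    (hp : Tendsto (fun j => lat (p j) / (R j : ℂ)) U (𝓝 (a + c * Complex.I)))
    (hL : Tendsto (fun j => (L j : ℝ) / R j) U (𝓝 (b - a)))
    (hM : Tendsto (fun j => (M j : ℝ) / R j) U (𝓝 (d - c))) :
    Tendsto (fun j => ((1 / R j : ℝ) : ℂ) * DJ (f j) (p j) (L j) (M j)) U (𝓝 (JJ g a b c d)) := by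
  obtain ⟨h1, h2⟩ := XX_tendsto hRU hlim hg hΩ hab hcd hR hp hL hM
  have hba : (b - a) * (d - c) ≠ 0 := (mul_pos (by linarith) (by linarith)).ne'
  have hpre : Tendsto (fun j => ((((L j : ℝ) / R j) * ((M j : ℝ) / R j) : ℝ) : ℂ)) U
      (𝓝 (((b - a) * (d - c) : ℝ) : ℂ)) := (Complex.continuous_ofReal.tendsto _).comp (hL.mul hM)
  have key := hpre.mul (h1.sub (h2.const_mul Complex.I))
  have e : (((b - a) * (d - c) : ℝ) : ℂ) * ((((1 / ((b - a) * (d - c)) : ℝ)) : ℂ) *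
      ((∫ x in a..b, g (x + d * Complex.I)) - ∫ x in a..b, g (x + c * Complex.I)) - Complex.I *
      ((((1 / ((b - a) * (d - c)) : ℝ)) : ℂ) * ((∫ y in c..d, g (b + y * Complex.I)) -
        ∫ y in c..d, g (a + y * Complex.I)))) = JJ g a b c d := by
    unfold JJ
    have hc : (((b - a) * (d - c) : ℝ) : ℂ) ≠ 0 := by exact_mod_cast hba
    rw [one_div, Complex.ofReal_inv]
    field_simp
  rw [e] at key
  refine key.congr' ?_
  have hLp : ∀ᶠ j in (U : Filter ℕ), 0 < (L j : ℝ) / R j := hL.eventually_const_lt (by linarith)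
  have hMp : ∀ᶠ j in (U : Filter ℕ), 0 < (M j : ℝ) / R j := hM.eventually_const_lt (by linarith)
  filter_upwards [hRU.eventually_gt_atTop 0, hLp, hMp] with j h3 h4 h5
  have hL0 : (L j : ℂ) ≠ 0 := by
    have : (L j : ℝ) ≠ 0 := fun h => by rw [h, zero_div] at h4; exact lt_irrefl _ h4
    exact_mod_cast this
  have hM0 : (M j : ℂ) ≠ 0 := by
    have : (M j : ℝ) ≠ 0 := fun h => by rw [h, zero_div] at h5; exact lt_irrefl _ h5
    exact_mod_cast this
  have hRc : ((R j : ℝ) : ℂ) ≠ 0 := by exact_mod_cast h3.ne'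
  unfold XX YY DJ
  push_cast
  field_simp

end Pool.Agent.H59.J
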