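import Mathlib
import Pool.Agent.H59.J.JS
import Pool.Agent.Q1.M6e.Wn.Mem
import Pool.Agent.H44.FM.Wi9
import Pool.Agent.H57.FM.NbW
import Pool.Agent.H64.Win.SameCI
import Pool.Agent.H95.R45.Fin
import Pool.Agent.H56.Sp.AbaW
import Pool.Agent.H31.Sp.NatW
import Pool.Agent.H59.W.FinePW
import Pool.Agent.H59.W.HvPW
import Pool.Agent.H44.FM.S0F

set_option autoImplicit false
open Filter Topology

/-! # Translation invariance for sequences of coarse windows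

`JSeq m F H A B YP YQ D O` : a sequence of coarse windows with cells of side `2 m j`, with arbitrary colours and
good outsides. `brW_J` : `BrW`. `ti_J` : the limits of the normalised potentials are translation invariant. -/

namespace Pool.Agent.H59.J

open Pool.Agent.Q1 Pool.Agent.H33.Q1
open Pool.Agent.Q1.M4 (lat Om isOpen_Om isPreconnected_Om Cell Conn4 Adj4)
open Pool.Agent.H44.FM.WG
open Pool.Agent.H44.FM.Br
open Pool.Agent.H44.FM.Wi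
open Pool.Agent.H87.FM (gx gx_mono)
open Pool.Agent.Q1.M6e (Lk)
open Pool.Agent.Q1.M6f.Glue (TI ILim)
open Pool.Agent.Q1.M6c (ap_planeK)
open Pool.Agent.Q1.M6e.Wn (PW memW_PW outOK_mono)
open Pool.Agent.Q1.M6b.ABW
open Pool.Agent.H46.Sp (Win Out)
open Pool.Agent.H74.Win (OutB InP sh)
open Pool.Agent.H31.Sp (Coarse CoarseC Kp)
open Pool.Agent.H13.Sp (colp)
open Pool.Agent.H20.Sp
open Pool.Agent.H14.Win (RootC rootC_of)
open Pool.Agent.H56.Sp (aba_mono width_C)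

/-- **A sequence of coarse windows** of one polyomino, cells of side `2 m j`, arbitrary colours, good
outsides -/
structure JSeq (m : ℕ → ℕ) (F : Filter ℕ) (H : ℤ) (A B : ℤ → ℤ) (YP YQ : ℤ) (D : ℕ → Win)
    (O : ∀ j, OutB (D j)) : Prop where
  co : ∀ᶠ j in F, ∃ CL CR : ℤ → Bool, CoarseC (D j) ((2 * m j : ℕ) : ℤ) H A B YP YQ CL CR
  cut : ∀ᶠ j in F, ∃ s0, colp (D j) (s0 - 1) ≠ colp (D j) s0
  out : ∀ᶠ j in F, OutOK (O j) (m j : ℤ)

/-- the class of the windows with the property `G` -/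
def SM (m : ℕ → ℕ) (D : ℕ → Win) (O : ∀ j, OutB (D j)) (G : ℕ → Prop) (r : ℕ) :
    Set (Σ D : Win, Out D) := {v | ∃ j : ℕ, G j ∧ r = 2 * m j ∧ v = ⟨D j, (O j).out⟩}

variable {m : ℕ → ℕ} {F : Filter ℕ} {H : ℤ} {A B : ℤ → ℤ} {YP YQ : ℤ} {D : ℕ → Win}
  {O : ∀ j, OutB (D j)}

/-- **Chapters A and B** -/
theorem aba_J {G : ℕ → Prop} (hHH : 0 < H)
    (hG : ∀ j, G j → 30 ≤ m j ∧ (∃ CL CR : ℤ → Bool, CoarseC (D j) ((2 * m j : ℕ) : ℤ) H A B YP YQ CL CR) ∧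
      (∃ s0, colp (D j) (s0 - 1) ≠ colp (D j) s0) ∧ OutOK (O j) (m j : ℤ)) (hN : NoS H A B) {η : ℝ}
    (hη : 0 < η) : ABA (SM m D O G) η := by
  have hS : SameC (SM m D O G) := Pool.Agent.H64.Win.sameC_of (by
    rintro R v ⟨j, hj, rfl, rfl⟩
    obtain ⟨-, ⟨CL, CR, C⟩, -⟩ := hG j hj
    exact noRR_C C.toCoarse hN)
  set K : ℕ := H.toNat + (B YQ - A (YP - 1) + 1).toNat + 8 with hK
  have hK0 : (0 : ℝ) < K := by rw [hK]; positivity
  have hK8 : (8 : ℝ) ≤ K := by rw [hK]; push_cast; linarith [(Nat.cast_nonneg H.toNat : (0 : ℝ) ≤ _),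
    (Nat.cast_nonneg (B YQ - A (YP - 1) + 1).toNat : (0 : ℝ) ≤ _)]
  set η' : ℝ := min η (1 / K) with hη'
  have h0 : 0 < η' := by positivity
  have hk : η' ≤ 1 / K := min_le_right _ _
  have hk1 : η' * K ≤ 1 := by
    calc η' * K ≤ 1 / K * K := mul_le_mul_of_nonneg_right hk hK0.le
      _ = 1 := by field_simp
  -- sizes
  have size : ∀ (j : ℕ) (z w : ℤ), z ≤ ((2 * m j : ℕ) : ℤ) * w → w ≤ K → (z : ℝ) ≤ ((2 * m j : ℕ) : ℝ) / η' := by
    intro j z w h1 h2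
    rw [le_div_iff₀ h0]
    have h3 : (z : ℝ) ≤ ((2 * m j : ℕ) : ℝ) * w := by exact_mod_cast h1
    have h4 : (w : ℝ) ≤ K := by exact_mod_cast h2
    have h6 : (0 : ℝ) ≤ ((2 * m j : ℕ) : ℝ) := by positivity
    have h5 : (z : ℝ) ≤ ((2 * m j : ℕ) : ℝ) * K := h3.trans (mul_le_mul_of_nonneg_left h4 h6)
    calc (z : ℝ) * η' ≤ ((2 * m j : ℕ) : ℝ) * K * η' := mul_le_mul_of_nonneg_right h5 h0.le
      _ = ((2 * m j : ℕ) : ℝ) * (η' * K) := by ring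
      _ ≤ ((2 * m j : ℕ) : ℝ) * 1 := mul_le_mul_of_nonneg_left hk1 h6
      _ = ((2 * m j : ℕ) : ℝ) := by ring
  have hw : ∀ j : ℕ, G j → (((D j).b (D j).yQ - (D j).a ((D j).yP - 1) : ℤ) : ℝ) ≤
      ((2 * m j : ℕ) : ℝ) / η' := fun j hj => by
    obtain ⟨-, ⟨CL, CR, C⟩, -⟩ := hG j hj
    exact size j _ _ (width_C C) (by omega)
  have hh : ∀ j : ℕ, G j → ((D j).h : ℝ) ≤ ((2 * m j : ℕ) : ℝ) / η' := fun j hj => by
    obtain ⟨-, ⟨CL, CR, C⟩, -⟩ := hG j hj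
    exact size j _ H C.hh.le (by omega)
  refine aba_mono (η' := η') ?_ (min_le_left _ _)
  refine aba_of (n0 := 3 * (H.toNat + 1)) h0 ?_ hS ?_
  · rintro R v ⟨j, hj, rfl, rfl⟩
    obtain ⟨-, ⟨CL, CR, C⟩, -⟩ := hG j hj
    refine ⟨⟨GC (D j) (2 * m j : ℕ) H, card_GC hHH.le (by omega), (lev_C C).1⟩, hh j hj, hw j hj, (2 * m j : ℕ), ?_,
      fat_C C.toCoarse⟩
    have h1 : η' ≤ 1 := hk.trans (by rw [div_le_one hK0]; linarith)
    have h2 : (0 : ℝ) ≤ ((2 * m j : ℕ) : ℝ) := Nat.cast_nonneg _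
    calc η' * ((2 * m j : ℕ) : ℝ) ≤ 1 * ((2 * m j : ℕ) : ℝ) := mul_le_mul_of_nonneg_right h1 h2
      _ = (((2 * m j : ℕ) : ℤ) : ℝ) := by rw [one_mul]; exact_mod_cast rfl
  · refine lbw_mono (η' := η' / 2) (lbw_of (by positivity) (3 * (H.toNat + 1)) 0 ?_) le_rfl
    rintro R - v ⟨j, hj, rfl, rfl⟩
    obtain ⟨h30, ⟨CL, CR, C⟩, ⟨s0, hs0⟩, hO⟩ := hG j hj
    have h2 : ((2 * m j : ℕ) : ℝ) / η' ≤ ((2 * m j : ℕ) : ℝ) / (η' / 2) :=
      div_le_div_of_nonneg_left (Nat.cast_nonneg _) (by positivity) (by linarith)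
    refine ⟨O j, rfl, s0, (m j : ℤ) / 2 - 4, GC (D j) (2 * m j : ℕ) H, winX_C C (by omega) (by omega)
      (by push_cast; omega) ?_ ((hh j hj).trans h2) ((hw j hj).trans h2) hs0 (outOK_mono hO (by omega))⟩
    have h3 : (m j : ℤ) ≤ 4 * ((m j : ℤ) / 2 - 4) := by omega
    have h4 : (m j : ℝ) ≤ 4 * (((m j : ℤ) / 2 - 4 : ℤ) : ℝ) := by exact_mod_cast h3
    have h5 : η' ≤ 1 / 8 := hk.trans (one_div_le_one_div_of_le (by norm_num) hK8)
    have h6 : (0 : ℝ) ≤ m j := Nat.cast_nonneg _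
    have h7 : η' * (m j : ℝ) ≤ 1 / 8 * m j := mul_le_mul_of_nonneg_right h5 h6
    push_cast at h4 ⊢
    nlinarith

/-- the root of the outsides is away from the corners -/
theorem rootC_J (hm : Tendsto m F atTop) (h : JSeq m F H A B YP YQ D O) :
    ∀ᶠ j in F, RootC (1 / 8) ((2 * m j : ℕ) : ℤ) H A B (O j) := by
  filter_upwards [h.co, h.out, hm.eventually_ge_atTop 30] with j ⟨CL, CR, C⟩ h1 h2
  refine rootC_of C.toCoarse (N := (m j : ℤ)) h1.root ?_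
  have : (30 : ℝ) ≤ m j := by exact_mod_cast h2
  push_cast
  linarith

/-- **The structure `BrW`** of a sequence of coarse windows -/
theorem brW_J (hm : Tendsto m F atTop) (hR : RowO H A B) (hN : NoS H A B)
    (h : JSeq m F H A B YP YQ D O) (h12 : S12W (fun j => 2 * m j) F O) :
    BrW PW (fun j => 2 * m j) F (OmR H A B) (NW D O fun _ => 0) (VW D O fun _ => 0) := by
  have hR2 : Tendsto (fun j => 2 * m j) F atTop :=
    tendsto_atTop_mono (fun j => by omega) hm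
  -- the cut
  classical
  let s0 : ℕ → ℤ := fun j => if hj : ∃ s0, colp (D j) (s0 - 1) ≠ colp (D j) s0 then hj.choose else 0
  have hs0 : ∀ᶠ j in F, colp (D j) (s0 j - 1) ≠ colp (D j) (s0 j) := by
    filter_upwards [h.cut] with j hj
    simp only [s0, dif_pos hj]
    exact hj.choose_spec
  have hC : SeqC (fun j => 2 * m j) F D H A B YP YQ s0 := ⟨h.co, hs0⟩
  have hL : SeqL (fun j => 2 * m j) F (OmR H A B) D (fun _ => 0) :=
    seqL_J (by filter_upwards [h.co] with j ⟨CL, CR, C⟩; exact C.toCoarse)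
  have hmem : MemW PW (fun j => 2 * m j) F O s0 (w0R hR) := by
    refine memW_PW hC ⟨1 / 2, by norm_num, ?_⟩ (w0R hR)
    filter_upwards [h.out] with j hj
    have e : ⌊(1 / 2 : ℝ) * ((2 * m j : ℕ) : ℝ)⌋ = (m j : ℤ) := by
      rw [show (1 / 2 : ℝ) * ((2 * m j : ℕ) : ℝ) = ((m j : ℤ) : ℝ) by push_cast; ring, Int.floor_intCast]
    rw [e]
    exact hj
  have hcoex : ∀ᶠ j in F, ∃ CL CR : ℤ → Bool, CoarseC (D j) ((2 * m j : ℕ) : ℤ) H A B YP YQ CL CR := h.co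
  set G : ℕ → Prop := fun j => 30 ≤ m j ∧
    (∃ CL CR : ℤ → Bool, CoarseC (D j) ((2 * m j : ℕ) : ℤ) H A B YP YQ CL CR) ∧
      (∃ s0, colp (D j) (s0 - 1) ≠ colp (D j) s0) ∧ OutOK (O j) (m j : ℤ) with hGd
  refine brW_of Pool.Agent.H31.Sp.totG hR2 (isOpen_OmR H A B) (isPreconnected_OmR hR) hL hC hmem
    (Pool.Agent.H31.Sp.natW_of ap_planeK hR2 hcoex (rootC_J hm h)) (linW_of hR2 hC O (w0R hR))
    (Pool.Agent.H57.FM.nbW _ _ O s0 (w0R hR)) (s0W_of ap_planeK hR2 hcoex (rootC_J hm h)) h12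
    (S := SM m D O G) ?_ (fun η hη => aba_J hR.HH (fun j hj => hj) hN hη)
  filter_upwards [h.co, h.cut, h.out, hm.eventually_ge_atTop 30] with j h1 h2 h3 h4
  exact ⟨j, ⟨h4, h1, h2, h3⟩, rfl, rfl⟩

/-- **Translation invariance** for the limits of the normalised potentials of a sequence of coarse windows -/
theorem ti_J {U : Ultrafilter ℕ} (hU : (U : Filter ℕ) ≤ atTop) (hm : Tendsto m atTop atTop)
    (hR : RowO H A B) (hN : NoS H A B) (h : JSeq m U H A B YP YQ D O)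
    (h12 : S12W (fun j => 2 * m j) U O) {κ : ℕ → ℂ} (hκ : ∀ n, ‖κ n‖ = 1) {f : ℕ → ℤ × ℤ → ℂ}
    {g : ℂ → ℂ} (hf : ∀ K ⊆ OmR H A B, IsCompact K → ∀ τ > 0, ∀ᶠ j in (U : Filter ℕ), ∀ u v : ℤ × ℤ,
      lat u / (((2 * m j : ℕ) : ℝ) : ℂ) ∈ K → lat v / (((2 * m j : ℕ) : ℝ) : ℂ) ∈ K →
      ‖(nz (fun j => ((2 * m j : ℕ) : ℝ)) κ (NW D O (fun _ => 0) false ∅) j u -
        nz (fun j => ((2 * m j : ℕ) : ℝ)) κ (NW D O (fun _ => 0) false ∅) j v) - (f j u - f j v)‖ ≤ τ)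
    (hlim : ILim (fun j => ((2 * m j : ℕ) : ℝ)) U f (OmR H A B) g)
    (hg : ContinuousOn g (OmR H A B)) : TI (OmR H A B) g := by
  have hmU : Tendsto m (U : Filter ℕ) atTop := hm.mono_left hU
  have raw := BrW.raw Pool.Agent.Q1.M6e.fine45 Pool.Agent.Q1.M6e.hv45 Pool.Agent.H95.R45.dlF
    Pool.Agent.Q1.M6b.AB.ab45 Pool.Agent.H95.R45.c45 Pool.Agent.H95.R45.n45 Pool.Agent.H95.R45.m45
    Pool.Agent.H59.W.finePW Pool.Agent.H59.W.hvPW hmU (brW_J hmU hR hN h h12) (isOpen_OmR H A B)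
    (isPreconnected_OmR hR)
  have hRr : Tendsto (fun j : ℕ => ((2 * m j : ℕ) : ℝ)) atTop atTop :=
    tendsto_natCast_atTop_atTop.comp (tendsto_atTop_mono (fun j => by omega) hm)
  exact RawP.ti (κ := κ) hRr hU (isOpen_OmR H A B) raw hκ hf hlim hg

end Pool.Agent.H59.J
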