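import Mathlib
import Pool.Agent.H59.J.JHold
import Pool.Agent.H59.J.JLim
import Pool.Agent.H59.J.JTI

set_option autoImplicit false
open Filter Topology

/-! # Translation invariance, uniformly in a class of windows

`JCl` : a class of coarse windows with outsides, all of one polyomino. `dj_unif` : the discrete rectangle integrals
of the potentials of two rectangles of the same size differ by `o(R ^ (5/3))`, uniformly in the class. -/

namespace Pool.Agent.H59.J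

open Pool.Agent.Q1 Pool.Agent.H33.Q1
open Pool.Agent.Q1.M4 (lat Om isOpen_Om isPreconnected_Om isBounded_Om Cell fl fl_tendsto)
open Pool.Agent.H44.FM.WG
open Pool.Agent.H44.FM.Br
open Pool.Agent.H44.FM.Wi
open Pool.Agent.H87.FM (gx gx_mono)
open Pool.Agent.Q1.M6f.Glue (TI ILim JJ)
open Pool.Agent.H46.Sp (Win)
open Pool.Agent.H74.Win (OutB InP sh XN)
open Pool.Agent.H31.Sp (Coarse CoarseC)
open Pool.Agent.H13.Sp (colp)
open Pool.Agent.H20.Sp

variable {H : ℤ} {A B : ℤ → ℤ} {YP YQ : ℤ}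

/-- **A class of coarse windows with outsides** of one polyomino; `Cl m` : cells of side `2 m`. -/
structure JCl (H : ℤ) (A B : ℤ → ℤ) (YP YQ : ℤ) (Cl : ℕ → ∀ D : Win, OutB D → Prop) : Prop where
  row : RowO H A B
  nos : NoS H A B
  co : ∀ m D O, Cl m D O → ∃ CL CR : ℤ → Bool, CoarseC D ((2 * m : ℕ) : ℤ) H A B YP YQ CL CR
  cut : ∀ m D O, Cl m D O → ∃ s0, colp D (s0 - 1) ≠ colp D s0
  out : ∀ m D O, Cl m D O → OutOK O (m : ℤ)
  s12 : ∀ (m : ℕ → ℕ) (D : ℕ → Win) (O : ∀ j, OutB (D j)) (U : Ultrafilter ℕ),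
    (U : Filter ℕ) ≤ atTop → Tendsto m atTop atTop → (∀ᶠ j in (U : Filter ℕ), Cl (m j) (D j) (O j)) →
    S12W (fun j => 2 * m j) U O

/-- the normalised potentials of a sequence of windows -/
noncomputable def nf (m : ℕ → ℕ) {D : ℕ → Win} (O : ∀ j, OutB (D j)) (z0 : ℂ) (j : ℕ) (v : ℤ × ℤ) : ℂ :=
  (((((2 * m j : ℕ) : ℝ)) ^ (-(2 / 3) : ℝ) : ℝ) : ℂ) *
    (HF (O j) v - HF (O j) (fl (fun j => ((2 * m j : ℕ) : ℝ)) z0 j))

lemma norm_nf {m : ℕ → ℕ} {D : ℕ → Win} {O : ∀ j, OutB (D j)} {z0 : ℂ} {j : ℕ} (u v : ℤ × ℤ) :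
    ‖nf m O z0 j u - nf m O z0 j v‖ = (((2 * m j : ℕ) : ℝ)) ^ (-(2 / 3) : ℝ) * ‖HF (O j) u - HF (O j) v‖ := by
  unfold nf
  rw [← mul_sub, norm_mul, Complex.norm_real, Real.norm_eq_abs,
    abs_of_nonneg (Real.rpow_nonneg (Nat.cast_nonneg _) _)]
  congr 2
  ring

/-- normalisation -/
lemma norm_rp {r C x : ℝ} (hr : 0 < r) (h : x ≤ C * r ^ (2 / 3 : ℝ)) : r ^ (-(2 / 3) : ℝ) * x ≤ C := by
  calc r ^ (-(2 / 3) : ℝ) * x ≤ r ^ (-(2 / 3) : ℝ) * (C * r ^ (2 / 3 : ℝ)) :=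
        mul_le_mul_of_nonneg_left h (Real.rpow_nonneg hr.le _)
    _ = C * (r ^ (-(2 / 3) : ℝ) * r ^ (2 / 3 : ℝ)) := by ring
    _ = C := by rw [← Real.rpow_add hr]; norm_num

/-- **Limits of the normalised potentials** -/
theorem exists_lim_J {U : Ultrafilter ℕ} (hU : (U : Filter ℕ) ≤ atTop) {m : ℕ → ℕ}
    (hm : Tendsto m atTop atTop) (hR : RowO H A B) {D : ℕ → Win} (O : ∀ j, OutB (D j))
    (hC : ∀ᶠ j in (U : Filter ℕ), Coarse (D j) ((2 * m j : ℕ) : ℤ) H A B) {z0 : ℂ}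
    (hz0 : z0 ∈ OmR H A B) : ∃ g : ℂ → ℂ, ContinuousOn g (OmR H A B) ∧
      ILim (fun j => ((2 * m j : ℕ) : ℝ)) U (nf m O z0) (OmR H A B) g := by
  have hRr : Tendsto (fun j : ℕ => ((2 * m j : ℕ) : ℝ)) atTop atTop :=
    tendsto_natCast_atTop_atTop.comp (tendsto_atTop_mono (fun j => by omega) hm)
  have hRU : Tendsto (fun j : ℕ => ((2 * m j : ℕ) : ℝ)) (U : Filter ℕ) atTop := hRr.mono_left hU
  have hΩ := isOpen_OmR H A B
  have hc := isPreconnected_OmR hR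
  refine exists_ilim hRr hU ?_ ?_
  · -- boundedness
    intro z hz
    obtain ⟨r1, hr1, hb1⟩ := Metric.isOpen_iff.1 hΩ z hz
    obtain ⟨r2, hr2, hb2⟩ := Metric.isOpen_iff.1 hΩ z0 hz0
    set K : Set ℂ := Metric.closedBall z (r1 / 2) ∪ Metric.closedBall z0 (r2 / 2) with hK
    have hKΩ : K ⊆ OmR H A B := Set.union_subset
      ((Metric.closedBall_subset_ball (by linarith)).trans hb1)
      ((Metric.closedBall_subset_ball (by linarith)).trans hb2)
    have hKc : IsCompact K := (isCompact_closedBall _ _).union (isCompact_closedBall _ _)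
    obtain ⟨η, hη, k, hch⟩ := exists_chain hΩ hc hKΩ hKc
    obtain ⟨C, hC0, R0, hbd⟩ := bd_co H A B hη
    refine ⟨k * C, ?_⟩
    have n1 : ∀ᶠ j in (U : Filter ℕ), lat (fl (fun j => ((2 * m j : ℕ) : ℝ)) z j) /
        (((2 * m j : ℕ) : ℝ) : ℂ) ∈ Metric.closedBall z (r1 / 2) :=
      ((fl_tendsto hRr z).mono_left hU).eventually_mem (Metric.closedBall_mem_nhds _ (by positivity))
    have n2 : ∀ᶠ j in (U : Filter ℕ), lat (fl (fun j => ((2 * m j : ℕ) : ℝ)) z0 j) /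
        (((2 * m j : ℕ) : ℝ) : ℂ) ∈ Metric.closedBall z0 (r2 / 2) :=
      ((fl_tendsto hRr z0).mono_left hU).eventually_mem (Metric.closedBall_mem_nhds _ (by positivity))
    filter_upwards [hC, hRU.eventually hch, hRU.eventually_ge_atTop R0, n1, n2,
      hRU.eventually_gt_atTop 0] with j h1 h2 h3 h4 h5 h6
    obtain ⟨p, p0, pk, -, p3⟩ := h2 _ _ (Or.inl h4) (Or.inr h5)
    have h7 := chain_sum (A := HF (O j)) (p := p) (k := k) fun i hi => hbd (D j) (O j) (2 * m j) h1 h3 _ _ (p3 i hi)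
    rw [p0, pk] at h7
    have e : nf m O z0 j (fl (fun j => ((2 * m j : ℕ) : ℝ)) z j) =
        nf m O z0 j (fl (fun j => ((2 * m j : ℕ) : ℝ)) z j) -
          nf m O z0 j (fl (fun j => ((2 * m j : ℕ) : ℝ)) z0 j) := by
      have : nf m O z0 j (fl (fun j => ((2 * m j : ℕ) : ℝ)) z0 j) = 0 := by
        unfold nf; rw [sub_self, mul_zero]
      rw [this, sub_zero]
    rw [e, norm_nf]
    exact norm_rp h6 (h7.trans (le_of_eq (by ring)))
  · -- equicontinuity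
    intro z hz ε hε
    obtain ⟨r1, hr1, hb1⟩ := Metric.isOpen_iff.1 hΩ z hz
    obtain ⟨C, hC0, R0, hR0, hh⟩ := hold_co
    set δ : ℝ := min (r1 / 8) ((ε / C) ^ (3 / 2 : ℝ) / 2) with hδ
    have hδ0 : 0 < δ := by positivity
    have hball : Metric.ball z (8 * δ) ⊆ OmR H A B := by
      refine (Metric.ball_subset_ball ?_).trans hb1
      have : δ ≤ r1 / 8 := min_le_left _ _
      linarith
    have hsm : C * (2 * δ) ^ (2 / 3 : ℝ) ≤ ε := by
      have h1 : 2 * δ ≤ (ε / C) ^ (3 / 2 : ℝ) := by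
        have : δ ≤ (ε / C) ^ (3 / 2 : ℝ) / 2 := min_le_right _ _
        linarith
      have h2 : (2 * δ) ^ (2 / 3 : ℝ) ≤ ε / C := by
        calc (2 * δ) ^ (2 / 3 : ℝ) ≤ ((ε / C) ^ (3 / 2 : ℝ)) ^ (2 / 3 : ℝ) :=
              Real.rpow_le_rpow (by positivity) h1 (by norm_num)
          _ = ε / C := by
              rw [← Real.rpow_mul (by positivity)]
              norm_num
      rw [le_div_iff₀ hC0] at h2
      linarith
    refine ⟨δ, hδ0, ?_⟩
    filter_upwards [hC, hRU.eventually_ge_atTop (R0 / (2 * δ)), hRU.eventually_gt_atTop 0] with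
      j h1 h2 h3 u v hu hv
    have h4 : R0 ≤ 2 * δ * ((2 * m j : ℕ) : ℝ) := by
      rw [div_le_iff₀ (by positivity)] at h2
      linarith
    have h5 := hh (D j) (O j) (2 * m j) H A B h1 z δ hδ0 hball h4 u v hu hv
    rw [norm_nf]
    refine norm_rp h3 (h5.trans ?_)
    have h6 := lat_near h3 hu hv
    have h7 : ‖lat u - lat v‖ ^ (2 / 3 : ℝ) ≤ (2 * δ) ^ (2 / 3 : ℝ) * ((2 * m j : ℕ) : ℝ) ^ (2 / 3 : ℝ) := by
      rw [← Real.mul_rpow (by positivity) h3.le]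
      exact Real.rpow_le_rpow (norm_nonneg _) h6 (by norm_num)
    calc C * ‖lat u - lat v‖ ^ (2 / 3 : ℝ) ≤
          C * ((2 * δ) ^ (2 / 3 : ℝ) * ((2 * m j : ℕ) : ℝ) ^ (2 / 3 : ℝ)) :=
          mul_le_mul_of_nonneg_left h7 hC0.le
      _ = (C * (2 * δ) ^ (2 / 3 : ℝ)) * ((2 * m j : ℕ) : ℝ) ^ (2 / 3 : ℝ) := by ring
      _ ≤ ε * ((2 * m j : ℕ) : ℝ) ^ (2 / 3 : ℝ) :=
          mul_le_mul_of_nonneg_right hsm (Real.rpow_nonneg h3.le _)

lemma RL.left {Ω : Set ℂ} {η : ℝ} (hη : 0 ≤ η) {z w : ℂ} (h : RL Ω η z w) : z ∈ Ω := h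
  ⟨by linarith [min_le_left z.re w.re], by linarith [le_max_left z.re w.re],
    by linarith [min_le_left z.im w.im], by linarith [le_max_left z.im w.im]⟩

/-- limits along an ultrafilter of points of a bounded set -/
lemma exists_lim_of_bdd {Ω : Set ℂ} (hb : Bornology.IsBounded Ω) (U : Ultrafilter ℕ) {x : ℕ → ℂ}
    (hx : ∀ j, x j ∈ Ω) : ∃ z, Tendsto x U (𝓝 z) := by
  obtain ⟨K, hK⟩ := (Metric.isBounded_iff_subset_closedBall 0).1 hb
  have hle : (U.map x : Filter ℂ) ≤ 𝓟 (Metric.closedBall 0 K) := by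
    rw [le_principal_iff]
    change ∀ᶠ j in (U : Filter ℕ), x j ∈ Metric.closedBall 0 K
    exact Eventually.of_forall fun j => hK (hx j)
  obtain ⟨a, -, ha⟩ := (isCompact_closedBall (0 : ℂ) K).ultrafilter_le_nhds _ hle
  exact ⟨a, ha⟩

lemma RL_lim {Ω : Set ℂ} {η : ℝ} (hη : 0 < η) {U : Ultrafilter ℕ} {x y : ℕ → ℂ} {z w : ℂ}
    (hx : Tendsto x U (𝓝 z)) (hy : Tendsto y U (𝓝 w)) (h : ∀ j, RL Ω η (x j) (y j)) :
    RL Ω (η / 2) z w := by
  have n1 : ∀ᶠ j in (U : Filter ℕ), x j ∈ Metric.ball z (η / 2) :=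
    hx.eventually_mem (Metric.ball_mem_nhds _ (by positivity))
  have n2 : ∀ᶠ j in (U : Filter ℕ), y j ∈ Metric.ball w (η / 2) :=
    hy.eventually_mem (Metric.ball_mem_nhds _ (by positivity))
  obtain ⟨j, h1, h2⟩ := (n1.and n2).exists
  rw [Metric.mem_ball, dist_eq_norm, ← norm_neg, neg_sub] at h1 h2
  have e1 := (Complex.abs_re_le_norm (z - x j)).trans h1.le
  have e2 := (Complex.abs_im_le_norm (z - x j)).trans h1.le
  have e3 := (Complex.abs_re_le_norm (w - y j)).trans h2.le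
  have e4 := (Complex.abs_im_le_norm (w - y j)).trans h2.le
  simp only [Complex.sub_re, Complex.sub_im] at e1 e2 e3 e4
  have := (h j).move e1 e2 e3 e4
  rwa [show η - η / 2 = η / 2 by ring] at this

lemma rect_of_RL {Ω : Set ℂ} {η : ℝ} (hη : 0 ≤ η) {z w : ℂ} (h : RL Ω η z w) :
    Set.Icc z.re w.re ×ℂ Set.Icc z.im w.im ⊆ Ω := by
  intro ζ hζ
  rw [Complex.mem_reProdIm] at hζ
  refine h ⟨?_, ?_, ?_, ?_⟩
  · linarith [hζ.1.1, min_le_left z.re w.re]
  · linarith [hζ.1.2, le_max_right z.re w.re]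
  · linarith [hζ.2.1, min_le_left z.im w.im]
  · linarith [hζ.2.2, le_max_right z.im w.im]

/-- **Uniform translation invariance** of the discrete rectangle integrals -/
theorem dj_unif {Cl : ℕ → ∀ D : Win, OutB D → Prop} (hJ : JCl H A B YP YQ Cl) {η ε : ℝ} (hη : 0 < η)
    (hε : 0 < ε) : ∃ m0 : ℕ, ∀ m, m0 ≤ m → ∀ (D : Win) (O : OutB D), Cl m D O →
      ∀ (a a' : ℤ × ℤ) (L M : ℕ), η * ((2 * m : ℕ) : ℝ) ≤ L → η * ((2 * m : ℕ) : ℝ) ≤ M →
      RL (OmR H A B) η (lat a / (((2 * m : ℕ) : ℝ) : ℂ))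
        (lat (a + ((L : ℤ), (M : ℤ))) / (((2 * m : ℕ) : ℝ) : ℂ)) →
      RL (OmR H A B) η (lat a' / (((2 * m : ℕ) : ℝ) : ℂ))
        (lat (a' + ((L : ℤ), (M : ℤ))) / (((2 * m : ℕ) : ℝ) : ℂ)) →
      ‖DJ (HF O) a L M - DJ (HF O) a' L M‖ ≤ ε * ((2 * m : ℕ) : ℝ) ^ (5 / 3 : ℝ) := by
  by_contra hcon
  push Not at hcon
  choose m hm D O hCl a a' L M hL hM hR1 hR2 hbig using hcon
  have hmt : Tendsto m atTop atTop := tendsto_atTop_mono hm tendsto_id
  set U : Ultrafilter ℕ := Filter.hyperfilter ℕ with hUd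
  have hU : (U : Filter ℕ) ≤ atTop := Nat.hyperfilter_le_atTop
  set R : ℕ → ℝ := fun j => ((2 * m j : ℕ) : ℝ) with hRd
  have hRr : Tendsto R atTop atTop :=
    tendsto_natCast_atTop_atTop.comp (tendsto_atTop_mono (fun j => by omega) hmt)
  have hRU : Tendsto R (U : Filter ℕ) atTop := hRr.mono_left hU
  have hΩ := isOpen_OmR H A B
  have hbdd : Bornology.IsBounded (OmR H A B) := isBounded_Om _ _ _
  obtain ⟨z1, hz1⟩ := exists_lim_of_bdd hbdd U fun j => RL.left hη.le (hR1 j)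
  obtain ⟨w1, hw1⟩ := exists_lim_of_bdd hbdd U fun j => RL.left hη.le (hR1 j).symm
  obtain ⟨z2, hz2⟩ := exists_lim_of_bdd hbdd U fun j => RL.left hη.le (hR2 j)
  obtain ⟨w2, hw2⟩ := exists_lim_of_bdd hbdd U fun j => RL.left hη.le (hR2 j).symm
  have r1 := RL_lim hη hz1 hw1 hR1
  have r2 := RL_lim hη hz2 hw2 hR2
  -- sizes
  have hsz : ∀ j, lat (a j + ((L j : ℤ), (M j : ℤ))) / ((R j : ℝ) : ℂ) - lat (a j) / ((R j : ℝ) : ℂ) =
      ((⟨(L j : ℝ) / R j, (M j : ℝ) / R j⟩ : ℂ)) := by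
    intro j
    rw [← sub_div]
    apply Complex.ext
    · rw [Complex.div_ofReal_re]; simp [lat]
    · rw [Complex.div_ofReal_im]; simp [lat]
  have hsz' : ∀ j, lat (a' j + ((L j : ℤ), (M j : ℤ))) / ((R j : ℝ) : ℂ) - lat (a' j) / ((R j : ℝ) : ℂ) =
      ((⟨(L j : ℝ) / R j, (M j : ℝ) / R j⟩ : ℂ)) := by
    intro j
    rw [← sub_div]
    apply Complex.ext
    · rw [Complex.div_ofReal_re]; simp [lat]
    · rw [Complex.div_ofReal_im]; simp [lat]
  have hl1 : Tendsto (fun j => ((⟨(L j : ℝ) / R j, (M j : ℝ) / R j⟩ : ℂ))) U (𝓝 (w1 - z1)) := by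
    refine (hw1.sub hz1).congr fun j => ?_
    exact hsz j
  have hl2 : Tendsto (fun j => ((⟨(L j : ℝ) / R j, (M j : ℝ) / R j⟩ : ℂ))) U (𝓝 (w2 - z2)) := by
    refine (hw2.sub hz2).congr fun j => ?_
    exact hsz' j
  have hww : w2 - z2 = w1 - z1 := tendsto_nhds_unique hl2 hl1
  have hLt : Tendsto (fun j => (L j : ℝ) / R j) U (𝓝 (w1.re - z1.re)) := by
    have := (Complex.continuous_re.tendsto _).comp hl1
    rwa [Complex.sub_re] at this
  have hMt : Tendsto (fun j => (M j : ℝ) / R j) U (𝓝 (w1.im - z1.im)) := by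
    have := (Complex.continuous_im.tendsto _).comp hl1
    rwa [Complex.sub_im] at this
  have hLη : η ≤ w1.re - z1.re := by
    refine ge_of_tendsto hLt ?_
    filter_upwards [hRU.eventually_gt_atTop 0] with j hj
    rw [le_div_iff₀ hj]
    exact hL j
  have hMη : η ≤ w1.im - z1.im := by
    refine ge_of_tendsto hMt ?_
    filter_upwards [hRU.eventually_gt_atTop 0] with j hj
    rw [le_div_iff₀ hj]
    exact hM j
  have e2r : w2.re = w1.re + (z2.re - z1.re) := by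
    have := congrArg Complex.re hww
    simp only [Complex.sub_re] at this
    linarith
  have e2i : w2.im = w1.im + (z2.im - z1.im) := by
    have := congrArg Complex.im hww
    simp only [Complex.sub_im] at this
    linarith
  -- the limit
  have hz1Ω : z1 ∈ OmR H A B := RL.left (by positivity) r1
  have hco : ∀ j, ∃ CL CR : ℤ → Bool, CoarseC (D j) ((2 * m j : ℕ) : ℤ) H A B YP YQ CL CR :=
    fun j => hJ.co _ _ _ (hCl j)
  obtain ⟨g, hg, hlim⟩ := exists_lim_J hU hmt hJ.row O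
    (Eventually.of_forall fun j => by obtain ⟨CL, CR, h⟩ := hco j; exact h.toCoarse) hz1Ω
  have hseq : JSeq m U H A B YP YQ D O := ⟨Eventually.of_forall hco,
    Eventually.of_forall fun j => hJ.cut _ _ _ (hCl j), Eventually.of_forall fun j => hJ.out _ _ _ (hCl j)⟩
  have hTI : TI (OmR H A B) g := by
    refine ti_J hU hmt hJ.row hJ.nos hseq (hJ.s12 m D O U hU hmt (Eventually.of_forall hCl))
      (κ := fun _ => 1) (fun _ => norm_one) (f := nf m O z1) ?_ hlim hg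
    intro K _ _ τ hτ
    refine Eventually.of_forall fun j u v _ _ => ?_
    have : (nz (fun j => ((2 * m j : ℕ) : ℝ)) (fun _ => (1 : ℂ)) (NW D O (fun _ => 0) false ∅) j u -
        nz (fun j => ((2 * m j : ℕ) : ℝ)) (fun _ => (1 : ℂ)) (NW D O (fun _ => 0) false ∅) j v) -
        (nf m O z1 j u - nf m O z1 j v) = 0 := by
      simp only [nz, nf, NW_eq]
      ring
    rw [this, norm_zero]
    exact hτ.le
  -- the two rectangles
  have c1 : ((z1.re : ℂ)) + (z1.im : ℂ) * Complex.I = z1 := Complex.re_add_im z1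
  have c2 : ((z2.re : ℂ)) + (z2.im : ℂ) * Complex.I = z2 := Complex.re_add_im z2
  have t1 := DJ_tendsto hRU hlim hg hΩ (a := z1.re) (b := w1.re) (c := z1.im) (d := w1.im)
    (by linarith) (by linarith) (rect_of_RL (by positivity) r1) (p := a) (L := L) (M := M)
    (by rw [c1]; exact hz1) hLt hMt
  have t2 := DJ_tendsto hRU hlim hg hΩ (a := z2.re) (b := w2.re) (c := z2.im) (d := w2.im)
    (by linarith) (by linarith) (rect_of_RL (by positivity) r2) (p := a') (L := L) (M := M)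
    (by rw [c2]; exact hz2) (by rw [e2r]; convert hLt using 2; ring) (by rw [e2i]; convert hMt using 2; ring)
  have hJJ : JJ g z1.re w1.re z1.im w1.im = JJ g z2.re w2.re z2.im w2.im := by
    have h1 := hTI z1.re w1.re z1.im w1.im (z2.re - z1.re) (z2.im - z1.im) (by linarith) (by linarith)
      (rect_of_RL (by positivity) r1) (by
        rw [← e2r, ← e2i]
        have := rect_of_RL (by positivity) r2
        convert this using 3 <;> ring)
    rw [h1, e2r, e2i]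
    congr 1 <;> ring
  have t3 := (t1.sub t2).norm
  rw [hJJ, sub_self, norm_zero] at t3
  have t4 := (t3.eventually_lt_const hε).and (hRU.eventually_gt_atTop 0)
  obtain ⟨j, h1, h2⟩ := t4.exists
  have e1 : ∀ b : ℤ × ℤ, DJ (nf m O z1 j) b (L j) (M j) =
      (((R j) ^ (-(2 / 3) : ℝ) : ℝ) : ℂ) * DJ (HF (O j)) b (L j) (M j) := fun b => DJ_add_const _ _ _ _ _ _
  rw [e1, e1, ← mul_sub, ← mul_sub, norm_mul, norm_mul, Complex.norm_real, Complex.norm_real,
    Real.norm_eq_abs, Real.norm_eq_abs, abs_of_pos (by positivity), abs_of_pos (Real.rpow_pos_of_pos h2 _)] at h1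
  have h3 := hbig j
  have h4 : 0 < 1 / R j * (R j ^ (-(2 / 3) : ℝ)) := by positivity
  have h5 : 1 / R j * (R j ^ (-(2 / 3) : ℝ)) * (ε * (R j) ^ (5 / 3 : ℝ)) = ε := by
    have : 1 / R j = R j ^ (-1 : ℝ) := by rw [Real.rpow_neg_one, one_div]
    rw [this, ← Real.rpow_add h2]
    calc R j ^ (-1 + -(2 / 3) : ℝ) * (ε * R j ^ (5 / 3 : ℝ)) =
          ε * (R j ^ (-1 + -(2 / 3) : ℝ) * R j ^ (5 / 3 : ℝ)) := by ring
      _ = ε := by rw [← Real.rpow_add h2]; norm_num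
  have h6 := mul_lt_mul_of_pos_left h3 h4
  rw [h5] at h6
  rw [← mul_assoc] at h1
  linarith

end Pool.Agent.H59.J
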