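import Mathlib
import Pool.Agent.H59.J.JMix
import Pool.Agent.H65.G.RoomN
import Pool.Agent.H52.W.S12N

set_option autoImplicit false
open Filter Topology

/-! # The class of the windows of the room of the ring

`ClR D m W O` : `W` is the window of the room of the ring `D` with cells of side `2 m`, for some colours of the
plates which are not all equal on the sides of the room, and `O` is a good outside. `jcl_ring` : this is a class
`JCl`. -/

namespace Pool.Agent.H59.J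

open Pool.Agent.Q1.M6c (ap_planeK)
open Pool.Agent.H46.Sp (Win)
open Pool.Agent.H74.Win (OutB)
open Pool.Agent.H31.Sp (Coarse CoarseC)
open Pool.Agent.H13.Sp (colp)
open Pool.Agent.H20.Sp
open Pool.Agent.H65.G (RG)
open Pool.Agent.H52.W (OTyN s12W_ofN)
open Pool.Agent.H44.FM.Wi (S12W)

lemma two_even (m : ℕ) : ((2 * m : ℕ) : ℤ) % 2 = 0 := by push_cast; omega

/-- the window of the room with cells of side `2 m` and the colours `s` of the plates -/
def WR (D : RG) (s : ℕ × ℤ → Bool) (m : ℕ) (hm : (2 : ℤ) ≤ ((2 * m : ℕ) : ℤ)) : Win :=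
  (D.cw s).win ((2 * m : ℕ) : ℤ) hm (two_even m)

/-- **The class of the windows of the room.** -/
def ClR (D : RG) (m : ℕ) (W : Win) (O : OutB W) : Prop :=
  4 ≤ m ∧ (∃ (s : ℕ × ℤ → Bool) (hm : (2 : ℤ) ≤ ((2 * m : ℕ) : ℤ)), W = WR D s m hm) ∧
    (∃ s0, colp W (s0 - 1) ≠ colp W s0) ∧ OutOK O (m : ℤ) ∧ OTyN O

lemma coarse_WR (D : RG) (s : ℕ × ℤ → Bool) {m : ℕ} (h4 : 4 ≤ m) (hm : (2 : ℤ) ≤ ((2 * m : ℕ) : ℤ)) :
    CoarseC (WR D s m hm) ((2 * m : ℕ) : ℤ) D.HR D.AL D.AR (D.M - D.τ) (D.HR - (D.M - D.τ))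
      (fun Y => s (D.PL Y)) (fun Y => s (D.PR Y)) :=
  D.coarseC s hm (two_even m) (by push_cast; omega)

/-- **The windows of the room are a class `JCl`.** -/
theorem jcl_ring (D : RG) : JCl D.HR D.AL D.AR (D.M - D.τ) (D.HR - (D.M - D.τ)) (ClR D) where
  row := rowO_of (coarse_WR D (fun _ => true) (m := 4) le_rfl (by norm_num)).toCoarse
  nos := D.nos
  co := by
    rintro m W O ⟨h4, ⟨s, hm, rfl⟩, -⟩
    exact ⟨_, _, coarse_WR D s h4 hm⟩
  cut := fun m W O h => h.2.2.1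
  out := fun m W O h => h.2.2.2.1
  s12 := by
    intro m W O U hU hm hC
    have hmU : Tendsto m (U : Filter ℕ) atTop := hm.mono_left hU
    have hR2 : Tendsto (fun j => 2 * m j) (U : Filter ℕ) atTop :=
      tendsto_atTop_mono (fun j => by omega) hmU
    have co : ∀ᶠ j in (U : Filter ℕ), ∃ CL CR : ℤ → Bool,
        CoarseC (W j) ((2 * m j : ℕ) : ℤ) D.HR D.AL D.AR (D.M - D.τ) (D.HR - (D.M - D.τ)) CL CR := by
      filter_upwards [hC] with j hj
      obtain ⟨h4, ⟨s, hm, e⟩, -⟩ := hj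
      rw [e]
      exact ⟨_, _, coarse_WR D s h4 hm⟩
    have h1 : ∀ᶠ j in (U : Filter ℕ), ∃ (YP YQ : ℤ) (CL CR : ℤ → Bool),
        CoarseC (W j) ((2 * m j : ℕ) : ℤ) D.HR D.AL D.AR YP YQ CL CR := by
      filter_upwards [co] with j hj
      obtain ⟨CL, CR, h⟩ := hj
      exact ⟨_, _, CL, CR, h⟩
    have h2 := rootC_J hmU ⟨co, hC.mono fun j h => h.2.2.1, hC.mono fun j h => h.2.2.2.1⟩
    intro pA pB sA sB tx ty h
    exact s12W_ofN ap_planeK hR2 h1 h2 (hC.mono fun j h => h.2.2.2.2) h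

end Pool.Agent.H59.J
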