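import Mathlib
import Pool.Agent.H59.J.JMix

set_option autoImplicit false
open Filter Topology

/-! # Mixtures of potentials of a class of windows

`Mx Cl m f` : `f` is a combination of potentials of the class with total weight at most `1`. `mix_hold`, `mix_ti` :
near an interior point normalised mixtures are Hoelder and their limits are translation invariant, in the
coordinates of an arbitrary scale `R` and with an arbitrary shift `t j`. -/

namespace Pool.Agent.H59.J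

open Pool.Agent.Q1 Pool.Agent.H33.Q1
open Pool.Agent.Q1.M4 (lat Om isOpen_Om isPreconnected_Om isBounded_Om Cell fl fl_tendsto GLim nat_floor_tendsto)
open Pool.Agent.H44.FM.WG
open Pool.Agent.H87.FM (gx gx_mono)
open Pool.Agent.Q1.M6f.Glue (TI ILim JJ TX TY rr uu)
open Pool.Agent.H46.Sp (Win)
open Pool.Agent.H74.Win (OutB)
open Pool.Agent.H31.Sp (Coarse CoarseC)

variable {H : ℤ} {A B : ℤ → ℤ} {YP YQ : ℤ} {Cl : ℕ → ∀ D : Win, OutB D → Prop}

/-- **Mixtures** of potentials of the class -/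
def Mx (Cl : ℕ → ∀ D : Win, OutB D → Prop) (m : ℕ) (f : ℤ × ℤ → ℂ) : Prop :=
  ∃ (ι : Type) (s : Finset ι) (D : ι → Win) (O : ∀ i, OutB (D i)) (w : ι → ℂ),
    (∀ i ∈ s, Cl m (D i) (O i)) ∧ ∑ i ∈ s, ‖w i‖ ≤ 1 ∧ ∀ v, f v = ∑ i ∈ s, w i * HF (O i) v

/-- shifts -/
lemma DJ_shift (f : ℤ × ℤ → ℂ) (t a : ℤ × ℤ) (L M : ℕ) :
    DJ (fun v => f (v - t)) a L M = DJ f (a - t) L M := by
  unfold DJ TX TY
  have e : ∀ k l : ℤ × ℤ, a + k + l - t = a - t + k + l := fun k l => by abel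
  have e' : ∀ k : ℤ × ℤ, a + k - t = a - t + k := fun k => by abel
  simp only [e, e']

/-- **The difference of the rectangle integrals of a mixture** -/
lemma dj_mix {m : ℕ} {f : ℤ × ℤ → ℂ} (hf : Mx Cl m f) {a a' : ℤ × ℤ} {L M : ℕ} {b : ℝ} (hb : 0 ≤ b)
    (h : ∀ (D : Win) (O : OutB D), Cl m D O → ‖DJ (HF O) a L M - DJ (HF O) a' L M‖ ≤ b) :
    ‖DJ f a L M - DJ f a' L M‖ ≤ b := by
  obtain ⟨ι, s, D, O, w, h1, h2, h3⟩ := hf
  have e : f = fun v => ∑ i ∈ s, w i * HF (O i) v := funext h3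
  rw [e, DJ_sum, DJ_sum, ← Finset.sum_sub_distrib]
  calc ‖∑ i ∈ s, (w i * DJ (HF (O i)) a L M - w i * DJ (HF (O i)) a' L M)‖ ≤ ∑ i ∈ s, ‖w i‖ * b := by
        refine norm_sum_le_of_le _ fun i hi => ?_
        rw [← mul_sub, norm_mul]
        exact mul_le_mul_of_nonneg_left (h _ _ (h1 i hi)) (norm_nonneg _)
    _ = (∑ i ∈ s, ‖w i‖) * b := by rw [Finset.sum_mul]
    _ ≤ 1 * b := mul_le_mul_of_nonneg_right h2 hb
    _ = b := one_mul b

/-- increments of a mixture -/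
lemma inc_mix {m : ℕ} {f : ℤ × ℤ → ℂ} (hf : Mx Cl m f) {u v : ℤ × ℤ} {b : ℝ} (hb : 0 ≤ b)
    (h : ∀ (D : Win) (O : OutB D), Cl m D O → ‖HF O u - HF O v‖ ≤ b) : ‖f u - f v‖ ≤ b := by
  obtain ⟨ι, s, D, O, w, h1, h2, h3⟩ := hf
  rw [h3, h3, ← Finset.sum_sub_distrib]
  calc ‖∑ i ∈ s, (w i * HF (O i) u - w i * HF (O i) v)‖ ≤ ∑ i ∈ s, ‖w i‖ * b := by
        refine norm_sum_le_of_le _ fun i hi => ?_
        rw [← mul_sub, norm_mul]
        exact mul_le_mul_of_nonneg_left (h _ _ (h1 i hi)) (norm_nonneg _)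
    _ = (∑ i ∈ s, ‖w i‖) * b := by rw [Finset.sum_mul]
    _ ≤ 1 * b := mul_le_mul_of_nonneg_right h2 hb
    _ = b := one_mul b

/-- **The position of a room in the large picture**: `R` scale, `2 m j / R j → s`, `t j` : shift. -/
structure Pos (R : ℕ → ℝ) (U : Ultrafilter ℕ) (m : ℕ → ℕ) (t : ℕ → ℤ × ℤ) (s : ℝ) (t0 : ℂ) : Prop where
  top : Tendsto R atTop atTop
  le : (U : Filter ℕ) ≤ atTop
  mt : Tendsto m atTop atTop
  s0 : 0 < s
  sc : Tendsto (fun j => ((2 * m j : ℕ) : ℝ) / R j) U (𝓝 s)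
  sh : Tendsto (fun j => lat (t j) / (R j : ℂ)) U (𝓝 t0)

lemma lat_sub' (u v : ℤ × ℤ) : lat (u - v) = lat u - lat v := by
  apply Complex.ext <;> simp [lat]

section pos

variable {R : ℕ → ℝ} {U : Ultrafilter ℕ} {m : ℕ → ℕ} {t : ℕ → ℤ × ℤ} {s : ℝ} {t0 : ℂ}

/-- the coordinates of the room -/
lemma Pos.tend (hP : Pos R U m t s t0) {v : ℕ → ℤ × ℤ} {z : ℂ}
    (hv : Tendsto (fun j => lat (v j) / (R j : ℂ)) U (𝓝 z)) :
    Tendsto (fun j => lat (v j - t j) / (((2 * m j : ℕ) : ℝ) : ℂ)) U (𝓝 ((z - t0) / s)) := by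
  have hRU : Tendsto R (U : Filter ℕ) atTop := hP.top.mono_left hP.le
  have h1 : Tendsto (fun j => ((((2 * m j : ℕ) : ℝ) / R j : ℝ) : ℂ)) U (𝓝 (s : ℂ)) :=
    (Complex.continuous_ofReal.tendsto _).comp hP.sc
  have hs : (s : ℂ) ≠ 0 := by exact_mod_cast hP.s0.ne'
  refine ((hv.sub hP.sh).div h1 hs).congr' ?_
  have hm : Tendsto (fun j : ℕ => ((2 * m j : ℕ) : ℝ)) (U : Filter ℕ) atTop :=
    (tendsto_natCast_atTop_atTop.comp (tendsto_atTop_mono (fun j => by omega) hP.mt)).mono_left hP.le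
  filter_upwards [hRU.eventually_gt_atTop 0, hm.eventually_gt_atTop 0] with j h2 h3
  have h2' : (R j : ℂ) ≠ 0 := by exact_mod_cast h2.ne'
  have h3' : (((2 * m j : ℕ) : ℝ) : ℂ) ≠ 0 := by exact_mod_cast h3.ne'
  simp only [Pi.div_apply]
  rw [lat_sub', ← sub_div, Complex.ofReal_div]
  field_simp

/-- points near `z` are near `(z - t0) / s` in the room -/
lemma Pos.near (hP : Pos R U m t s t0) {z : ℂ} {r : ℝ} (hr : 0 < r) :
    ∀ᶠ j in (U : Filter ℕ), ∀ v : ℤ × ℤ, ‖lat v / (R j : ℂ) - z‖ < r →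
      ‖lat (v - t j) / (((2 * m j : ℕ) : ℝ) : ℂ) - (z - t0) / s‖ < 2 * r / s := by
  have hRU : Tendsto R (U : Filter ℕ) atTop := hP.top.mono_left hP.le
  have hs := hP.s0
  have hsc : (s : ℂ) ≠ 0 := by exact_mod_cast hs.ne'
  have hm : Tendsto (fun j : ℕ => ((2 * m j : ℕ) : ℝ)) (U : Filter ℕ) atTop :=
    (tendsto_natCast_atTop_atTop.comp (tendsto_atTop_mono (fun j => by omega) hP.mt)).mono_left hP.le
  -- `x = R / (2 m)`
  have hx : Tendsto (fun j => R j / ((2 * m j : ℕ) : ℝ)) U (𝓝 (1 / s)) := by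
    have := hP.sc.inv₀ hs.ne'
    rw [one_div]
    refine this.congr fun j => ?_
    rw [inv_div]
  have e1 : Tendsto (fun j => ‖((R j / ((2 * m j : ℕ) : ℝ) : ℝ) : ℂ) - ((1 / s : ℝ) : ℂ)‖ * (‖z‖ + r + ‖t0‖) +
      ‖lat (t j) / (R j : ℂ) - t0‖ * (2 / s)) U (𝓝 (0 * (‖z‖ + r + ‖t0‖) + 0 * (2 / s))) := by
    refine Tendsto.add (Tendsto.mul_const _ ?_) (Tendsto.mul_const _ ?_)
    · have h1 : Tendsto (fun j => ((R j / ((2 * m j : ℕ) : ℝ) : ℝ) : ℂ)) U (𝓝 ((1 / s : ℝ) : ℂ)) :=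
        (Complex.continuous_ofReal.tendsto _).comp hx
      have := (h1.sub_const ((1 / s : ℝ) : ℂ)).norm
      rwa [sub_self, norm_zero] at this
    · have := (hP.sh.sub_const t0).norm
      rwa [sub_self, norm_zero] at this
  rw [zero_mul, zero_mul, add_zero] at e1
  have h4 : (0 : ℝ) < r / s := by positivity
  have h5 : ∀ᶠ j in (U : Filter ℕ), R j / ((2 * m j : ℕ) : ℝ) < 2 / s := by
    refine hx.eventually_lt_const ?_
    rw [div_lt_div_iff_of_pos_right hs]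
    norm_num
  filter_upwards [e1.eventually_lt_const h4, h5, hRU.eventually_gt_atTop 0, hm.eventually_gt_atTop 0] with
    j g1 g2 g3 g4 v hv
  set x : ℝ := R j / ((2 * m j : ℕ) : ℝ) with hxd
  have hx0 : 0 < x := by positivity
  have g3' : (R j : ℂ) ≠ 0 := by exact_mod_cast g3.ne'
  have g4' : (((2 * m j : ℕ) : ℝ) : ℂ) ≠ 0 := by exact_mod_cast g4.ne'
  have e2 : lat (v - t j) / (((2 * m j : ℕ) : ℝ) : ℂ) = (x : ℂ) * (lat v / (R j : ℂ) - lat (t j) / (R j : ℂ)) := by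
    rw [lat_sub', hxd, ← sub_div, Complex.ofReal_div]
    field_simp
  have e3 : lat (v - t j) / (((2 * m j : ℕ) : ℝ) : ℂ) - (z - t0) / s =
      ((1 / s : ℝ) : ℂ) * (lat v / (R j : ℂ) - z) +
        (((x : ℂ) - ((1 / s : ℝ) : ℂ)) * (lat v / (R j : ℂ) - t0) - (x : ℂ) * (lat (t j) / (R j : ℂ) - t0)) := by
    rw [e2]
    push_cast
    field_simp
    ring
  rw [e3]
  have n1 : ‖((1 / s : ℝ) : ℂ) * (lat v / (R j : ℂ) - z)‖ < r / s := by
    rw [norm_mul, Complex.norm_real, Real.norm_eq_abs, abs_of_pos (by positivity)]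
    calc 1 / s * ‖lat v / (R j : ℂ) - z‖ < 1 / s * r := mul_lt_mul_of_pos_left hv (by positivity)
      _ = r / s := by ring
  have n2 : ‖lat v / (R j : ℂ) - t0‖ ≤ ‖z‖ + r + ‖t0‖ := by
    have e : lat v / (R j : ℂ) - t0 = (lat v / (R j : ℂ) - z) + z - t0 := by ring
    rw [e]
    refine (norm_sub_le _ _).trans ?_
    have := norm_add_le (lat v / (R j : ℂ) - z) z
    linarith
  have n3 : ‖((x : ℂ) - ((1 / s : ℝ) : ℂ)) * (lat v / (R j : ℂ) - t0)‖ ≤
      ‖(x : ℂ) - ((1 / s : ℝ) : ℂ)‖ * (‖z‖ + r + ‖t0‖) := by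
    rw [norm_mul]
    exact mul_le_mul_of_nonneg_left n2 (norm_nonneg _)
  have n4 : ‖(x : ℂ) * (lat (t j) / (R j : ℂ) - t0)‖ ≤ ‖lat (t j) / (R j : ℂ) - t0‖ * (2 / s) := by
    rw [norm_mul, Complex.norm_real, Real.norm_eq_abs, abs_of_pos hx0, mul_comm]
    exact mul_le_mul_of_nonneg_left g2.le (norm_nonneg _)
  have n5 := norm_sub_le (((x : ℂ) - ((1 / s : ℝ) : ℂ)) * (lat v / (R j : ℂ) - t0))
    ((x : ℂ) * (lat (t j) / (R j : ℂ) - t0))
  refine (norm_add_le _ _).trans_lt ?_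
  have e4 : 2 * r / s = r / s + r / s := by ring
  rw [e4]
  linarith

variable {z : ℂ} {r : ℝ} {G : ℕ → ℤ × ℤ → ℂ}

/-- the functions `G j` are normalised mixtures near `z` -/
def MixG (R : ℕ → ℝ) (U : Ultrafilter ℕ) (m : ℕ → ℕ) (t : ℕ → ℤ × ℤ)
    (Cl : ℕ → ∀ D : Win, OutB D → Prop) (z : ℂ) (r : ℝ) (G : ℕ → ℤ × ℤ → ℂ) : Prop :=
  ∀ᶠ j in (U : Filter ℕ), ∃ f : ℤ × ℤ → ℂ, Mx Cl (m j) f ∧ ∀ v w : ℤ × ℤ,
    ‖lat v / (R j : ℂ) - z‖ < r → ‖lat w / (R j : ℂ) - z‖ < r →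
    G j v - G j w = (((R j) ^ (-(2 / 3) : ℝ) : ℝ) : ℂ) * (f (v - t j) - f (w - t j))

/-- **Hoelder bound** of the mixtures -/
theorem mix_hold (hJ : JCl H A B YP YQ Cl) (hP : Pos R U m t s t0) (hr : 0 < r)
    (hz : Metric.ball ((z - t0) / s) (16 * r / s) ⊆ OmR H A B) (hG : MixG R U m t Cl z r G) :
    ∃ C > 0, ∀ᶠ j in (U : Filter ℕ), ∀ v w : ℤ × ℤ, ‖lat v / (R j : ℂ) - z‖ < r →
      ‖lat w / (R j : ℂ) - z‖ < r → ‖G j v - G j w‖ ≤ C * (‖lat v - lat w‖ / R j) ^ (2 / 3 : ℝ) := by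
  obtain ⟨C, hC, R0, hR0, hh⟩ := hold_co
  have hRU : Tendsto R (U : Filter ℕ) atTop := hP.top.mono_left hP.le
  have hs := hP.s0
  have hm : Tendsto (fun j : ℕ => ((2 * m j : ℕ) : ℝ)) (U : Filter ℕ) atTop :=
    (tendsto_natCast_atTop_atTop.comp (tendsto_atTop_mono (fun j => by omega) hP.mt)).mono_left hP.le
  refine ⟨C, hC, ?_⟩
  filter_upwards [hG, hP.near hr (z := z), hRU.eventually_gt_atTop 0,
    hm.eventually_ge_atTop (R0 / (2 * (2 * r / s)))] with j ⟨f, hf, hfG⟩ h2 h3 h4 v w hv hw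
  have h5 : R0 ≤ 2 * (2 * r / s) * ((2 * m j : ℕ) : ℝ) := by
    rw [div_le_iff₀ (by positivity)] at h4
    linarith
  have e : lat (v - t j) - lat (w - t j) = lat v - lat w := by
    rw [lat_sub', lat_sub']; ring
  have key : ∀ (D : Win) (O : OutB D), Cl (m j) D O →
      ‖HF O (v - t j) - HF O (w - t j)‖ ≤ C * ‖lat v - lat w‖ ^ (2 / 3 : ℝ) := by
    intro D O hO
    obtain ⟨CL, CR, hCo⟩ := hJ.co _ _ _ hO
    have := hh D O (2 * m j) H A B hCo.toCoarse ((z - t0) / s) (2 * r / s) (by positivity)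
      (by rw [show 8 * (2 * r / s) = 16 * r / s by ring]; exact hz) h5 (v - t j) (w - t j) (h2 v hv) (h2 w hw)
    rwa [e] at this
  have h6 := inc_mix hf (by positivity) key
  rw [hfG v w hv hw, norm_mul, Complex.norm_real, Real.norm_eq_abs,
    abs_of_pos (Real.rpow_pos_of_pos h3 _)]
  have h7 : (‖lat v - lat w‖ / R j) ^ (2 / 3 : ℝ) = R j ^ (-(2 / 3) : ℝ) * ‖lat v - lat w‖ ^ (2 / 3 : ℝ) := by
    rw [Real.div_rpow (norm_nonneg _) h3.le, Real.rpow_neg h3.le]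
    ring
  rw [h7]
  calc R j ^ (-(2 / 3) : ℝ) * ‖f (v - t j) - f (w - t j)‖ ≤
        R j ^ (-(2 / 3) : ℝ) * (C * ‖lat v - lat w‖ ^ (2 / 3 : ℝ)) :=
        mul_le_mul_of_nonneg_left h6 (Real.rpow_nonneg h3.le _)
    _ = C * (R j ^ (-(2 / 3) : ℝ) * ‖lat v - lat w‖ ^ (2 / 3 : ℝ)) := by ring

/-- lattice points of a rectangle of the ball -/
lemma rect_near (hRU : Tendsto R (U : Filter ℕ) atTop) {a b c d : ℝ} (hab : a < b) (hcd : c < d)
    (hsub : Set.Icc a b ×ℂ Set.Icc c d ⊆ Metric.ball z r) :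
    ∀ᶠ j in (U : Filter ℕ), ∀ u : ℤ × ℤ, ((fl R (a + c * Complex.I) j).1 ≤ u.1 ∧
      u.1 ≤ (fl R (a + c * Complex.I) j).1 + (⌊(b - a) * R j⌋₊ : ℤ)) →
      ((fl R (a + c * Complex.I) j).2 ≤ u.2 ∧ u.2 ≤ (fl R (a + c * Complex.I) j).2 + (⌊(d - c) * R j⌋₊ : ℤ)) →
      ‖lat u / (R j : ℂ) - z‖ < r := by
  have hQc : IsCompact (Set.Icc a b ×ℂ Set.Icc c d) := isCompact_Icc.reProdIm isCompact_Icc
  obtain ⟨δ, hδ, hth⟩ := hQc.exists_cthickening_subset_open Metric.isOpen_ball hsub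
  filter_upwards [hRU.eventually_gt_atTop 0, hRU.eventually_ge_atTop (2 / δ)] with j h1 h2 u hu hv
  have h3 : 2 / R j ≤ δ := by
    rw [div_le_iff₀ h1]
    rw [div_le_iff₀ hδ] at h2
    linarith
  have er : ((a : ℂ) + c * Complex.I).re = a := by simp
  have ei : ((a : ℂ) + c * Complex.I).im = c := by simp
  have f1 : (fl R (a + c * Complex.I) j).1 = ⌊R j * a⌋ := by unfold fl; rw [er]
  have f2 : (fl R (a + c * Complex.I) j).2 = ⌊R j * c⌋ := by unfold fl; rw [ei]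
  rw [f1] at hu
  rw [f2] at hv
  -- one coordinate
  have key : ∀ (a b : ℝ) (u : ℤ), a < b → ⌊R j * a⌋ ≤ u → u ≤ ⌊R j * a⌋ + (⌊(b - a) * R j⌋₊ : ℤ) →
      ∃ x ∈ Set.Icc a b, |(u : ℝ) / R j - x| ≤ 1 / R j := by
    intro a b u hab g1 g2
    have k1 := Int.floor_le (R j * a)
    have k2 := Int.lt_floor_add_one (R j * a)
    have k3 : ((⌊(b - a) * R j⌋₊ : ℤ) : ℝ) ≤ (b - a) * R j := by
      rw [Int.cast_natCast]
      exact Nat.floor_le (by have : 0 < b - a := by linarith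
                             positivity)
    have k4 : ((⌊R j * a⌋ : ℤ) : ℝ) ≤ u := by exact_mod_cast g1
    have k5 : (u : ℝ) ≤ ⌊R j * a⌋ + ((⌊(b - a) * R j⌋₊ : ℤ) : ℝ) := by exact_mod_cast g2
    refine ⟨max a ((u : ℝ) / R j), ⟨le_max_left _ _, max_le hab.le ?_⟩, ?_⟩
    · rw [div_le_iff₀ h1]
      nlinarith
    · rcases le_total a ((u : ℝ) / R j) with h | h
      · rw [max_eq_right h, sub_self, abs_zero]
        positivity
      · rw [max_eq_left h, abs_sub_comm, abs_of_nonneg (by linarith)]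
        rw [sub_le_iff_le_add, ← add_div, le_div_iff₀ h1]
        nlinarith
  obtain ⟨x, hx, hx'⟩ := key a b u.1 hab hu.1 hu.2
  obtain ⟨y, hy, hy'⟩ := key c d u.2 hcd hv.1 hv.2
  have hmem : lat u / (R j : ℂ) ∈ Metric.ball z r := by
    apply hth
    refine Metric.mem_cthickening_of_dist_le _ ((x : ℂ) + y * Complex.I) _ _
      (Q1.M6f.Glue.mem_rect hx hy) (le_trans ?_ h3)
    rw [dist_eq_norm]
    refine (Complex.norm_le_abs_re_add_abs_im _).trans ?_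
    have q1 : (lat u / (R j : ℂ) - ((x : ℂ) + y * Complex.I)).re = (u.1 : ℝ) / R j - x := by
      rw [Complex.sub_re, Complex.div_ofReal_re]; simp [lat]
    have q2 : (lat u / (R j : ℂ) - ((x : ℂ) + y * Complex.I)).im = (u.2 : ℝ) / R j - y := by
      rw [Complex.sub_im, Complex.div_ofReal_im]; simp [lat]
    rw [q1, q2]
    calc |(u.1 : ℝ) / R j - x| + |(u.2 : ℝ) / R j - y| ≤ 1 / R j + 1 / R j := add_le_add hx' hy'
      _ = 2 / R j := by ring
  rwa [Metric.mem_ball, dist_eq_norm] at hmem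

/-- **Translation invariance** of the limits of the mixtures -/
theorem mix_ti (hJ : JCl H A B YP YQ Cl) (hP : Pos R U m t s t0) (hr : 0 < r)
    (hz : Metric.ball ((z - t0) / s) (16 * r / s) ⊆ OmR H A B) (hG : MixG R U m t Cl z r G)
    {g : ℂ → ℂ} (hg : GLim R U G z r g) (hcont : ContinuousOn g (Metric.ball z r)) :
    TI (Metric.ball z r) g := by
  have hRU : Tendsto R (U : Filter ℕ) atTop := hP.top.mono_left hP.le
  have hs := hP.s0
  have hm : Tendsto (fun j : ℕ => ((2 * m j : ℕ) : ℝ)) (U : Filter ℕ) atTop :=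
    (tendsto_natCast_atTop_atTop.comp (tendsto_atTop_mono (fun j => by omega) hP.mt)).mono_left hP.le
  intro a b c d x y hab hcd h1 h2
  set a' := a + x with ha'
  set b' := b + x with hb'
  set c' := c + y with hc'
  set d' := d + y with hd'
  have hab' : a' < b' := by rw [ha', hb']; linarith
  have hcd' : c' < d' := by rw [hc', hd']; linarith
  have hba : 0 < b - a := by linarith
  have hdc : 0 < d - c := by linarith
  have eba : b' - a' = b - a := by rw [ha', hb']; ring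
  have edc : d' - c' = d - c := by rw [hc', hd']; ring
  set p : ℕ → ℤ × ℤ := fun j => fl R (a + c * Complex.I) j with hp
  set q : ℕ → ℤ × ℤ := fun j => fl R (a' + c' * Complex.I) j with hq
  set L : ℕ → ℕ := fun j => ⌊(b - a) * R j⌋₊ with hL
  set M : ℕ → ℕ := fun j => ⌊(d - c) * R j⌋₊ with hM
  have tp : Tendsto (fun j => lat (p j) / (R j : ℂ)) U (𝓝 (a + c * Complex.I)) :=
    (fl_tendsto hP.top _).mono_left hP.le
  have tq : Tendsto (fun j => lat (q j) / (R j : ℂ)) U (𝓝 (a' + c' * Complex.I)) :=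
    (fl_tendsto hP.top _).mono_left hP.le
  have tL : Tendsto (fun j => (L j : ℝ) / R j) U (𝓝 (b - a)) := nat_floor_tendsto hRU hba.le
  have tM : Tendsto (fun j => (M j : ℝ) / R j) U (𝓝 (d - c)) := nat_floor_tendsto hRU hdc.le
  set f' : ℕ → ℤ × ℤ → ℂ := fun j v => G j v - G j (fl R z j) with hf'
  have hlim : ILim R U f' (Metric.ball z r) g := hg
  have t1 := DJ_tendsto hRU hlim hcont Metric.isOpen_ball hab hcd h1 tp tL tM
  have t2 := DJ_tendsto hRU hlim hcont Metric.isOpen_ball hab' hcd' h2 tq (by rw [eba]; exact tL)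
    (by rw [edc]; exact tM)
  have t3 := (t1.sub t2).norm
  rw [← sub_eq_zero, ← norm_eq_zero]
  refine le_antisymm (le_of_forall_pos_le_add fun ε hε => ?_) (norm_nonneg _)
  rw [zero_add]
  -- the choice of `η` and `ε'`
  set η : ℝ := min (2 * r / s) (min ((b - a) / (2 * s)) ((d - c) / (2 * s))) with hη
  have hη0 : 0 < η := by positivity
  set ε' : ℝ := ε / (2 * s) ^ (5 / 3 : ℝ) with hε'
  have hε'0 : 0 < ε' := by positivity
  obtain ⟨m0, hm0⟩ := dj_unif hJ hη0 hε'0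
  -- the ratio
  have hq1 : ∀ᶠ j in (U : Filter ℕ), ((2 * m j : ℕ) : ℝ) / R j < 2 * s :=
    hP.sc.eventually_lt_const (by linarith)
  have tend2 : ∀ (l : ℕ → ℕ) (e : ℝ), 0 < e → Tendsto (fun j => (l j : ℝ) / R j) U (𝓝 e) →
      ∀ᶠ j in (U : Filter ℕ), e / (2 * s) * ((2 * m j : ℕ) : ℝ) ≤ l j := by
    intro l e he hl
    have h3 : Tendsto (fun j => (l j : ℝ) / R j / (((2 * m j : ℕ) : ℝ) / R j)) U (𝓝 (e / s)) :=
      hl.div hP.sc hs.ne'
    have h4 : e / (2 * s) < e / s := by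
      rw [div_lt_div_iff_of_pos_left he (by positivity) hs]
      linarith
    filter_upwards [h3.eventually_const_lt h4, hRU.eventually_gt_atTop 0, hm.eventually_gt_atTop 0] with
      j k1 k2 k3
    rw [div_div_div_cancel_right₀ k2.ne', lt_div_iff₀ k3] at k1
    exact k1.le
  have hLe := tend2 L (b - a) hba tL
  have hMe := tend2 M (d - c) hdc tM
  -- the positions in the room
  have mem1 : (a : ℂ) + c * Complex.I ∈ Metric.ball z r :=
    h1 (Q1.M6f.Glue.mem_rect ⟨le_rfl, hab.le⟩ ⟨le_rfl, hcd.le⟩)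
  have mem2 : (b : ℂ) + d * Complex.I ∈ Metric.ball z r :=
    h1 (Q1.M6f.Glue.mem_rect ⟨hab.le, le_rfl⟩ ⟨hcd.le, le_rfl⟩)
  have mem3 : (a' : ℂ) + c' * Complex.I ∈ Metric.ball z r :=
    h2 (Q1.M6f.Glue.mem_rect ⟨le_rfl, hab'.le⟩ ⟨le_rfl, hcd'.le⟩)
  have mem4 : (b' : ℂ) + d' * Complex.I ∈ Metric.ball z r :=
    h2 (Q1.M6f.Glue.mem_rect ⟨hab'.le, le_rfl⟩ ⟨hcd'.le, le_rfl⟩)
  have pos : ∀ {v : ℕ → ℤ × ℤ} {ζ : ℂ}, Tendsto (fun j => lat (v j) / (R j : ℂ)) U (𝓝 ζ) →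
      ζ ∈ Metric.ball z r → ∀ᶠ j in (U : Filter ℕ),
        dist (lat (v j - t j) / (((2 * m j : ℕ) : ℝ) : ℂ)) ((z - t0) / s) < 2 * r / s := by
    intro v ζ hv hζ
    have h3 : ∀ᶠ j in (U : Filter ℕ), ‖lat (v j) / (R j : ℂ) - z‖ < r := by
      have := hv.eventually_mem (Metric.isOpen_ball.mem_nhds hζ)
      filter_upwards [this] with j hj
      rwa [Metric.mem_ball, dist_eq_norm] at hj
    filter_upwards [h3, hP.near hr (z := z)] with j h3 h4
    rw [dist_eq_norm]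
    exact h4 _ h3
  have tp' : Tendsto (fun j => lat (p j + ((L j : ℤ), (M j : ℤ))) / (R j : ℂ)) U (𝓝 (b + d * Complex.I)) := by
    have h3 := tp.add (((Complex.continuous_ofReal.tendsto _).comp tL).add
      (((Complex.continuous_ofReal.tendsto _).comp tM).mul_const Complex.I))
    have e : (a : ℂ) + c * Complex.I + (((b - a : ℝ) : ℂ) + ((d - c : ℝ) : ℂ) * Complex.I) =
        b + d * Complex.I := by push_cast; ring
    rw [e] at h3
    refine h3.congr fun j => ?_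
    apply Complex.ext
    · simp [lat, Complex.div_ofReal_re, add_div]
    · simp [lat, Complex.div_ofReal_im, add_div]
  have tq' : Tendsto (fun j => lat (q j + ((L j : ℤ), (M j : ℤ))) / (R j : ℂ)) U (𝓝 (b' + d' * Complex.I)) := by
    have h3 := tq.add (((Complex.continuous_ofReal.tendsto _).comp tL).add
      (((Complex.continuous_ofReal.tendsto _).comp tM).mul_const Complex.I))
    have e : (a' : ℂ) + c' * Complex.I + (((b - a : ℝ) : ℂ) + ((d - c : ℝ) : ℂ) * Complex.I) =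
        b' + d' * Complex.I := by rw [← eba, ← edc]; push_cast; ring
    rw [e] at h3
    refine h3.congr fun j => ?_
    apply Complex.ext
    · simp [lat, Complex.div_ofReal_re, add_div]
    · simp [lat, Complex.div_ofReal_im, add_div]
  have hRL : ∀ u v : ℂ, dist u ((z - t0) / s) < 2 * r / s → dist v ((z - t0) / s) < 2 * r / s →
      RL (OmR H A B) η u v := fun u v hu hv =>
    (RL_near (z := (z - t0) / s) ((Metric.ball_subset_ball (by
      rw [show 4 * (2 * r / s) = 8 * r / s by ring]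
      rw [div_le_div_iff_of_pos_right hs]
      linarith)).trans hz) hu hv).mono (min_le_left _ _)
  refine le_of_tendsto t3 ?_
  filter_upwards [hG, hLe, hMe, pos tp mem1, pos tp' mem2, pos tq mem3, pos tq' mem4, hq1,
    hP.mt.eventually_ge_atTop m0 |>.filter_mono hP.le, hRU.eventually_gt_atTop 0, hm.eventually_gt_atTop 0,
    rect_near hRU hab hcd h1, rect_near hRU hab' hcd' h2] with
    j ⟨f, hf, hfG⟩ k1 k2 k3 k4 k5 k6 k7 k8 k9 k10 k11 k12
  rw [eba, edc] at k12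
  -- the discrete rectangle integrals of `G`
  have hDJ : ∀ b : ℤ × ℤ, (∀ u : ℤ × ℤ, (b.1 ≤ u.1 ∧ u.1 ≤ b.1 + (L j : ℤ)) → (b.2 ≤ u.2 ∧
      u.2 ≤ b.2 + (M j : ℤ)) → ‖lat u / (R j : ℂ) - z‖ < r) →
      DJ (f' j) b (L j) (M j) = (((R j) ^ (-(2 / 3) : ℝ) : ℝ) : ℂ) * DJ f (b - t j) (L j) (M j) := by
    intro b hb
    have e1 : ‖DJ (f' j) b (L j) (M j) -
        DJ (fun v => (((R j) ^ (-(2 / 3) : ℝ) : ℝ) : ℂ) * ((fun v => f (v - t j)) v - 0)) b (L j) (M j)‖ ≤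
        (L j + M j) * 0 := by
      refine DJ_le fun u v h3 h4 h5 h6 => ?_
      have h7 := hfG u v (hb u h3 h4) (hb v h5 h6)
      have : (f' j u - f' j v) - ((((R j) ^ (-(2 / 3) : ℝ) : ℝ) : ℂ) * ((fun v => f (v - t j)) u - 0) -
          (((R j) ^ (-(2 / 3) : ℝ) : ℝ) : ℂ) * ((fun v => f (v - t j)) v - 0)) = 0 := by
        simp only [hf']
        linear_combination h7
      rw [this, norm_zero]
    rw [mul_zero] at e1
    have e2 := sub_eq_zero.1 (norm_le_zero_iff.1 e1)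
    rw [e2, DJ_add_const, DJ_shift]
  rw [hDJ (p j) k11, hDJ (q j) k12, ← mul_sub, ← mul_sub, norm_mul, norm_mul, Complex.norm_real,
    Complex.norm_real, Real.norm_eq_abs, Real.norm_eq_abs, abs_of_pos (by positivity),
    abs_of_pos (Real.rpow_pos_of_pos k9 _)]
  -- the room
  have ep : p j - t j + ((L j : ℤ), (M j : ℤ)) = p j + ((L j : ℤ), (M j : ℤ)) - t j := by abel
  have eq : q j - t j + ((L j : ℤ), (M j : ℤ)) = q j + ((L j : ℤ), (M j : ℤ)) - t j := by abel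
  have hL1 : η * ((2 * m j : ℕ) : ℝ) ≤ L j := le_trans (mul_le_mul_of_nonneg_right
    ((min_le_right _ _).trans (min_le_left _ _)) (Nat.cast_nonneg _)) k1
  have hM1 : η * ((2 * m j : ℕ) : ℝ) ≤ M j := le_trans (mul_le_mul_of_nonneg_right
    ((min_le_right _ _).trans (min_le_right _ _)) (Nat.cast_nonneg _)) k2
  have hfin := dj_mix hf (a := p j - t j) (a' := q j - t j) (L := L j) (M := M j)
    (b := ε' * ((2 * m j : ℕ) : ℝ) ^ (5 / 3 : ℝ)) (by positivity) fun D O hO =>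
      hm0 (m j) k8 D O hO _ _ _ _ hL1 hM1 (by rw [ep]; exact hRL _ _ k3 k4) (by rw [eq]; exact hRL _ _ k5 k6)
  have h6 : 1 / R j * (R j ^ (-(2 / 3) : ℝ) * ‖DJ f (p j - t j) (L j) (M j) - DJ f (q j - t j) (L j) (M j)‖) ≤
      1 / R j * (R j ^ (-(2 / 3) : ℝ) * (ε' * ((2 * m j : ℕ) : ℝ) ^ (5 / 3 : ℝ))) :=
    mul_le_mul_of_nonneg_left (mul_le_mul_of_nonneg_left hfin (Real.rpow_nonneg k9.le _)) (by positivity)
  refine h6.trans ?_
  have h7 : ((2 * m j : ℕ) : ℝ) ^ (5 / 3 : ℝ) ≤ (2 * s) ^ (5 / 3 : ℝ) * R j ^ (5 / 3 : ℝ) := by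
    rw [← Real.mul_rpow (by positivity) k9.le]
    refine Real.rpow_le_rpow (Nat.cast_nonneg _) ?_ (by norm_num)
    rw [div_lt_iff₀ k9] at k7
    exact k7.le
  have h8 : 1 / R j * (R j ^ (-(2 / 3) : ℝ)) * R j ^ (5 / 3 : ℝ) = 1 := by
    have : 1 / R j = R j ^ (-1 : ℝ) := by rw [Real.rpow_neg_one, one_div]
    rw [this, ← Real.rpow_add k9, ← Real.rpow_add k9]
    norm_num
  calc 1 / R j * (R j ^ (-(2 / 3) : ℝ) * (ε' * ((2 * m j : ℕ) : ℝ) ^ (5 / 3 : ℝ))) ≤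
        1 / R j * (R j ^ (-(2 / 3) : ℝ) * (ε' * ((2 * s) ^ (5 / 3 : ℝ) * R j ^ (5 / 3 : ℝ)))) :=
        mul_le_mul_of_nonneg_left (mul_le_mul_of_nonneg_left (mul_le_mul_of_nonneg_left h7 hε'0.le)
          (Real.rpow_nonneg k9.le _)) (by positivity)
    _ = ε' * (2 * s) ^ (5 / 3 : ℝ) * (1 / R j * (R j ^ (-(2 / 3) : ℝ)) * R j ^ (5 / 3 : ℝ)) := by ring
    _ = ε := by
        rw [h8, mul_one, hε']
        field_simp

end pos

end Pool.Agent.H59.J
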