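import Mathlib
import Pool.Agent.H59.J.JTop
import Pool.Agent.H66.W.Top
import Pool.Agent.Q1.M4.Limit3

set_option autoImplicit false
open Filter Topology

/-! # The property `LocTI` for mixtures of the potentials of a class of windows -/

namespace Pool.Agent.H59.J

open Pool.Agent.Q1.M4 (lat GLim continuousOn_of_hold)
open Pool.Agent.H46.Sp (Win)
open Pool.Agent.H74.Win (OutB)

variable {H : ℤ} {A B : ℤ → ℤ} {YP YQ : ℤ} {Cl : ℕ → ∀ D : Win, OutB D → Prop}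
  {R : ℕ → ℝ} {U : Ultrafilter ℕ} {m : ℕ → ℕ} {t : ℕ → ℤ × ℤ} {s : ℝ} {t0 z : ℂ} {r : ℝ}
  {G : ℕ → ℤ × ℤ → ℂ}

/-- **`LocTI` for mixtures.** -/
theorem locTI_mix (hJ : JCl H A B YP YQ Cl) (hP : Pos R U m t s t0) (hr : 0 < r)
    (hz : Metric.ball ((z - t0) / s) (16 * r / s) ⊆ OmR H A B) (hG : MixG R U m t Cl z r G) :
    Pool.Agent.H66.W.LocTI R U G z r := by
  have hold := mix_hold hJ hP hr hz hG
  refine ⟨hold, fun g hg => mix_ti hJ hP hr hz hG hg ?_⟩
  obtain ⟨C, hC, hh⟩ := hold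
  exact continuousOn_of_hold (C := C) one_pos fun z hz z' hz' _ => hg.hold hP.top hP.le hh hz hz'

end Pool.Agent.H59.J
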