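import Mathlib
import Pool.Agent.H33.Sp.SameFar
import Pool.Agent.H13.Sp.RingA

set_option autoImplicit false
open Finset

/-! # The same arcs give the same increments

`JJ E V x c` : the vertices of the corners `x`, `c` are joined by open labels of `V`, their faces by closed labels
outside of `E`. `same_arcs` : if every exit of `E` is joined to the same entrance in both sets of labels, and the
roots enter `E` at the same corner, then the increments of the environments are equal up to a unit.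

`Rot` : rotation about a grid point. `exit_cases`, `entr_cases` : every exit (entrance) of a region with coloured
sides is short (joined, round one grid point, to an entrance (exit)) or lies at a convex corner at which the colour
of the sides changes. -/

namespace Pool.Agent.H59.J

open Pool.Agent.H75.Perc hiding ph cc EE
open Pool.Agent.H75.TwoArm Pool.Agent.Q1 Pool.Agent.H33.Q1
open Pool.Agent.H69.Q1
open Pool.Agent.H74.R45 hiding plab_nx
open Pool.Agent.H33.R45 (rco rdco vx_he_S vx_he_N vx_ve_E vx_ve_W)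
open Pool.Agent.H13.R45 (gp)
open Pool.Agent.Q1.Env (TConn TAdj ArcN SamePat)
open Pool.Agent.Q1.M6c (PlaneEnv entrance_unique)
open Pool.Agent.H33.FM (stdEnv stdEnv_inc plane_start plane_arc)
open Pool.Agent.H33.Sp
open Pool.Agent.H13.Sp.SR (Cn crect pt cn_true cn_false)
open Pool.Agent.H13.Sp (pt_cases)

variable {E V W W' : Finset (ℤ × ℤ)} {x c d : ℤ × ℤ}

/-- the corners are joined outside of `E` -/
def JJ (E V : Finset (ℤ × ℤ)) (x c : ℤ × ℤ) : Prop :=
  Co V (vx x) (vx c) ∧ DCo (E ∪ V) (fi x) (fi c)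

lemma JJ.refl (E V : Finset (ℤ × ℤ)) (x : ℤ × ℤ) : JJ E V x x := ⟨Co.refl _ _, DCo.refl _ _⟩
lemma JJ.symm (h : JJ E V x c) : JJ E V c x := ⟨h.1.symm, h.2.symm⟩
lemma JJ.trans (h : JJ E V x c) (h' : JJ E V c d) : JJ E V x d := ⟨h.1.trans h'.1, h.2.trans h'.2⟩

/-- an exit of `E` -/
def IsEx (E : Finset (ℤ × ℤ)) (x : ℤ × ℤ) : Prop := plab x ∈ E ∧ lab x ∉ E
/-- an entrance of `E` -/
def IsEn (E : Finset (ℤ × ℤ)) (c : ℤ × ℤ) : Prop := lab c ∈ E ∧ plab c ∉ E

/-- two entrances which are joined are equal -/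
lemma en_unique (hodd : ∀ e ∈ E, (e.1 + e.2) % 2 = 1) (hconn : TConn E) (hd : Disjoint W E)
    (hc : IsEn E c) (hd' : IsEn E d) (h : JJ E W c d) : c = d :=
  entrance_unique hconn hodd hd hc.1 hc.2 hd'.1 hd'.2 h.1 (by rw [union_comm]; exact h.2)

/-- **The same arcs give the same increments**, up to a unit. -/
theorem same_arcs (hconn : TConn E)
    (hA : ∀ x, IsEx E x → ∃ c, IsEn E c ∧ JJ E W x c ∧ JJ E W' x c)
    {X Y : Env} (pX : PlaneEnv X W) (pY : PlaneEnv Y W') (eX : X.E = E) (eY : Y.E = E)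
    {c1 : ℤ × ℤ} (h1 : IsEn E c1) (u : JJ E W X.c0 c1) (v : JJ E W' Y.c0 c1) :
    ∃ κ : ℤ, ∀ c, (lab c ∈ E ∨ plab c ∈ E) → Y.inc c = ph κ * X.inc c := by
  subst eX
  have hodd := X.odd
  have hdW : Disjoint W X.E := pX.disj.symm
  have hdW' : Disjoint W' X.E := by rw [← eY]; exact pY.disj.symm
  have r1 : plab X.c0 ∉ X.E := Env.plab_root
  have r2 : plab Y.c0 ∉ X.E := by rw [← eY]; exact Env.plab_root
  have s1 : Arc X.E W X.c0 c1 := arc_of hodd hconn hdW (fun _ => r1) h1.1 h1.2 u.1 u.2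
  have s2 : Arc X.E W' Y.c0 c1 := arc_of hodd hconn hdW' (fun _ => r2) h1.1 h1.2 v.1 v.2
  have hst : ∀ c, Arc X.E W X.c0 c ↔ Arc X.E W' Y.c0 c := fun c =>
    ⟨fun h => by rw [h.unique s1]; exact s2, fun h => by rw [h.unique s2]; exact s1⟩
  have hex : ∀ x c, plab x ∈ X.E → (Arc X.E W x c ↔ Arc X.E W' x c) := by
    intro x c hx
    by_cases hl : lab x ∈ X.E
    · have key : ∀ A, Arc X.E A x x := fun A => ⟨0, fun i hi => absurd hi (by omega), rfl, hl⟩
      exact ⟨fun h => by rw [h.unique (key W)]; exact key W',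
        fun h => by rw [h.unique (key W')]; exact key W⟩
    · obtain ⟨d, hd, k1, k2⟩ := hA x ⟨hx, hl⟩
      have a1 : Arc X.E W x d := arc_of hodd hconn hdW (fun h => absurd h hl) hd.1 hd.2 k1.1 k1.2
      have a2 : Arc X.E W' x d := arc_of hodd hconn hdW' (fun h => absurd h hl) hd.1 hd.2 k2.1 k2.2
      exact ⟨fun h => by rw [h.unique a1]; exact a2, fun h => by rw [h.unique a2]; exact a1⟩
  have hconn' : TConn (stdEnv X W pX).E := hconn
  have hp : SamePat (stdEnv X W pX) (stdEnv Y W' pY) := by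
    refine ⟨?_, ?_, ?_⟩
    · change Y.E = X.E
      exact eY
    · intro x c hx
      have hx' : plab x ∈ X.E := hx
      have h1 : (stdEnv X W pX).Arc x c ↔ Arc X.E W x c ∧ ¬ Arc X.E W X.c0 c := plane_arc hx'
      have h2 : (stdEnv Y W' pY).Arc x c ↔ Arc Y.E W' x c ∧ ¬ Arc Y.E W' Y.c0 c :=
        plane_arc (by rw [eY]; exact hx')
      rw [h1, h2, eY, hst c, hex x c hx']
    · intro c
      have h1 : (stdEnv X W pX).Start c ↔ Arc X.E W X.c0 c := plane_start
      have h2 : (stdEnv Y W' pY).Start c ↔ Arc Y.E W' Y.c0 c := plane_start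
      rw [h1, h2, eY]
      exact hst c
  obtain ⟨κ, hκ⟩ := hp.exists_inc hconn'
  refine ⟨κ, fun c hc => ?_⟩
  have := hκ c hc
  rw [stdEnv_inc, stdEnv_inc] at this
  exact this

/-! ### Rotation about a grid point -/

/-- the tiles round the grid point `q`, counterclockwise -/
def tl (q : ℤ × ℤ) (i : ℤ) : ℤ × ℤ :=
  if i % 4 = 0 then (q.1 - 1, q.2 - 1) else if i % 4 = 1 then (q.1, q.2 - 1)
  else if i % 4 = 2 then (q.1, q.2) else (q.1 - 1, q.2)

/-- the neighbours of `q`: `nb q i` lies between the tiles `i` and `i + 1` -/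
def nb (q : ℤ × ℤ) (i : ℤ) : ℤ × ℤ :=
  if i % 4 = 0 then (q.1, q.2 - 1) else if i % 4 = 1 then (q.1 + 1, q.2)
  else if i % 4 = 2 then (q.1, q.2 + 1) else (q.1 - 1, q.2)

/-- the corner between the tiles `i` and `i + 1` -/
def sd (q : ℤ × ℤ) (i : ℤ) : ℤ × ℤ :=
  if i % 4 = 0 then ve (q.1, q.2 - 1) else if i % 4 = 1 then he (q.1, q.2)
  else if i % 4 = 2 then ve (q.1, q.2) else he (q.1 - 1, q.2)

lemma four (i : ℤ) : (i % 4 = 0 ∧ (i + 1) % 4 = 1 ∧ (i - 1) % 4 = 3) ∨
    (i % 4 = 1 ∧ (i + 1) % 4 = 2 ∧ (i - 1) % 4 = 0) ∨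
    (i % 4 = 2 ∧ (i + 1) % 4 = 3 ∧ (i - 1) % 4 = 1) ∨ (i % 4 = 3 ∧ (i + 1) % 4 = 0 ∧ (i - 1) % 4 = 2) := by
  omega

lemma tl_add4 (q : ℤ × ℤ) (i : ℤ) : tl q (i + 4) = tl q i := by
  unfold tl
  rw [Int.add_emod_right]

/-- at a vertex -/
lemma sd_even {q : ℤ × ℤ} (hq : (q.1 + q.2) % 2 = 0) (i : ℤ) : plab (sd q i) = lt (tl q i) ∧
    lab (sd q i) = lt (tl q (i + 1)) ∧ vx (sd q i) = gp q ∧ fi (sd q i) = gp (nb q i) := by
  rcases four i with ⟨h, h1, -⟩ | ⟨h, h1, -⟩ | ⟨h, h1, -⟩ | ⟨h, h1, -⟩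
  · have e : (q.1 + (q.2 - 1)) % 2 = 1 := by omega
    unfold sd tl nb
    simp only [h, h1, if_true, if_false, one_ne_zero]
    rw [plab_ve_E e, lab_ve_E e, (vx_ve_E e).1, (vx_ve_E e).2]
    simp
  · have e : (q.1 + q.2) % 2 = 0 := hq
    unfold sd tl nb
    simp only [h, h1, if_true, if_false, one_ne_zero, OfNat.ofNat_ne_zero, OfNat.ofNat_ne_one]
    rw [plab_he_N e, lab_he_N e, (vx_he_N e).1, (vx_he_N e).2]
    simp
  · have e : (q.1 + q.2) % 2 = 0 := hq
    unfold sd tl nb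
    simp only [h, h1, if_true, if_false, OfNat.ofNat_ne_zero, OfNat.ofNat_ne_one,
      OfNat.ofNat_eq_ofNat, Nat.reduceEqDiff]
    rw [plab_ve_W e, lab_ve_W e, (vx_ve_W e).1, (vx_ve_W e).2]
    simp
  · have e : (q.1 - 1 + q.2) % 2 = 1 := by omega
    unfold sd tl nb
    simp only [h, h1, if_true, if_false, OfNat.ofNat_ne_zero, OfNat.ofNat_ne_one,
      OfNat.ofNat_eq_ofNat, Nat.reduceEqDiff]
    rw [plab_he_S e, lab_he_S e, (vx_he_S e).1, (vx_he_S e).2]
    simp

/-- at a face -/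
lemma sd_odd {q : ℤ × ℤ} (hq : (q.1 + q.2) % 2 = 1) (i : ℤ) : plab (sd q i) = lt (tl q (i + 1)) ∧
    lab (sd q i) = lt (tl q i) ∧ fi (sd q i) = gp q ∧ vx (sd q i) = gp (nb q i) := by
  rcases four i with ⟨h, h1, -⟩ | ⟨h, h1, -⟩ | ⟨h, h1, -⟩ | ⟨h, h1, -⟩
  · have e : (q.1 + (q.2 - 1)) % 2 = 0 := by omega
    unfold sd tl nb
    simp only [h, h1, if_true, if_false, one_ne_zero]
    rw [plab_ve_W e, lab_ve_W e, (vx_ve_W e).1, (vx_ve_W e).2]
    simp
  · have e : (q.1 + q.2) % 2 = 1 := hq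
    unfold sd tl nb
    simp only [h, h1, if_true, if_false, one_ne_zero, OfNat.ofNat_ne_zero, OfNat.ofNat_ne_one]
    rw [plab_he_S e, lab_he_S e, (vx_he_S e).1, (vx_he_S e).2]
    simp
  · have e : (q.1 + q.2) % 2 = 1 := hq
    unfold sd tl nb
    simp only [h, h1, if_true, if_false, OfNat.ofNat_ne_zero, OfNat.ofNat_ne_one,
      OfNat.ofNat_eq_ofNat, Nat.reduceEqDiff]
    rw [plab_ve_E e, lab_ve_E e, (vx_ve_E e).1, (vx_ve_E e).2]
    simp
  · have e : (q.1 - 1 + q.2) % 2 = 0 := by omega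
    unfold sd tl nb
    simp only [h, h1, if_true, if_false, OfNat.ofNat_ne_zero, OfNat.ofNat_ne_one,
      OfNat.ofNat_eq_ofNat, Nat.reduceEqDiff]
    rw [plab_he_N e, lab_he_N e, (vx_he_N e).1, (vx_he_N e).2]
    simp

/-- joined across a tile -/
lemma nb_join {o : Bool} {A : Finset (ℤ × ℤ)} {q : ℤ × ℤ} (hq : (q.1 + q.2) % 2 = pt (!o)) (i : ℤ)
    (h : lt (tl q i) ∈ A ↔ o = true) : Cn o A (nb q (i - 1)) (nb q i) := by
  have hp : (q.1 + q.2 + 1) % 2 = pt o := by
    cases o <;> simp [pt] at hq ⊢ <;> omega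
  rcases four i with ⟨h1, -, h2⟩ | ⟨h1, -, h2⟩ | ⟨h1, -, h2⟩ | ⟨h1, -, h2⟩ <;>
    unfold nb tl at * <;>
    simp only [h1, h2, if_true, if_false, one_ne_zero, OfNat.ofNat_ne_zero, OfNat.ofNat_ne_one,
      OfNat.ofNat_eq_ofNat, Nat.reduceEqDiff] at h ⊢
  · refine crect (q.1 - 1) (q.1 - 1 + 1) (q.2 - 1) (q.2 - 1 + 1) (by omega) (by omega)
      (fun x y d1 d2 d3 d4 => ?_) (by omega) (by omega)
    obtain rfl : x = q.1 - 1 := by omega
    obtain rfl : y = q.2 - 1 := by omega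
    exact h
  · refine crect q.1 (q.1 + 1) (q.2 - 1) (q.2 - 1 + 1) (by omega) (by omega)
      (fun x y d1 d2 d3 d4 => ?_) (by omega) (by omega)
    obtain rfl : x = q.1 := by omega
    obtain rfl : y = q.2 - 1 := by omega
    exact h
  · refine crect q.1 (q.1 + 1) q.2 (q.2 + 1) (by omega) (by omega)
      (fun x y d1 d2 d3 d4 => ?_) (by omega) (by omega)
    obtain rfl : x = q.1 := by omega
    obtain rfl : y = q.2 := by omega
    exact h
  · refine crect (q.1 - 1) (q.1 - 1 + 1) q.2 (q.2 + 1) (by omega) (by omega)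
      (fun x y d1 d2 d3 d4 => ?_) (by omega) (by omega)
    obtain rfl : x = q.1 - 1 := by omega
    obtain rfl : y = q.2 := by omega
    exact h

/-- tiles round `q` in the direction of the strands: `o = false`: `q` is a vertex, counterclockwise; `o = true`:
`q` is a face, clockwise -/
def T (o : Bool) (q : ℤ × ℤ) (j : ℤ) : ℤ × ℤ := if o = true then tl q (1 - j) else tl q j

/-- the corner between the tiles `T j` and `T (j + 1)` -/
def S (o : Bool) (q : ℤ × ℤ) (j : ℤ) : ℤ × ℤ := if o = true then sd q (-j) else sd q j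

/-- the grid point between the tiles `T j` and `T (j + 1)` -/
def N (o : Bool) (q : ℤ × ℤ) (j : ℤ) : ℤ × ℤ := if o = true then nb q (-j) else nb q j

lemma T_add4 (o : Bool) (q : ℤ × ℤ) (j : ℤ) : T o q (j + 4) = T o q j := by
  unfold T
  split_ifs
  · rw [← tl_add4 q (1 - (j + 4))]
    congr 1; ring
  · exact tl_add4 q j

variable {o : Bool} {q : ℤ × ℤ} {j : ℤ}

lemma S_spec (hq : (q.1 + q.2) % 2 = pt (!o)) (j : ℤ) :
    plab (S o q j) = lt (T o q j) ∧ lab (S o q j) = lt (T o q (j + 1)) := by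
  unfold S T
  cases o
  · simp only [Bool.false_eq_true, if_false]
    obtain ⟨h1, h2, -⟩ := sd_even (q := q) (by simpa [pt] using hq) j
    exact ⟨h1, h2⟩
  · simp only [if_true]
    obtain ⟨h1, h2, -⟩ := sd_odd (q := q) (by simpa [pt] using hq) (-j)
    refine ⟨by rw [h1]; congr 2; omega, by rw [h2]; congr 2; omega⟩

/-- the grid points of a corner: `q` has the parity of `!o`, `N j` the parity of `o` -/
lemma S_pts (hq : (q.1 + q.2) % 2 = pt (!o)) (j : ℤ) :
    if o = true then fi (S o q j) = gp q ∧ vx (S o q j) = gp (N o q j)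
    else vx (S o q j) = gp q ∧ fi (S o q j) = gp (N o q j) := by
  unfold S N
  cases o
  · simp only [Bool.false_eq_true, if_false]
    obtain ⟨-, -, h1, h2⟩ := sd_even (q := q) (by simpa [pt] using hq) j
    exact ⟨h1, h2⟩
  · simp only [if_true]
    obtain ⟨-, -, h1, h2⟩ := sd_odd (q := q) (by simpa [pt] using hq) (-j)
    exact ⟨h1, h2⟩

/-- the points `N j`, `N (j + 1)` are joined across the tile `T (j + 1)` -/
lemma N_join {A : Finset (ℤ × ℤ)} (hq : (q.1 + q.2) % 2 = pt (!o)) (j : ℤ)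
    (h : lt (T o q (j + 1)) ∈ A ↔ o = true) : Cn o A (N o q j) (N o q (j + 1)) := by
  cases o
  · have e : T false q (j + 1) = tl q (j + 1) := by simp [T]
    rw [e] at h
    have := nb_join hq (j + 1) h
    rw [add_sub_cancel_right] at this
    simpa [N] using this
  · have e : T true q (j + 1) = tl q (-j) := by simp [T]
    rw [e] at h
    have := (nb_join hq (-j) h).symm
    have e2 : -(j + 1) = -j - 1 := by ring
    simpa [N, e2] using this

/-- **One step of the rotation** -/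
lemma rot_step (hq : (q.1 + q.2) % 2 = pt (!o)) (j : ℤ) (hE : lt (T o q (j + 1)) ∉ E)
    (hV : lt (T o q (j + 1)) ∈ V ↔ o = true) : JJ E V (S o q j) (S o q (j + 1)) := by
  have p1 := S_pts hq j
  have p2 := S_pts hq (j + 1)
  cases o
  · simp only [Bool.false_eq_true, if_false] at p1 p2
    have h : lt (T false q (j + 1)) ∈ E ∪ V ↔ false = true := by
      rw [mem_union, hV]
      simp [hE]
    have := cn_false.1 (N_join (A := E ∪ V) hq j h)
    unfold JJ
    rw [p1.1, p1.2, p2.1, p2.2]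
    exact ⟨Co.refl _ _, this⟩
  · simp only [if_true] at p1 p2
    have := cn_true.1 (N_join (A := V) hq j hV)
    unfold JJ
    rw [p1.1, p1.2, p2.1, p2.2]
    exact ⟨this, DCo.refl _ _⟩

/-- every corner is a corner round a vertex and round a face -/
lemma exists_rot (o : Bool) (x : ℤ × ℤ) : ∃ q j, (q.1 + q.2) % 2 = pt (!o) ∧ x = S o q j := by
  have key : ∀ q i, x = sd q i → ∃ j, x = S o q j := by
    intro q i h
    cases o
    · exact ⟨i, by simpa [S] using h⟩
    · exact ⟨-i, by simpa [S] using h⟩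
  have hpt := pt_cases (!o)
  rcases Int.emod_two_eq_zero_or_one (x.1 + x.2) with h | h
  · -- horizontal
    obtain ⟨a, b, rfl⟩ : ∃ a b, x = he (a, b) := by
      refine ⟨(x.1 + x.2 - 2) / 2, (x.2 - x.1) / 2, ?_⟩
      unfold he
      refine Prod.ext ?_ ?_ <;> simp only <;> omega
    by_cases hp : (a + b) % 2 = pt (!o)
    · obtain ⟨j, hj⟩ := key (a, b) 1 (by simp [sd])
      exact ⟨_, j, hp, hj⟩
    · obtain ⟨j, hj⟩ := key (a + 1, b) 3 (by simp [sd])
      exact ⟨(a + 1, b), j, by simp only; omega, hj⟩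
  · obtain ⟨a, b, rfl⟩ : ∃ a b, x = ve (a, b) := by
      refine ⟨(x.1 + x.2 - 1) / 2, (x.2 - 1 - x.1) / 2, ?_⟩
      unfold ve
      refine Prod.ext ?_ ?_ <;> simp only <;> omega
    by_cases hp : (a + b) % 2 = pt (!o)
    · obtain ⟨j, hj⟩ := key (a, b) 2 (by simp [sd])
      exact ⟨_, j, hp, hj⟩
    · obtain ⟨j, hj⟩ := key (a, b + 1) 0 (by simp [sd])
      exact ⟨(a, b + 1), j, by simp only; omega, hj⟩

/-! ### Regions with coloured sides -/

/-- tiles with a common side -/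
def Sad (t t' : ℤ × ℤ) : Prop := (t.1 = t'.1 ∧ |t.2 - t'.2| = 1) ∨ (t.2 = t'.2 ∧ |t.1 - t'.1| = 1)

/-- a tile outside of `E` which has a side in common with a tile of `E` -/
def Tou (E : Finset (ℤ × ℤ)) (t : ℤ × ℤ) : Prop := lt t ∉ E ∧ ∃ e : ℤ × ℤ, lt e ∈ E ∧ Sad e t

/-- **Convex corner** of `E` at the grid point `q`: the tile `i` belongs to `E`, the others not. -/
def Cvx (E : Finset (ℤ × ℤ)) (q : ℤ × ℤ) (i : ℤ) : Prop :=
  lt (tl q i) ∈ E ∧ lt (tl q (i + 1)) ∉ E ∧ lt (tl q (i + 2)) ∉ E ∧ lt (tl q (i + 3)) ∉ E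

/-- **`V` has the colours `f` on the outer sides of `E`**, and at a convex corner with sides of one colour the
diagonal tile has this colour. -/
structure Agr (E : Finset (ℤ × ℤ)) (f : ℤ × ℤ → Bool) (V : Finset (ℤ × ℤ)) : Prop where
  sid : ∀ t, Tou E t → (lt t ∈ V ↔ f t = true)
  dia : ∀ q i, Cvx E q i → f (tl q (i + 1)) = f (tl q (i + 3)) →
    (lt (tl q (i + 2)) ∈ V ↔ f (tl q (i + 1)) = true)

/-- **Coloured sides**: the colour does not change along a straight side. -/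
def WallC (E : Finset (ℤ × ℤ)) (f : ℤ × ℤ → Bool) : Prop :=
  ∀ q i, lt (tl q i) ∈ E → lt (tl q (i + 1)) ∉ E → lt (tl q (i + 2)) ∉ E → lt (tl q (i + 3)) ∈ E →
    f (tl q (i + 1)) = f (tl q (i + 2))

lemma tl_sad (q : ℤ × ℤ) (i : ℤ) : Sad (tl q i) (tl q (i + 1)) := by
  unfold Sad tl
  rcases four i with ⟨h, h1, -⟩ | ⟨h, h1, -⟩ | ⟨h, h1, -⟩ | ⟨h, h1, -⟩ <;> simp [h, h1]

lemma Sad.symm {t t' : ℤ × ℤ} (h : Sad t t') : Sad t' t := by
  unfold Sad at *
  rw [abs_sub_comm, abs_sub_comm t'.1, eq_comm, eq_comm (a := t'.2)]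
  exact h

lemma T_sad (o : Bool) (q : ℤ × ℤ) (j : ℤ) : Sad (T o q j) (T o q (j + 1)) := by
  unfold T
  split_ifs
  · have := (tl_sad q (1 - (j + 1))).symm
    rwa [show 1 - (j + 1) + 1 = 1 - j by ring] at this
  · exact tl_sad q j

lemma tou_next (h : lt (T o q j) ∈ E) (h' : lt (T o q (j + 1)) ∉ E) : Tou E (T o q (j + 1)) :=
  ⟨h', _, h, T_sad o q j⟩

lemma tou_prev (h : lt (T o q (j + 1)) ∈ E) (h' : lt (T o q j) ∉ E) : Tou E (T o q j) :=
  ⟨h', _, h, (T_sad o q j).symm⟩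

variable {f : ℤ × ℤ → Bool}

lemma WallC.strT (H : WallC E f) (h0 : lt (T o q j) ∈ E) (h1 : lt (T o q (j + 1)) ∉ E)
    (h2 : lt (T o q (j + 2)) ∉ E) (h3 : lt (T o q (j + 3)) ∈ E) :
    f (T o q (j + 1)) = f (T o q (j + 2)) := by
  cases o
  · simp only [T, Bool.false_eq_true, if_false] at *
    exact H q j h0 h1 h2 h3
  · simp only [T, if_true] at *
    have e1 : 1 - (j + 3) + 1 = 1 - (j + 2) := by ring
    have e2 : 1 - (j + 3) + 2 = 1 - (j + 1) := by ring
    have e3 : 1 - (j + 3) + 3 = 1 - j := by ring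
    have := H q (1 - (j + 3)) h3 (by rw [e1]; exact h2) (by rw [e2]; exact h1) (by rw [e3]; exact h0)
    rw [e1, e2] at this
    exact this.symm

/-- the index of the tile of `E` at a convex corner -/
def ix (o : Bool) (j : ℤ) : ℤ := if o = true then 1 - j else j

lemma cvx_of (h0 : lt (T o q j) ∈ E) (h1 : lt (T o q (j + 1)) ∉ E) (h2 : lt (T o q (j + 2)) ∉ E)
    (h3 : lt (T o q (j + 3)) ∉ E) : Cvx E q (ix o j) ∧ T o q (j + 2) = tl q (ix o j + 2) ∧
      (if o = true then T o q (j + 1) = tl q (ix o j + 3) ∧ T o q (j + 3) = tl q (ix o j + 1)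
        else T o q (j + 1) = tl q (ix o j + 1) ∧ T o q (j + 3) = tl q (ix o j + 3)) := by
  unfold Cvx
  cases o
  · simp only [T, ix, Bool.false_eq_true, if_false] at *
    exact ⟨⟨h0, h1, h2, h3⟩, by tauto⟩
  · simp only [T, ix, if_true] at *
    have e1 : tl q (1 - j + 1) = tl q (1 - (j + 3)) := by
      rw [← tl_add4 q (1 - (j + 3))]; congr 1; ring
    have e2 : tl q (1 - j + 2) = tl q (1 - (j + 2)) := by
      rw [← tl_add4 q (1 - (j + 2))]; congr 1; ring
    have e3 : tl q (1 - j + 3) = tl q (1 - (j + 1)) := by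
      rw [← tl_add4 q (1 - (j + 1))]; congr 1; ring
    rw [e1, e2, e3]
    exact ⟨⟨h0, h3, h2, h1⟩, by tauto⟩

lemma Agr.diaT {V : Finset (ℤ × ℤ)} (H : Agr E f V) (h0 : lt (T o q j) ∈ E) (h1 : lt (T o q (j + 1)) ∉ E)
    (h2 : lt (T o q (j + 2)) ∉ E) (h3 : lt (T o q (j + 3)) ∉ E) (c1 : f (T o q (j + 1)) = o)
    (c3 : f (T o q (j + 3)) = o) : lt (T o q (j + 2)) ∈ V ↔ o = true := by
  obtain ⟨k1, k2, k3⟩ := cvx_of h0 h1 h2 h3
  have hh : f (tl q (ix o j + 1)) = o ∧ f (tl q (ix o j + 3)) = o := by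
    by_cases ho : o = true
    · rw [if_pos ho] at k3
      rw [← k3.1, ← k3.2]
      exact ⟨c3, c1⟩
    · rw [if_neg ho] at k3
      rw [← k3.1, ← k3.2]
      exact ⟨c1, c3⟩
  rw [k2, H.dia q _ k1 (by rw [hh.1, hh.2]), hh.1]

/-- exit at a start of an arc at the convex corner `(q, i)` -/
def xs (q : ℤ × ℤ) (i : ℤ) : ℤ × ℤ := if (q.1 + q.2) % 2 = 0 then sd q i else sd q (i - 1)

/-- entrance at an end of an arc at the convex corner `(q, i)` -/
def ys (q : ℤ × ℤ) (i : ℤ) : ℤ × ℤ := if (q.1 + q.2) % 2 = 0 then sd q (i - 1) else sd q i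

/-- **Start of an arc** at the corner `x` : convex corner `q` of `E`, the strand leaves `E` through the side of
`T (j + 1)` -/
def StM (E : Finset (ℤ × ℤ)) (f : ℤ × ℤ → Bool) (x : ℤ × ℤ) (o : Bool) (q : ℤ × ℤ) (j : ℤ) : Prop :=
  (q.1 + q.2) % 2 = pt (!o) ∧ x = S o q j ∧ lt (T o q j) ∈ E ∧ lt (T o q (j + 1)) ∉ E ∧
    lt (T o q (j + 2)) ∉ E ∧ lt (T o q (j + 3)) ∉ E ∧ f (T o q (j + 1)) = o ∧ f (T o q (j + 3)) = !o

/-- **End of an arc** at the corner `x` : convex corner `q` of `E`, the strand enters `E` through the side of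
`T j` -/
def EnM (E : Finset (ℤ × ℤ)) (f : ℤ × ℤ → Bool) (x : ℤ × ℤ) (o : Bool) (q : ℤ × ℤ) (j : ℤ) : Prop :=
  (q.1 + q.2) % 2 = pt (!o) ∧ x = S o q j ∧ lt (T o q (j + 1)) ∈ E ∧ lt (T o q j) ∉ E ∧
    lt (T o q (j - 1)) ∉ E ∧ lt (T o q (j - 2)) ∉ E ∧ f (T o q j) = o ∧ f (T o q (j - 2)) = !o

lemma StM.isEx (h : StM E f x o q j) : IsEx E x := by
  obtain ⟨hq, rfl, h0, h1, -⟩ := h
  obtain ⟨e1, e2⟩ := S_spec hq j
  exact ⟨by rw [e1]; exact h0, by rw [e2]; exact h1⟩

lemma EnM.isEn (h : EnM E f x o q j) : IsEn E x := by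
  obtain ⟨hq, rfl, h0, h1, -⟩ := h
  obtain ⟨e1, e2⟩ := S_spec hq j
  exact ⟨by rw [e2]; exact h0, by rw [e1]; exact h1⟩

lemma odd_pl (x : ℤ × ℤ) : ((plab x).1 + (plab x).2) % 2 = 1 := by
  have h := odd_lab (nx ∅ x)
  unfold plab
  split_ifs <;> simp only <;> omega

/-- **Every exit is short or a start of an arc.** -/
theorem exit_cases (H : WallC E f) (hx : IsEx E x) :
    (∃ d, IsEn E d ∧ ∀ V, Agr E f V → JJ E V x d) ∨ ∃ o q j, StM E f x o q j := by
  obtain ⟨t, ht⟩ : ∃ t, lab x = lt t := by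
    obtain ⟨a, b, h⟩ := exists_lt (odd_lab x)
    exact ⟨_, h⟩
  obtain ⟨q, j, hq, rfl⟩ := exists_rot (f t) x
  obtain ⟨e1, e2⟩ := S_spec hq j
  obtain ⟨h0, h1⟩ := hx
  rw [e1] at h0
  rw [e2] at h1
  have et : T (f t) q (j + 1) = t := by
    have h2 := congrArg tt (e2.symm.trans ht)
    rwa [tt_lt, tt_lt] at h2
  have c1 : f (T (f t) q (j + 1)) = f t := by rw [et]
  generalize f t = o at *
  have ag : ∀ k, Tou E (T o q k) → f (T o q k) = o → ∀ V, Agr E f V → (lt (T o q k) ∈ V ↔ o = true) := by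
    intro k hk hc V hV
    rw [hV.sid _ hk, hc]
  have e4 : T o q (j + 4) = T o q j := T_add4 o q j
  have u1 : Tou E (T o q (j + 1)) := tou_next h0 h1
  by_cases h2 : lt (T o q (j + 2)) ∈ E
  · left
    obtain ⟨k1, k2⟩ := S_spec hq (j + 1)
    rw [show j + 1 + 1 = j + 2 by ring] at k2
    refine ⟨S o q (j + 1), ⟨by rw [k2]; exact h2, by rw [k1]; exact h1⟩, fun V hV => ?_⟩
    exact rot_step hq j h1 (ag _ u1 c1 V hV)
  by_cases h3 : lt (T o q (j + 3)) ∈ E
  · left
    have c2 : f (T o q (j + 2)) = o := by rw [← H.strT h0 h1 h2 h3, c1]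
    obtain ⟨k1, k2⟩ := S_spec hq (j + 2)
    rw [show j + 2 + 1 = j + 3 by ring] at k2
    refine ⟨S o q (j + 2), ⟨by rw [k2]; exact h3, by rw [k1]; exact h2⟩, fun V hV => ?_⟩
    have u2 : Tou E (T o q (j + 2)) := tou_prev (by rw [show j + 2 + 1 = j + 3 by ring]; exact h3) h2
    have s1 := rot_step hq j h1 (ag _ u1 c1 V hV)
    have s2 := rot_step (E := E) (V := V) hq (j + 1) (by rw [show j + 1 + 1 = j + 2 by ring]; exact h2)
      (by rw [show j + 1 + 1 = j + 2 by ring]; exact ag _ u2 c2 V hV)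
    rw [show j + 1 + 1 = j + 2 by ring] at s2
    exact s1.trans s2
  by_cases c3 : f (T o q (j + 3)) = o
  · left
    obtain ⟨k1, k2⟩ := S_spec hq (j + 3)
    rw [show j + 3 + 1 = j + 4 by ring, e4] at k2
    have u3 : Tou E (T o q (j + 3)) := tou_prev (by rw [show j + 3 + 1 = j + 4 by ring, e4]; exact h0) h3
    refine ⟨S o q (j + 3), ⟨by rw [k2]; exact h0, by rw [k1]; exact h3⟩, fun V hV => ?_⟩
    have s1 := rot_step hq j h1 (ag _ u1 c1 V hV)
    have s2 := rot_step (E := E) (V := V) hq (j + 1) (by rw [show j + 1 + 1 = j + 2 by ring]; exact h2)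
      (by rw [show j + 1 + 1 = j + 2 by ring]; exact hV.diaT h0 h1 h2 h3 c1 c3)
    have s3 := rot_step (E := E) (V := V) hq (j + 2) (by rw [show j + 2 + 1 = j + 3 by ring]; exact h3)
      (by rw [show j + 2 + 1 = j + 3 by ring]; exact ag _ u3 c3 V hV)
    rw [show j + 1 + 1 = j + 2 by ring] at s2
    rw [show j + 2 + 1 = j + 3 by ring] at s3
    exact (s1.trans s2).trans s3
  · right
    refine ⟨o, q, j, hq, rfl, h0, h1, h2, h3, c1, ?_⟩
    cases o <;> simpa using c3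

/-- **Every entrance is short or an end of an arc.** -/
theorem entr_cases (H : WallC E f) (hx : IsEn E x) :
    (∃ d, IsEx E d ∧ ∀ V, Agr E f V → JJ E V d x) ∨ ∃ o q j, EnM E f x o q j := by
  obtain ⟨t, ht⟩ : ∃ t, plab x = lt t := by
    obtain ⟨a, b, h⟩ := exists_lt (odd_pl x)
    exact ⟨_, h⟩
  obtain ⟨q, j, hq, rfl⟩ := exists_rot (f t) x
  obtain ⟨e1, e2⟩ := S_spec hq j
  obtain ⟨h0, h1⟩ := hx
  rw [e2] at h0
  rw [e1] at h1
  have et : T (f t) q j = t := by
    have h2 := congrArg tt (e1.symm.trans ht)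
    rwa [tt_lt, tt_lt] at h2
  have c1 : f (T (f t) q j) = f t := by rw [et]
  generalize f t = o at *
  have ag : ∀ k, Tou E (T o q k) → f (T o q k) = o → ∀ V, Agr E f V → (lt (T o q k) ∈ V ↔ o = true) := by
    intro k hk hc V hV
    rw [hV.sid _ hk, hc]
  have u1 : Tou E (T o q j) := tou_prev h0 h1
  have e4 : ∀ k, T o q (k + 4) = T o q k := T_add4 o q
  have m1 : T o q (j - 3) = T o q (j + 1) := by rw [← e4 (j - 3)]; congr 1; ring
  have m2 : T o q (j - 2) = T o q (j + 2) := by rw [← e4 (j - 2)]; congr 1; ring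
  have m3 : T o q (j - 1) = T o q (j + 3) := by rw [← e4 (j - 1)]; congr 1; ring
  have m0 : T o q j = T o q (j + 4) := (e4 j).symm
  by_cases h2 : lt (T o q (j - 1)) ∈ E
  · left
    obtain ⟨k1, k2⟩ := S_spec hq (j - 1)
    rw [sub_add_cancel] at k2
    refine ⟨S o q (j - 1), ⟨by rw [k1]; exact h2, by rw [k2]; exact h1⟩, fun V hV => ?_⟩
    have := rot_step (E := E) (V := V) hq (j - 1) (by rw [sub_add_cancel]; exact h1)
      (by rw [sub_add_cancel]; exact ag _ u1 c1 V hV)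
    rwa [sub_add_cancel] at this
  by_cases h3 : lt (T o q (j - 2)) ∈ E
  · left
    have c2 : f (T o q (j - 1)) = o := by
      have := H.strT (o := o) (q := q) (j := j - 2) h3 (by rw [show j - 2 + 1 = j - 1 by ring]; exact h2)
        (by rw [show j - 2 + 2 = j by ring]; exact h1) (by rw [show j - 2 + 3 = j + 1 by ring]; exact h0)
      rw [show j - 2 + 1 = j - 1 by ring, show j - 2 + 2 = j by ring] at this
      rw [this, c1]
    obtain ⟨k1, k2⟩ := S_spec hq (j - 2)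
    rw [show j - 2 + 1 = j - 1 by ring] at k2
    have u2 : Tou E (T o q (j - 1)) := by
      have := tou_next (E := E) (o := o) (q := q) (j := j - 2) h3
        (by rw [show j - 2 + 1 = j - 1 by ring]; exact h2)
      rwa [show j - 2 + 1 = j - 1 by ring] at this
    refine ⟨S o q (j - 2), ⟨by rw [k1]; exact h3, by rw [k2]; exact h2⟩, fun V hV => ?_⟩
    have s1 := rot_step (E := E) (V := V) hq (j - 1) (by rw [sub_add_cancel]; exact h1)
      (by rw [sub_add_cancel]; exact ag _ u1 c1 V hV)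
    have s2 := rot_step (E := E) (V := V) hq (j - 2) (by rw [show j - 2 + 1 = j - 1 by ring]; exact h2)
      (by rw [show j - 2 + 1 = j - 1 by ring]; exact ag _ u2 c2 V hV)
    rw [sub_add_cancel] at s1
    rw [show j - 2 + 1 = j - 1 by ring] at s2
    exact s2.trans s1
  by_cases c3 : f (T o q (j - 2)) = o
  · left
    have u3 : Tou E (T o q (j - 2)) := by
      have := tou_next (E := E) (o := o) (q := q) (j := j - 3) (by rw [m1]; exact h0)
        (by rw [show j - 3 + 1 = j - 2 by ring]; exact h3)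
      rwa [show j - 3 + 1 = j - 2 by ring] at this
    have g2 : ∀ V, Agr E f V → (lt (T o q (j - 1)) ∈ V ↔ o = true) := by
      intro V hV
      have := hV.diaT (o := o) (q := q) (j := j - 3) (by rw [m1]; exact h0)
        (by rw [show j - 3 + 1 = j - 2 by ring]; exact h3) (by rw [show j - 3 + 2 = j - 1 by ring]; exact h2)
        (by rw [show j - 3 + 3 = j by ring]; exact h1)
        (by rw [show j - 3 + 1 = j - 2 by ring, c3]) (by rw [show j - 3 + 3 = j by ring, c1])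
      rwa [show j - 3 + 2 = j - 1 by ring] at this
    obtain ⟨k1, k2⟩ := S_spec hq (j - 3)
    rw [show j - 3 + 1 = j - 2 by ring] at k2
    refine ⟨S o q (j - 3), ⟨by rw [k1, m1]; exact h0, by rw [k2]; exact h3⟩, fun V hV => ?_⟩
    have s1 := rot_step (E := E) (V := V) hq (j - 1) (by rw [sub_add_cancel]; exact h1)
      (by rw [sub_add_cancel]; exact ag _ u1 c1 V hV)
    have s2 := rot_step (E := E) (V := V) hq (j - 2) (by rw [show j - 2 + 1 = j - 1 by ring]; exact h2)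
      (by rw [show j - 2 + 1 = j - 1 by ring]; exact g2 V hV)
    have s3 := rot_step (E := E) (V := V) hq (j - 3) (by rw [show j - 3 + 1 = j - 2 by ring]; exact h3)
      (by rw [show j - 3 + 1 = j - 2 by ring]; exact ag _ u3 c3 V hV)
    rw [sub_add_cancel] at s1
    rw [show j - 2 + 1 = j - 1 by ring] at s2
    rw [show j - 3 + 1 = j - 2 by ring] at s3
    exact (s3.trans s2).trans s1
  · right
    refine ⟨o, q, j, hq, rfl, h0, h1, h2, h3, c1, ?_⟩
    cases o <;> simpa using c3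

lemma tl_mod {q : ℤ × ℤ} {i k : ℤ} (h : i % 4 = k % 4) : tl q i = tl q k := by
  unfold tl
  rw [h]

lemma sd_mod {q : ℤ × ℤ} {i k : ℤ} (h : i % 4 = k % 4) : sd q i = sd q k := by
  unfold sd
  rw [h]

/-- **The starts**: exits at the convex corners with a free first side and a wired second side
(counterclockwise). -/
theorem stM_iff {x : ℤ × ℤ} : (∃ o q j, StM E f x o q j) ↔
    ∃ q i, Cvx E q i ∧ f (tl q (i + 1)) = false ∧ f (tl q (i + 3)) = true ∧ x = xs q i := by
  constructor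
  · rintro ⟨o, q, j, hq, rfl, h0, h1, h2, h3, c1, c3⟩
    obtain ⟨k1, -, k3⟩ := cvx_of h0 h1 h2 h3
    refine ⟨q, ix o j, k1, ?_⟩
    cases o
    · simp only [Bool.false_eq_true, if_false] at k3
      rw [← k3.1, ← k3.2]
      refine ⟨c1, c3, ?_⟩
      have : (q.1 + q.2) % 2 = 0 := by simpa [pt] using hq
      simp [xs, this, S, ix]
    · simp only [if_true] at k3
      rw [← k3.1, ← k3.2]
      refine ⟨c3, c1, ?_⟩
      have : (q.1 + q.2) % 2 = 1 := by simpa [pt] using hq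
      simp only [xs, this, S, ix, if_true, one_ne_zero, if_false]
      congr 1; ring
  · rintro ⟨q, i, ⟨h0, h1, h2, h3⟩, c1, c3, rfl⟩
    rcases Int.emod_two_eq_zero_or_one (q.1 + q.2) with hq | hq
    · refine ⟨false, q, i, by simpa [pt] using hq, by simp [xs, hq, S], ?_⟩
      simp only [T, Bool.false_eq_true, if_false]
      exact ⟨h0, h1, h2, h3, c1, by rw [c3]; rfl⟩
    · refine ⟨true, q, 1 - i, by simpa [pt] using hq, ?_, ?_⟩
      · simp only [xs, hq, S, if_true, one_ne_zero, if_false]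
        congr 1; ring
      · simp only [T, if_true]
        rw [show 1 - (1 - i) = i by ring, tl_mod (q := q) (i := 1 - (1 - i + 1)) (k := i + 3) (by omega),
          tl_mod (q := q) (i := 1 - (1 - i + 2)) (k := i + 2) (by omega),
          tl_mod (q := q) (i := 1 - (1 - i + 3)) (k := i + 1) (by omega)]
        exact ⟨h0, h3, h2, h1, c3, by rw [c1]; rfl⟩

/-- **The ends**: entrances at the convex corners with a wired first side and a free second side. -/
theorem enM_iff {x : ℤ × ℤ} : (∃ o q j, EnM E f x o q j) ↔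
    ∃ q i, Cvx E q i ∧ f (tl q (i + 1)) = true ∧ f (tl q (i + 3)) = false ∧ x = ys q i := by
  constructor
  · rintro ⟨o, q, j, hq, rfl, h0, h1, h2, h3, c1, c3⟩
    cases o
    · simp only [T, Bool.false_eq_true, if_false] at *
      have : (q.1 + q.2) % 2 = 0 := by simpa [pt] using hq
      refine ⟨q, j + 1, ⟨h0, ?_, ?_, ?_⟩, ?_, ?_, ?_⟩
      · rw [tl_mod (k := j - 2) (by omega)]; exact h3
      · rw [tl_mod (k := j - 1) (by omega)]; exact h2
      · rw [tl_mod (k := j) (by omega)]; exact h1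
      · rw [tl_mod (k := j - 2) (by omega)]; simpa using c3
      · rw [tl_mod (k := j) (by omega)]; exact c1
      · simp [ys, this, S]
    · simp only [T, if_true] at *
      have : (q.1 + q.2) % 2 = 1 := by simpa [pt] using hq
      refine ⟨q, -j, ⟨?_, ?_, ?_, ?_⟩, ?_, ?_, ?_⟩
      · rw [tl_mod (k := 1 - (j + 1)) (by omega)]; exact h0
      · rw [tl_mod (k := 1 - j) (by omega)]; exact h1
      · rw [tl_mod (k := 1 - (j - 1)) (by omega)]; exact h2
      · rw [tl_mod (k := 1 - (j - 2)) (by omega)]; exact h3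
      · rw [tl_mod (k := 1 - j) (by omega)]; exact c1
      · rw [tl_mod (k := 1 - (j - 2)) (by omega)]; simpa using c3
      · simp [ys, this, S]
  · rintro ⟨q, i, ⟨h0, h1, h2, h3⟩, c1, c3, rfl⟩
    rcases Int.emod_two_eq_zero_or_one (q.1 + q.2) with hq | hq
    · refine ⟨false, q, i - 1, by simpa [pt] using hq, by simp [ys, hq, S], ?_⟩
      simp only [T, Bool.false_eq_true, if_false]
      rw [sub_add_cancel, tl_mod (q := q) (i := i - 1) (k := i + 3) (by omega),
        tl_mod (q := q) (i := i - 1 - 1) (k := i + 2) (by omega),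
        tl_mod (q := q) (i := i - 1 - 2) (k := i + 1) (by omega)]
      exact ⟨h0, h3, h2, h1, c3, by rw [c1]; rfl⟩
    · refine ⟨true, q, -i, by simpa [pt] using hq, by simp [ys, hq, S], ?_⟩
      simp only [T, if_true]
      rw [show 1 - (-i + 1) = i by ring, show 1 - -i = i + 1 by ring, show 1 - (-i - 1) = i + 2 by ring,
        show 1 - (-i - 2) = i + 3 by ring]
      exact ⟨h0, h1, h2, h3, c1, by rw [c3]; rfl⟩

/-- **Equal increments from the matching of the starts and the ends.** -/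
theorem same_marks (hconn : TConn E) (H : WallC E f) (aW : Agr E f W) (aW' : Agr E f W')
    (hM : ∀ x o q j, StM E f x o q j → ∃ d, IsEn E d ∧ JJ E W x d ∧ JJ E W' x d)
    {X Y : Env} (pX : PlaneEnv X W) (pY : PlaneEnv Y W') (eX : X.E = E) (eY : Y.E = E)
    {c1 : ℤ × ℤ} (h1 : IsEn E c1) (u : JJ E W X.c0 c1) (v : JJ E W' Y.c0 c1) :
    ∃ κ : ℤ, ∀ c, (lab c ∈ E ∨ plab c ∈ E) → Y.inc c = ph κ * X.inc c := by
  refine same_arcs hconn (fun x hx => ?_) pX pY eX eY h1 u v
  rcases exit_cases H hx with ⟨d, hd, h⟩ | ⟨o, q, j, h⟩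
  · exact ⟨d, hd, h _ aW, h _ aW'⟩
  · exact hM x o q j h

end Pool.Agent.H59.J
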