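import Mathlib
import Pool.Agent.H59.J.Arcs
import Pool.Agent.H74.Win.Ring
import Pool.Agent.H13.Sp.Pos
import Pool.Agent.H33.Sp.Far

set_option autoImplicit false
open Finset

/-! # The coloured sides of the room

`E = EN D false` is the room (tiles of the window `D`), `ncl D t = natc D false t.1 t.2` the natural colours of its
sides. `wallC_EN` : the colour does not change along a straight side. `PosC D q i k` : the convex corner `(q, i)` of the
room lies between the positions `k - 1` and `k` of `H13/Sp/Pos.lean`. -/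

namespace Pool.Agent.H59.J

open Pool.Agent.Q1 Pool.Agent.H33.Q1
open Pool.Agent.H74.R45 hiding plab_nx
open Pool.Agent.Q1.Env (TConn TAdj)
open Pool.Agent.H46.Sp (Win)
open Pool.Agent.H46.Sp.Win
open Pool.Agent.H74.Win (OutB InP sh EN mem_EN natc InB GB mem_GB WN)
open Pool.Agent.H13.Sp (nP colq colp nP_pos colp_add)
open Pool.Agent.H33.Sp (tr_row tr_col)

variable {D : Win} {q : ℤ × ℤ} {i k x y : ℤ}

/-- the natural colours of the tiles outside of the room -/
def ncl (D : Win) (t : ℤ × ℤ) : Bool := natc D false t.1 t.2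

/-- the tiles of the room -/
lemma mem_room : lt (x, y) ∈ EN D false ↔ 0 ≤ y ∧ y < D.h ∧ D.a y ≤ x ∧ x < D.b y := by
  rw [mem_EN]
  unfold InP
  simp

lemma m_eq1 (h : y + 1 < D.yP) : D.m y = D.a (y + 1) := by unfold Win.m Pool.Agent.H46.Sp.mm; rw [if_pos h]
lemma m_eq2 (h : D.yP ≤ y + 1) : D.m y = D.a y := by unfold Win.m Pool.Agent.H46.Sp.mm; rw [if_neg (by omega)]
lemma M_eq1 (h : y < D.yQ) : D.M y = D.b (y + 1) := by unfold Win.M Pool.Agent.H46.Sp.MM; rw [if_pos h]
lemma M_eq2 (h : D.yQ ≤ y) : D.M y = D.b y := by unfold Win.M Pool.Agent.H46.Sp.MM; rw [if_neg (by omega)]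

lemma nf_top (h : D.h ≤ y) : ncl D (x, y) = D.ct := by
  have := D.hh
  unfold ncl natc
  simp only
  rw [if_neg (by omega), if_pos h]

lemma nf_left (h0 : -1 ≤ y) (h1 : y < D.h) (h2 : x < D.m y) : ncl D (x, y) = D.cl y := by
  unfold ncl natc
  simp only
  rw [if_neg (by omega), if_neg (by omega), if_pos h2]

lemma nf_right (h0 : -1 ≤ y) (h1 : y < D.h) (h2 : D.M y ≤ x) : ncl D (x, y) = D.cr y := by
  have := m_lt_M (D := D) h0 h1
  unfold ncl natc
  simp only
  rw [if_neg (by omega), if_neg (by omega), if_neg (by omega), if_pos h2]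

lemma nf_bot (h1 : D.a 0 ≤ x) (h2 : x < D.b 0) : ncl D (x, -1) = D.cb := by
  have hh := D.hh
  have hP := D.P0
  have hQ := D.Q0
  have e1 : D.m (-1) = D.a 0 := by
    by_cases h : -1 + 1 < D.yP
    · have := m_eq1 (D := D) h
      simpa using this
    · omega
  have e2 : D.M (-1) = D.b 0 := by
    have := M_eq1 (D := D) (y := -1) (by omega)
    simpa using this
  unfold ncl natc
  simp only [Bool.false_eq_true, if_false, if_true]
  rw [if_neg (by omega), if_neg (by omega), if_neg (by omega), if_neg (by omega)]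

/-- left of the row `y`, in the union of the two rooms -/
lemma nf_midL (h0 : 0 ≤ y) (h1 : y < D.h) (h2 : D.m y ≤ x) (h3 : x < D.a y) : ncl D (x, y) = D.cl (y - 1) := by
  have h5 := D.ab y h0 h1
  have h6 := b_le_M (D := D) h0
  unfold ncl natc
  simp only [Bool.false_eq_true, if_false]
  rw [if_neg (by omega), if_neg (by omega), if_neg (by omega), if_neg (by omega), if_neg (by omega), if_pos h3]

/-- right of the row `y`, in the union of the two rooms -/
lemma nf_midR (h0 : 0 ≤ y) (h1 : y < D.h) (h2 : D.b y ≤ x) (h3 : x < D.M y) : ncl D (x, y) = D.cr (y - 1) := by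
  have h5 := D.ab y h0 h1
  have h6 := m_le_a (D := D) h0
  unfold ncl natc
  simp only [Bool.false_eq_true, if_false]
  rw [if_neg (by omega), if_neg (by omega), if_neg (by omega), if_neg (by omega), if_neg (by omega),
    if_neg (by omega)]

/-- `cl` is constant where `m` is constant -/
lemma cl_step (h0 : -1 ≤ y) (h1 : y + 1 < D.h) (h : D.m y = D.m (y + 1)) : D.cl y = D.cl (y + 1) :=
  D.scl y h0 h1 h

lemma cr_step (h0 : -1 ≤ y) (h1 : y + 1 < D.h) (h : D.M y = D.M (y + 1)) : D.cr y = D.cr (y + 1) :=
  D.scr y h0 h1 h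

/-- colour of the left side of the row `y` -/
def kL (D : Win) (y : ℤ) : Bool := if y < D.yP then D.cl (y - 1) else D.cl y
/-- colour of the right side of the row `y` -/
def kR (D : Win) (y : ℤ) : Bool := if y < D.yQ then D.cr (y - 1) else D.cr y

lemma kL1 (h : y < D.yP) : kL D y = D.cl (y - 1) := by unfold kL; rw [if_pos h]
lemma kL2 (h0 : 0 ≤ y) (h1 : y < D.h) (h : D.yP ≤ y + 1) : kL D y = D.cl y := by
  unfold kL
  split_ifs with h'
  · have e1 : D.m (y - 1) = D.a y := by
      have := m_eq1 (D := D) (y := y - 1) (by omega)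
      rwa [sub_add_cancel] at this
    have e2 : D.m y = D.a y := m_eq2 h
    have := cl_step (D := D) (y := y - 1) (by omega) (by omega) (by rw [sub_add_cancel, e1, e2])
    rwa [sub_add_cancel] at this
  · rfl

lemma kR1 (h0 : 0 ≤ y) (h1 : y < D.h) (h : y ≤ D.yQ) : kR D y = D.cr (y - 1) := by
  unfold kR
  split_ifs with h'
  · rfl
  · have e1 : D.M (y - 1) = D.b y := by
      have := M_eq1 (D := D) (y := y - 1) (by omega)
      rwa [sub_add_cancel] at this
    have e2 : D.M y = D.b y := M_eq2 (by omega)
    have := cr_step (D := D) (y := y - 1) (by omega) (by omega) (by rw [sub_add_cancel, e1, e2])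
    rw [sub_add_cancel] at this
    exact this.symm
lemma kR2 (h : D.yQ ≤ y) : kR D y = D.cr y := by unfold kR; rw [if_neg (by omega)]

/-- the left side -/
lemma nf_kL (h0 : 0 ≤ y) (h1 : y < D.h) : ncl D (D.a y - 1, y) = kL D y := by
  by_cases h : y + 1 < D.yP
  · have e := m_eq1 (D := D) h
    have h3 := D.aL y h0 h
    by_cases h4 : D.a (y + 1) < D.a y
    · rw [nf_midL h0 h1 (by omega) (by omega), kL1 (by omega)]
    · rw [nf_left (by omega) h1 (by omega), kL1 (by omega)]
      have e1 : D.m (y - 1) = D.a y := by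
        have := m_eq1 (D := D) (y := y - 1) (by omega)
        rwa [sub_add_cancel] at this
      have := cl_step (D := D) (y := y - 1) (by omega) (by omega) (by rw [sub_add_cancel]; omega)
      rw [sub_add_cancel] at this
      exact this.symm
  · have e := m_eq2 (D := D) (y := y) (by omega)
    rw [nf_left (by omega) h1 (by omega), kL2 h0 h1 (by omega)]

/-- the right side -/
lemma nf_kR (h0 : 0 ≤ y) (h1 : y < D.h) : ncl D (D.b y, y) = kR D y := by
  by_cases h : y < D.yQ
  · have e := M_eq1 (D := D) h
    by_cases h4 : D.b y < D.b (y + 1)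
    · rw [nf_midR h0 h1 (by omega) (by omega), kR1 h0 h1 (by omega)]
    · have h5 : y + 1 < D.yQ := by
        by_contra hc
        have e3 : y + 1 = D.yQ := by omega
        have := D.bQ (by omega)
        rw [← e3, add_sub_cancel_right] at this
        omega
      have h6 := D.bL y h0 h5
      rw [nf_right (by omega) h1 (by omega), kR1 h0 h1 (by omega)]
      have e1 : D.M (y - 1) = D.b y := by
        have := M_eq1 (D := D) (y := y - 1) (by omega)
        rwa [sub_add_cancel] at this
      have := cr_step (D := D) (y := y - 1) (by omega) (by omega) (by rw [sub_add_cancel]; omega)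
      rw [sub_add_cancel] at this
      exact this.symm
  · have e := M_eq2 (D := D) (y := y) (by omega)
    rw [nf_right (by omega) h1 (by omega), kR2 (by omega)]

/-- above the row `y - 1`, left part -/
lemma nf_upL (h0 : D.yP ≤ y) (h1 : y < D.h) (h3 : x < D.a y) : ncl D (x, y) = D.cl y := by
  have := D.P0
  rw [nf_left (by omega) h1 (by rw [m_eq2 (by omega)]; exact h3)]

lemma nf_upR (h0 : D.yQ ≤ y) (h1 : y < D.h) (h3 : D.b y ≤ x) : ncl D (x, y) = D.cr y := by
  have := D.Q0
  rw [nf_right (by omega) h1 (by rw [M_eq2 (by omega)]; exact h3)]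

/-- below the row `y + 1`, left part -/
lemma nf_loL (h0 : 0 ≤ y) (h1 : y + 1 < D.yP) (h2 : D.a (y + 1) ≤ x) (h3 : x < D.a y) :
    ncl D (x, y) = D.cl (y - 1) := by
  have := D.P1
  exact nf_midL h0 (by omega) (by rw [m_eq1 h1]; exact h2) h3

lemma nf_loR (h0 : 0 ≤ y) (h1 : y < D.yQ) (h2 : D.b y ≤ x) (h3 : x < D.b (y + 1)) :
    ncl D (x, y) = D.cr (y - 1) := by
  have := D.Q1
  exact nf_midR h0 (by omega) h2 (by rw [M_eq1 h1]; exact h3)

/-- **Straight sides have one colour.** -/
theorem wallC_EN : WallC (EN D false) (ncl D) := by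
  intro q i h0 h1 h2 h3
  obtain ⟨x, y⟩ := q
  have hh := D.hh
  have P0 := D.P0
  have P1 := D.P1
  have Q0 := D.Q0
  have Q1 := D.Q1
  rcases four i with ⟨h, e1, -⟩ | ⟨h, e1, -⟩ | ⟨h, e1, -⟩ | ⟨h, e1, -⟩
  · -- right wall
    rw [tl_mod (k := 0) (by omega)] at h0
    rw [tl_mod (i := i + 1) (k := 1) (by omega)] at h1 ⊢
    rw [tl_mod (i := i + 2) (k := 2) (by omega)] at h2 ⊢
    rw [tl_mod (i := i + 3) (k := 3) (by omega)] at h3
    simp only [tl] at h0 h1 h2 h3 ⊢
    norm_num at h0 h1 h2 h3 ⊢
    rw [mem_room] at h0 h1 h2 h3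
    have b1 : D.b (y - 1) = x := by omega
    have b2 : D.b y = x := by omega
    have n1 := nf_kR (D := D) (y := y - 1) (by omega) (by omega)
    have n2 := nf_kR (D := D) (y := y) (by omega) (by omega)
    rw [b1] at n1
    rw [b2] at n2
    rw [n1, n2]
    by_cases c1 : y < D.yQ
    · rw [kR1 (by omega) (by omega) (by omega), kR1 (by omega) (by omega) (by omega)]
      have e2 := M_eq1 (D := D) (y := y - 1 - 1) (by omega)
      have e3 := M_eq1 (D := D) (y := y - 1) (by omega)
      rw [sub_add_cancel] at e2 e3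
      have := cr_step (D := D) (y := y - 1 - 1) (by omega) (by omega) (by rw [sub_add_cancel]; omega)
      rwa [sub_add_cancel] at this
    · have c2 : D.yQ ≤ y - 1 := by
        by_contra hc
        have e3 : y = D.yQ := by omega
        have := D.bQ (by omega)
        rw [← e3] at this
        omega
      rw [kR2 (by omega), kR2 (by omega)]
      have e2 := M_eq2 (D := D) (y := y - 1) (by omega)
      have e3 := M_eq2 (D := D) (y := y) (by omega)
      have := cr_step (D := D) (y := y - 1) (by omega) (by omega) (by rw [sub_add_cancel]; omega)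
      rwa [sub_add_cancel] at this
  · -- top wall
    rw [tl_mod (k := 1) (by omega)] at h0
    rw [tl_mod (i := i + 1) (k := 2) (by omega)] at h1 ⊢
    rw [tl_mod (i := i + 2) (k := 3) (by omega)] at h2 ⊢
    rw [tl_mod (i := i + 3) (k := 0) (by omega)] at h3
    simp only [tl] at h0 h1 h2 h3 ⊢
    norm_num at h0 h1 h2 h3 ⊢
    rw [mem_room] at h0 h1 h2 h3
    by_cases c0 : D.h ≤ y
    · rw [nf_top c0, nf_top c0]
    · have ab := D.ab y (by omega) (by omega)
      by_cases c1 : x < D.a y
      · have c2 : D.yP ≤ y := by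
          by_contra hc
          have := D.aL (y - 1) (by omega) (by omega)
          rw [sub_add_cancel] at this
          omega
        rw [nf_upL c2 (by omega) c1, nf_upL c2 (by omega) (by omega)]
      · have c3 : D.b y ≤ x - 1 := by omega
        have c2 : D.yQ ≤ y := by
          by_contra hc
          have := D.bL (y - 1) (by omega) (by omega)
          rw [sub_add_cancel] at this
          omega
        rw [nf_upR c2 (by omega) (by omega), nf_upR c2 (by omega) c3]
  · -- left wall
    rw [tl_mod (k := 2) (by omega)] at h0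
    rw [tl_mod (i := i + 1) (k := 3) (by omega)] at h1 ⊢
    rw [tl_mod (i := i + 2) (k := 0) (by omega)] at h2 ⊢
    rw [tl_mod (i := i + 3) (k := 1) (by omega)] at h3
    simp only [tl] at h0 h1 h2 h3 ⊢
    norm_num at h0 h1 h2 h3 ⊢
    rw [mem_room] at h0 h1 h2 h3
    have b1 : D.a (y - 1) = x := by omega
    have b2 : D.a y = x := by omega
    have n1 := nf_kL (D := D) (y := y - 1) (by omega) (by omega)
    have n2 := nf_kL (D := D) (y := y) (by omega) (by omega)
    rw [b1] at n1
    rw [b2] at n2
    rw [n1, n2]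
    by_cases c1 : y < D.yP
    · rw [kL1 (by omega), kL1 (by omega)]
      have e2 := m_eq1 (D := D) (y := y - 1 - 1) (by omega)
      have e3 := m_eq1 (D := D) (y := y - 1) (by omega)
      rw [sub_add_cancel] at e2 e3
      have := cl_step (D := D) (y := y - 1 - 1) (by omega) (by omega) (by rw [sub_add_cancel]; omega)
      rw [sub_add_cancel] at this
      exact this.symm
    · have c2 : D.yP ≤ y - 1 := by
        by_contra hc
        have e3 : y = D.yP := by omega
        have := D.aP (by omega)
        rw [← e3] at this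
        omega
      rw [kL2 (by omega) (by omega) (by omega), kL2 (by omega) (by omega) (by omega)]
      have e2 := m_eq2 (D := D) (y := y - 1) (by omega)
      have e3 := m_eq2 (D := D) (y := y) (by omega)
      have := cl_step (D := D) (y := y - 1) (by omega) (by omega) (by rw [sub_add_cancel]; omega)
      rw [sub_add_cancel] at this
      exact this.symm
  · -- bottom wall
    rw [tl_mod (k := 3) (by omega)] at h0
    rw [tl_mod (i := i + 1) (k := 0) (by omega)] at h1 ⊢
    rw [tl_mod (i := i + 2) (k := 1) (by omega)] at h2 ⊢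
    rw [tl_mod (i := i + 3) (k := 2) (by omega)] at h3
    simp only [tl] at h0 h1 h2 h3 ⊢
    norm_num at h0 h1 h2 h3 ⊢
    rw [mem_room] at h0 h1 h2 h3
    by_cases c0 : y = 0
    · subst c0
      rw [zero_sub, nf_bot (by omega) (by omega), nf_bot (by omega) (by omega)]
    · have ab := D.ab (y - 1) (by omega) (by omega)
      by_cases c1 : x < D.a (y - 1)
      · have c2 : y < D.yP := by
          by_contra hc
          by_cases hc' : y = D.yP
          · have := D.aP (by omega)
            rw [← hc'] at this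
            omega
          · have := D.aU (y - 1) (by omega) (by omega)
            rw [sub_add_cancel] at this
            omega
        rw [nf_loL (by omega) (by omega) (by rw [sub_add_cancel]; omega) (by omega),
          nf_loL (by omega) (by omega) (by rw [sub_add_cancel]; omega) (by omega)]
      · have c3 : D.b (y - 1) ≤ x - 1 := by omega
        have c2 : y ≤ D.yQ := by
          by_contra hc
          have := D.bU (y - 1) (by omega) (by omega)
          rw [sub_add_cancel] at this
          omega
        rw [nf_loR (by omega) (by omega) (by omega) (by rw [sub_add_cancel]; omega),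
          nf_loR (by omega) (by omega) (by omega) (by rw [sub_add_cancel]; omega)]

/-! ### Connected -/

lemma tr_back {E : Finset (ℤ × ℤ)} {a b : ℤ × ℤ} (ha : a ∈ E)
    (h : Relation.ReflTransGen (fun x y => TAdj x y ∧ y ∈ E) a b) :
    Relation.ReflTransGen (fun x y => TAdj x y ∧ y ∈ E) b a := by
  have key : (b ∈ E) ∧ Relation.ReflTransGen (fun x y => TAdj x y ∧ y ∈ E) b a := by
    induction h with
    | refl => exact ⟨ha, Relation.ReflTransGen.refl⟩
    | tail _ h2 ih =>
      refine ⟨h2.2, Relation.ReflTransGen.head ⟨?_, ih.1⟩ ih.2⟩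
      obtain ⟨c, h | h⟩ := h2.1
      · exact ⟨c, Or.inr ⟨h.2, h.1⟩⟩
      · exact ⟨c, Or.inl ⟨h.2, h.1⟩⟩
  exact key.2

lemma room_up : ∀ n : ℕ, ∀ x y x', lt (x, y) ∈ EN D false → lt (x', y + n) ∈ EN D false →
    TR (EN D false) (x, y) (x', y + n) := by
  intro n
  induction n with
  | zero =>
    intro x y x' h h'
    rw [Nat.cast_zero, add_zero] at *
    refine tr_row fun z hz => ?_
    rw [mem_room] at *
    omega
  | succ n ih =>
    intro x y x' h h'
    have e : y + ((n + 1 : ℕ) : ℤ) = y + 1 + n := by push_cast; ring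
    rw [e] at h' ⊢
    have hm := mem_room.1 h
    have hm' := mem_room.1 h'
    have o1 := D.ov1 y (by omega) (by omega)
    have o2 := D.ov2 y (by omega) (by omega)
    have o3 := D.ab y (by omega) (by omega)
    have o4 := D.ab (y + 1) (by omega) (by omega)
    obtain ⟨z, z1, z2, z3, z4⟩ : ∃ z, D.a y ≤ z ∧ z < D.b y ∧ D.a (y + 1) ≤ z ∧ z < D.b (y + 1) :=
      ⟨max (D.a y) (D.a (y + 1)), le_max_left _ _, by rcases max_choice (D.a y) (D.a (y + 1)) with h | h <;>
        omega, le_max_right _ _, by rcases max_choice (D.a y) (D.a (y + 1)) with h | h <;> omega⟩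
    have s1 : TR (EN D false) (x, y) (z, y) := tr_row fun w hw => by
      rw [mem_room]
      omega
    have s2 : TR (EN D false) (z, y) (z, y + 1) := tr_col fun w hw => by
      rw [mem_room]
      obtain rfl | rfl : w = y ∨ w = y + 1 := by omega
      · omega
      · omega
    exact (s1.trans s2).trans (ih z (y + 1) x' (by rw [mem_room]; omega) h')

/-- **The room is connected.** -/
theorem tConn_EN : TConn (EN D false) := by
  intro a ha b hb
  obtain ⟨x, y, rfl⟩ := exists_lt (Pool.Agent.H74.Win.odd_TB ha)
  obtain ⟨x', y', rfl⟩ := exists_lt (Pool.Agent.H74.Win.odd_TB hb)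
  rcases le_total y y' with h | h
  · have := room_up (D := D) (y' - y).toNat x y x' ha (by
      rw [Int.toNat_of_nonneg (by omega), add_sub_cancel]; exact hb)
    rwa [Int.toNat_of_nonneg (by omega), add_sub_cancel] at this
  · have := room_up (D := D) (y - y').toNat x' y' x hb (by
      rw [Int.toNat_of_nonneg (by omega), add_sub_cancel]; exact ha)
    rw [Int.toNat_of_nonneg (by omega), add_sub_cancel] at this
    exact tr_back hb this

/-! ### Positions -/

lemma colp_fund {s : ℤ} (h0 : 0 ≤ s) (h1 : s < nP D) : colp D s = colq D s := by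
  unfold colp
  rw [Int.emod_eq_of_lt h0 h1]

lemma colp_nP : colp D (nP D) = D.cb := by
  unfold colp colq
  simp

lemma colp_zero : colp D 0 = D.cb := by
  unfold colp colq
  simp

/-- right positions -/
lemma colp_R {s : ℤ} (h0 : 1 ≤ s) (h1 : s ≤ D.h + 1) : colp D s = D.cr (s - 2) := by
  have := D.hh
  rw [colp_fund (by omega) (by unfold nP; omega)]
  unfold colq
  rw [if_neg (by omega), if_pos h1]

lemma colp_T : colp D (D.h + 2) = D.ct := by
  have := D.hh
  rw [colp_fund (by omega) (by unfold nP; omega)]
  unfold colq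
  rw [if_neg (by omega), if_neg (by omega), if_pos rfl]

/-- left positions -/
lemma colp_L {s : ℤ} (h0 : D.h + 3 ≤ s) (h1 : s ≤ 2 * D.h + 3) : colp D s = D.cl (2 * D.h + 2 - s) := by
  have := D.hh
  rw [colp_fund (by omega) (by unfold nP; omega)]
  unfold colq
  rw [if_neg (by omega), if_neg (by omega), if_neg (by omega)]

/-- **The convex corner `(q, i)` of the room lies between the positions `k - 1` and `k`**, `1 ≤ k ≤ nP D`. -/
def PosC (D : Win) (q : ℤ × ℤ) (i k : ℤ) : Prop :=
  (∃ z, 0 ≤ z ∧ z < D.yP ∧ (0 < z → D.a z < D.a (z - 1)) ∧ q = (D.a z, z) ∧ i % 4 = 2 ∧ k = 2 * D.h + 4 - z) ∨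
  (∃ z, D.yP ≤ z ∧ z ≤ D.h ∧ (z < D.h → D.a (z - 1) < D.a z) ∧ q = (D.a (z - 1), z) ∧ i % 4 = 1 ∧
    k = 2 * D.h + 3 - z) ∨
  (∃ z, 0 ≤ z ∧ z ≤ D.yQ ∧ (0 < z → D.b (z - 1) < D.b z) ∧ q = (D.b z, z) ∧ i % 4 = 3 ∧ k = z + 1) ∨
  (∃ z, D.yQ < z ∧ z ≤ D.h ∧ (z < D.h → D.b z < D.b (z - 1)) ∧ q = (D.b (z - 1), z) ∧ i % 4 = 0 ∧ k = z + 2)

lemma PosC.range (h : PosC D q i k) : 1 ≤ k ∧ k ≤ nP D := by
  have hh := D.hh
  have P0 := D.P0
  have P1 := D.P1
  have Q0 := D.Q0
  have Q1 := D.Q1
  unfold nP
  rcases h with ⟨z, h1, h2, -, -, -, rfl⟩ | ⟨z, h1, h2, -, -, -, rfl⟩ | ⟨z, h1, h2, -, -, -, rfl⟩ |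
    ⟨z, h1, h2, -, -, -, rfl⟩ <;> omega

/-- **A convex corner with its colours.** -/
theorem PosC.spec (h : PosC D q i k) : Cvx (EN D false) q i ∧ ncl D (tl q (i + 1)) = colp D (k - 1) ∧
    ncl D (tl q (i + 3)) = colp D k := by
  have hh := D.hh
  have P0 := D.P0
  have P1 := D.P1
  have Q0 := D.Q0
  have Q1 := D.Q1
  unfold Cvx
  rcases h with ⟨z, h1, h2, h3, rfl, hi, rfl⟩ | ⟨z, h1, h2, h3, rfl, hi, rfl⟩ | ⟨z, h1, h2, h3, rfl, hi, rfl⟩ |
    ⟨z, h1, h2, h3, rfl, hi, rfl⟩
  · -- lower left
    rw [tl_mod (i := i) (k := 2) (by omega), tl_mod (i := i + 1) (k := 3) (by omega),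
      tl_mod (i := i + 2) (k := 0) (by omega), tl_mod (i := i + 3) (k := 1) (by omega)]
    have ab := D.ab z h1 (by omega)
    have e1 := nf_kL (D := D) (y := z) h1 (by omega)
    rw [kL1 h2] at e1
    have e2 : ncl D (D.a z, z - 1) = colp D (2 * D.h + 4 - z) := by
      rcases eq_or_ne z 0 with rfl | hz
      · rw [zero_sub, nf_bot le_rfl (by omega), sub_zero]
        exact colp_nP.symm
      · have := h3 (by omega)
        rw [colp_L (by omega) (by omega), nf_loL (by omega) (by omega) (by rw [sub_add_cancel]) this]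
        congr 1
        ring
    simp only [tl]
    norm_num
    refine ⟨⟨?_, ?_, ?_, ?_⟩, ?_, e2⟩
    · rw [mem_room]; omega
    · rw [mem_room]; omega
    · rw [mem_room]
      rcases eq_or_ne z 0 with rfl | hz
      · omega
      · have := h3 (by omega)
        omega
    · rw [mem_room]
      rcases eq_or_ne z 0 with rfl | hz
      · omega
      · have := h3 (by omega)
        omega
    · rw [e1, colp_L (by omega) (by omega)]
      congr 1
      ring
  · -- upper left
    rw [tl_mod (i := i) (k := 1) (by omega), tl_mod (i := i + 1) (k := 2) (by omega),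
      tl_mod (i := i + 2) (k := 3) (by omega), tl_mod (i := i + 3) (k := 0) (by omega)]
    have ab := D.ab (z - 1) (by omega) (by omega)
    have e1 := nf_kL (D := D) (y := z - 1) (by omega) (by omega)
    rw [kL2 (by omega) (by omega) (by omega)] at e1
    have e2 : ncl D (D.a (z - 1), z) = colp D (2 * D.h + 3 - z - 1) := by
      rcases eq_or_ne z D.h with rfl | hz
      · rw [nf_top le_rfl, show 2 * D.h + 3 - D.h - 1 = D.h + 2 by ring, colp_T]
      · have := h3 (by omega)
        rw [colp_L (by omega) (by omega), nf_upL h1 (by omega) this]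
        congr 1
        ring
    simp only [tl]
    norm_num
    refine ⟨⟨?_, ?_, ?_, ?_⟩, e2, ?_⟩
    · rw [mem_room]; omega
    · rw [mem_room]
      rcases eq_or_ne z D.h with rfl | hz
      · omega
      · have := h3 (by omega)
        omega
    · rw [mem_room]
      rcases eq_or_ne z D.h with rfl | hz
      · omega
      · have := h3 (by omega)
        omega
    · rw [mem_room]; omega
    · rw [e1, colp_L (by omega) (by omega)]
      congr 1
      ring
  · -- lower right
    rw [tl_mod (i := i) (k := 3) (by omega), tl_mod (i := i + 1) (k := 0) (by omega),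
      tl_mod (i := i + 2) (k := 1) (by omega), tl_mod (i := i + 3) (k := 2) (by omega)]
    have ab := D.ab z h1 (by omega)
    have e1 := nf_kR (D := D) (y := z) h1 (by omega)
    rw [kR1 h1 (by omega) h2] at e1
    have e2 : ncl D (D.b z - 1, z - 1) = colp D (z + 1 - 1) := by
      rcases eq_or_ne z 0 with rfl | hz
      · rw [zero_sub, nf_bot (by omega) (by omega), zero_add, sub_self]
        exact colp_zero.symm
      · have := h3 (by omega)
        rw [colp_R (by omega) (by omega), nf_loR (by omega) (by omega) (by omega) (by rw [sub_add_cancel]; omega)]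
        congr 1
        ring
    simp only [tl]
    norm_num
    rw [add_sub_cancel_right] at e2
    refine ⟨⟨?_, ?_, ?_, ?_⟩, e2, ?_⟩
    · rw [mem_room]; omega
    · rw [mem_room]
      rcases eq_or_ne z 0 with rfl | hz
      · omega
      · have := h3 (by omega)
        omega
    · rw [mem_room]
      rcases eq_or_ne z 0 with rfl | hz
      · omega
      · have := h3 (by omega)
        omega
    · rw [mem_room]; omega
    · rw [e1, colp_R (by omega) (by omega)]
      congr 1
      ring
  · -- upper right
    rw [tl_mod (i := i) (k := 0) (by omega), tl_mod (i := i + 1) (k := 1) (by omega),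
      tl_mod (i := i + 2) (k := 2) (by omega), tl_mod (i := i + 3) (k := 3) (by omega)]
    have ab := D.ab (z - 1) (by omega) (by omega)
    have e1 := nf_kR (D := D) (y := z - 1) (by omega) (by omega)
    rw [kR2 (by omega)] at e1
    have e2 : ncl D (D.b (z - 1) - 1, z) = colp D (z + 2) := by
      rcases eq_or_ne z D.h with rfl | hz
      · rw [nf_top le_rfl, colp_T]
      · have := h3 (by omega)
        rw [colp_R (by omega) (by omega), nf_upR (by omega) (by omega) (by omega)]
        congr 1
        ring
    simp only [tl]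
    norm_num
    refine ⟨⟨?_, ?_, ?_, ?_⟩, ?_, e2⟩
    · rw [mem_room]; omega
    · rw [mem_room]; omega
    · rw [mem_room]
      rcases eq_or_ne z D.h with rfl | hz
      · omega
      · have := h3 (by omega)
        omega
    · rw [mem_room]
      rcases eq_or_ne z D.h with rfl | hz
      · omega
      · have := h3 (by omega)
        omega
    · rw [e1, colp_R (by omega) (by omega)]
      congr 1
      ring

/-- **Every convex corner has a position.** -/
theorem exists_posC (h : Cvx (EN D false) q i) : ∃ k, PosC D q i k := by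
  have hh := D.hh
  have P0 := D.P0
  have P1 := D.P1
  have Q0 := D.Q0
  have Q1 := D.Q1
  obtain ⟨h0, h1, h2, h3⟩ := h
  obtain ⟨x, y⟩ := q
  rcases four i with ⟨hi, e1, -⟩ | ⟨hi, e1, -⟩ | ⟨hi, e1, -⟩ | ⟨hi, e1, -⟩
  · rw [tl_mod (k := 0) (by omega)] at h0
    rw [tl_mod (i := i + 1) (k := 1) (by omega)] at h1
    rw [tl_mod (i := i + 2) (k := 2) (by omega)] at h2
    rw [tl_mod (i := i + 3) (k := 3) (by omega)] at h3
    simp only [tl] at h0 h1 h2 h3
    norm_num at h0 h1 h2 h3
    rw [mem_room] at h0 h1 h2 h3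
    have b1 : D.b (y - 1) = x := by omega
    have c2 : D.yQ < y := by
      by_contra hc
      rcases lt_or_eq_of_le (not_lt.1 hc) with hc' | hc'
      · have := D.bL (y - 1) (by omega) (by omega)
        rw [sub_add_cancel] at this
        have o := D.ov2 (y - 1) (by omega) (by omega)
        rw [sub_add_cancel] at o
        omega
      · have := D.bQ (by omega)
        rw [← hc'] at this
        have o := D.ov2 (y - 1) (by omega) (by omega)
        rw [sub_add_cancel] at o
        omega
    refine ⟨y + 2, Or.inr (Or.inr (Or.inr ⟨y, c2, by omega, fun hy => ?_, by rw [b1], hi, rfl⟩))⟩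
    have := D.bU (y - 1) (by omega) (by omega)
    rw [sub_add_cancel] at this
    by_contra hc
    have o := D.ov2 (y - 1) (by omega) (by omega)
    rw [sub_add_cancel] at o
    omega
  · rw [tl_mod (k := 1) (by omega)] at h0
    rw [tl_mod (i := i + 1) (k := 2) (by omega)] at h1
    rw [tl_mod (i := i + 2) (k := 3) (by omega)] at h2
    rw [tl_mod (i := i + 3) (k := 0) (by omega)] at h3
    simp only [tl] at h0 h1 h2 h3
    norm_num at h0 h1 h2 h3
    rw [mem_room] at h0 h1 h2 h3
    have b1 : D.a (y - 1) = x := by omega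
    have c2 : D.yP ≤ y := by
      by_contra hc
      have := D.aL (y - 1) (by omega) (by omega)
      rw [sub_add_cancel] at this
      have o := D.ov1 (y - 1) (by omega) (by omega)
      rw [sub_add_cancel] at o
      omega
    refine ⟨2 * D.h + 3 - y, Or.inr (Or.inl ⟨y, c2, by omega, fun hy => ?_, by rw [b1], hi, rfl⟩)⟩
    by_contra hc
    have o := D.ov1 (y - 1) (by omega) (by omega)
    rw [sub_add_cancel] at o
    omega
  · rw [tl_mod (k := 2) (by omega)] at h0
    rw [tl_mod (i := i + 1) (k := 3) (by omega)] at h1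
    rw [tl_mod (i := i + 2) (k := 0) (by omega)] at h2
    rw [tl_mod (i := i + 3) (k := 1) (by omega)] at h3
    simp only [tl] at h0 h1 h2 h3
    norm_num at h0 h1 h2 h3
    rw [mem_room] at h0 h1 h2 h3
    have b1 : D.a y = x := by omega
    have c2 : y < D.yP := by
      by_contra hc
      rcases lt_or_eq_of_le (not_lt.1 hc) with hc' | hc'
      · have := D.aU (y - 1) (by omega) (by omega)
        rw [sub_add_cancel] at this
        have o := D.ov2 (y - 1) (by omega) (by omega)
        rw [sub_add_cancel] at o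
        omega
      · have := D.aP (by omega)
        rw [hc'] at this
        have o := D.ov2 (y - 1) (by omega) (by omega)
        rw [sub_add_cancel] at o
        omega
    refine ⟨2 * D.h + 4 - y, Or.inl ⟨y, by omega, c2, fun hy => ?_, by rw [b1], hi, rfl⟩⟩
    by_contra hc
    have o := D.ov2 (y - 1) (by omega) (by omega)
    rw [sub_add_cancel] at o
    omega
  · rw [tl_mod (k := 3) (by omega)] at h0
    rw [tl_mod (i := i + 1) (k := 0) (by omega)] at h1
    rw [tl_mod (i := i + 2) (k := 1) (by omega)] at h2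
    rw [tl_mod (i := i + 3) (k := 2) (by omega)] at h3
    simp only [tl] at h0 h1 h2 h3
    norm_num at h0 h1 h2 h3
    rw [mem_room] at h0 h1 h2 h3
    have b1 : D.b y = x := by omega
    have c2 : y ≤ D.yQ := by
      by_contra hc
      have := D.bU (y - 1) (by omega) (by omega)
      rw [sub_add_cancel] at this
      have o := D.ov1 (y - 1) (by omega) (by omega)
      rw [sub_add_cancel] at o
      omega
    refine ⟨y + 1, Or.inr (Or.inr (Or.inl ⟨y, by omega, c2, fun hy => ?_, by rw [b1], hi, rfl⟩))⟩
    by_contra hc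
    have o := D.ov1 (y - 1) (by omega) (by omega)
    rw [sub_add_cancel] at o
    omega

/-- **Between two positions of different colours there is a convex corner.** -/
theorem exists_corner (h0 : 1 ≤ k) (h1 : k ≤ nP D) (h : colp D (k - 1) ≠ colp D k) :
    ∃ q i, PosC D q i k := by
  have hh := D.hh
  have P0 := D.P0
  have P1 := D.P1
  have Q0 := D.Q0
  have Q1 := D.Q1
  unfold nP at h1
  by_cases a1 : k ≤ D.yQ + 1
  · refine ⟨(D.b (k - 1), k - 1), 3, Or.inr (Or.inr (Or.inl ⟨k - 1, by omega, by omega, fun hk => ?_, rfl,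
      by norm_num, by ring⟩))⟩
    by_contra hc
    refine h ?_
    rw [colp_R (by omega) (by omega), colp_R (by omega) (by omega)]
    have e1 := M_eq1 (D := D) (y := k - 1 - 2) (by omega)
    have e2 := M_eq1 (D := D) (y := k - 2) (by omega)
    have e3 : D.b (k - 1 - 1) = D.b (k - 1) := by
      have hx : k - 1 < D.yQ := by
        by_contra hx
        have := D.bQ (by omega)
        rw [show D.yQ = k - 1 by omega] at this
        omega
      have := D.bL (k - 1 - 1) (by omega) (by omega)
      rw [sub_add_cancel] at this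
      omega
    have := cr_step (D := D) (y := k - 1 - 2) (by omega) (by omega) (by
      rw [e1, show k - 1 - 2 + 1 = k - 2 by ring, e2, show k - 2 + 1 = k - 1 by ring, ← e3]
      congr 1; ring)
    rw [this]; congr 1; ring
  by_cases a2 : k ≤ D.yQ + 2
  · obtain rfl : k = D.yQ + 2 := by omega
    exfalso
    refine h ?_
    rw [colp_R (by omega) (by omega), colp_R (by omega) (by omega)]
    have e1 := M_eq1 (D := D) (y := D.yQ - 1) (by omega)
    have e2 := M_eq2 (D := D) (y := D.yQ) (by omega)
    have := cr_step (D := D) (y := D.yQ - 1) (by omega) (by omega) (by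
      rw [e1, sub_add_cancel, e2])
    rw [sub_add_cancel] at this
    rw [show D.yQ + 2 - 1 - 2 = D.yQ - 1 by ring, this]
    congr 1; ring
  by_cases a3 : k ≤ D.h + 2
  · refine ⟨(D.b (k - 2 - 1), k - 2), 0, Or.inr (Or.inr (Or.inr ⟨k - 2, by omega, by omega, fun hk => ?_, rfl,
      by norm_num, by ring⟩))⟩
    by_contra hc
    refine h ?_
    rw [colp_R (by omega) (by omega), colp_R (by omega) (by omega)]
    have e1 := M_eq2 (D := D) (y := k - 1 - 2) (by omega)
    have e2 := M_eq2 (D := D) (y := k - 2) (by omega)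
    have e3 : D.b (k - 2) = D.b (k - 2 - 1) := by
      have := D.bU (k - 2 - 1) (by omega) (by omega)
      rw [sub_add_cancel] at this
      omega
    have := cr_step (D := D) (y := k - 1 - 2) (by omega) (by omega) (by
      rw [e1, show k - 1 - 2 + 1 = k - 2 by ring, e2, e3]
      congr 1; ring)
    rw [this]; congr 1; ring
  by_cases a4 : k ≤ 2 * D.h + 3 - D.yP
  · refine ⟨(D.a (2 * D.h + 3 - k - 1), 2 * D.h + 3 - k), 1, Or.inr (Or.inl ⟨2 * D.h + 3 - k, by omega,
      by omega, fun hk => ?_, rfl, by norm_num, by ring⟩)⟩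
    by_contra hc
    refine h ?_
    rw [colp_L (by omega) (by omega), colp_L (by omega) (by omega)]
    have e1 := m_eq2 (D := D) (y := 2 * D.h + 2 - k) (by omega)
    have e2 := m_eq2 (D := D) (y := 2 * D.h + 3 - k) (by omega)
    have e3 : D.a (2 * D.h + 3 - k) = D.a (2 * D.h + 3 - k - 1) := by
      have hx : D.yP < 2 * D.h + 3 - k := by
        by_contra hx
        have := D.aP (by omega)
        rw [show D.yP = 2 * D.h + 3 - k by omega] at this
        omega
      have := D.aU (2 * D.h + 3 - k - 1) (by omega) (by omega)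
      rw [sub_add_cancel] at this
      omega
    have := cl_step (D := D) (y := 2 * D.h + 2 - k) (by omega) (by omega) (by
      rw [e1, show 2 * D.h + 2 - k + 1 = 2 * D.h + 3 - k by ring, e2, e3]
      congr 1; ring)
    rw [this]; congr 1; ring
  by_cases a5 : k ≤ 2 * D.h + 4 - D.yP
  · obtain rfl : k = 2 * D.h + 4 - D.yP := by omega
    exfalso
    refine h ?_
    rw [colp_L (by omega) (by omega), colp_L (by omega) (by omega)]
    have e1 := m_eq1 (D := D) (y := D.yP - 2) (by omega)
    have e2 := m_eq2 (D := D) (y := D.yP - 1) (by omega)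
    have := cl_step (D := D) (y := D.yP - 2) (by omega) (by omega) (by
      rw [e1, show D.yP - 2 + 1 = D.yP - 1 by ring, e2])
    rw [show D.yP - 2 + 1 = D.yP - 1 by ring] at this
    rw [show 2 * D.h + 2 - (2 * D.h + 4 - D.yP - 1) = D.yP - 1 by ring, ← this]
    congr 1; ring
  · refine ⟨(D.a (2 * D.h + 4 - k), 2 * D.h + 4 - k), 2, Or.inl ⟨2 * D.h + 4 - k, by omega,
      by omega, fun hk => ?_, rfl, by norm_num, by ring⟩⟩
    by_contra hc
    refine h ?_
    rw [colp_L (by omega) (by omega), colp_L (by omega) (by omega)]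
    have e1 := m_eq1 (D := D) (y := 2 * D.h + 2 - k) (by omega)
    have e2 := m_eq1 (D := D) (y := 2 * D.h + 3 - k) (by omega)
    have e3 : D.a (2 * D.h + 4 - k) = D.a (2 * D.h + 4 - k - 1) := by
      have := D.aL (2 * D.h + 4 - k - 1) (by omega) (by omega)
      rw [sub_add_cancel] at this
      omega
    have := cl_step (D := D) (y := 2 * D.h + 2 - k) (by omega) (by omega) (by
      rw [e1, show 2 * D.h + 2 - k + 1 = 2 * D.h + 3 - k by ring, e2,
        show 2 * D.h + 3 - k + 1 = 2 * D.h + 4 - k by ring, e3]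
      congr 1; ring)
    rw [this]; congr 1; ring

end Pool.Agent.H59.J
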