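import Mathlib
import Pool.Agent.H59.J.Wall
import Pool.Agent.H40.W.R3.Ord
import Pool.Agent.H74.Win.Asm

set_option autoImplicit false
open Finset

/-! # The increments in the room from the matching of the starts and the ends

`PosM D q i k` : the convex corner `(q, i)` of the room lies at the position `k` modulo `nP D`.
`ArcsAt D V c0 l0 s` : in the plane with the open labels `V` the start at the position `k` is joined, outside of
the room, to the end at the position `s k + 1`, and the root `c0` to the end at `l0 + 1`.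
`inc_of_arcs` : an environment with these arcs has the increments of the canonical room with these arcs. -/

namespace Pool.Agent.H59.J

open Pool.Agent.H75.Perc hiding ph cc EE
open Pool.Agent.H75.TwoArm Pool.Agent.Q1 Pool.Agent.H33.Q1
open Pool.Agent.H69.Q1
open Pool.Agent.H74.R45 hiding plab_nx WN
open Pool.Agent.Q1.Env (TConn TAdj)
open Pool.Agent.Q1.M6c (PlaneEnv)
open Pool.Agent.H46.Sp (Win)
open Pool.Agent.H46.Sp.Win
open Pool.Agent.H74.Win (OutB InP sh EN mem_EN natc InB GB mem_GB WN mem_WNb XN WB plane_XN mem_WOn mem_EO TA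
  gA odd_TB Snat odd_GB)
open Pool.Agent.H44.FM.WG (Gr)
open Pool.Agent.H13.Sp (nP colq colp nP_pos colp_add)
open Pool.Agent.H40.W.R3 (St Ed)

variable {D : Win} {O : OutB D} {q q' : ℤ × ℤ} {i i' k l0 x y : ℤ} {V : Finset (ℤ × ℤ)} {s : ℤ → ℤ}

/-! ### The natural room -/

lemma mem_WN_box (hB : InB D x y) : lt (x, y) ∈ WN O false ↔ lt (x, y) ∉ EN D false ∧ ncl D (x, y) = true := by
  unfold WN
  rw [mem_union, mem_WNb, mem_EN]
  constructor
  · rintro (h | h)
    · exact h.2
    · exact absurd hB (O.far x y h)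
  · exact fun h => Or.inl ⟨hB, h⟩

/-- the diagonal tile of a convex corner -/
lemma PosC.dia (h : PosC D q i k) (he : ncl D (tl q (i + 1)) = ncl D (tl q (i + 3))) :
    ncl D (tl q (i + 2)) = ncl D (tl q (i + 1)) := by
  have hh := D.hh
  have P0 := D.P0
  have P1 := D.P1
  have Q0 := D.Q0
  have Q1 := D.Q1
  rcases h with ⟨z, h1, h2, h3, rfl, hi, rfl⟩ | ⟨z, h1, h2, h3, rfl, hi, rfl⟩ | ⟨z, h1, h2, h3, rfl, hi, rfl⟩ |
    ⟨z, h1, h2, h3, rfl, hi, rfl⟩
  · rw [tl_mod (i := i + 1) (k := 3) (by omega), tl_mod (i := i + 2) (k := 0) (by omega)]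
    have e1 := nf_kL (D := D) (y := z) h1 (by omega)
    rw [kL1 h2] at e1
    simp only [tl]
    norm_num
    have e2 : D.m (z - 1) = D.a z := by
      have := m_eq1 (D := D) (y := z - 1) (by omega)
      rwa [sub_add_cancel] at this
    rw [e1, nf_left (by omega) (by omega) (by omega)]
  · rw [tl_mod (i := i + 1) (k := 2) (by omega), tl_mod (i := i + 2) (k := 3) (by omega)]
    simp only [tl]
    norm_num
    rcases eq_or_ne z D.h with rfl | hz
    · rw [nf_top le_rfl, nf_top le_rfl]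
    · have := h3 (by omega)
      rw [nf_upL h1 (by omega) (by omega), nf_upL h1 (by omega) (by omega)]
  · rw [he]
    rw [tl_mod (i := i + 2) (k := 1) (by omega), tl_mod (i := i + 3) (k := 2) (by omega)]
    have e1 := nf_kR (D := D) (y := z) h1 (by omega)
    rw [kR1 h1 (by omega) h2] at e1
    simp only [tl]
    norm_num
    have e2 : D.M (z - 1) = D.b z := by
      have := M_eq1 (D := D) (y := z - 1) (by omega)
      rwa [sub_add_cancel] at this
    rw [e1, nf_right (by omega) (by omega) (by omega)]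
  · rw [he]
    rw [tl_mod (i := i + 2) (k := 2) (by omega), tl_mod (i := i + 3) (k := 3) (by omega)]
    simp only [tl]
    norm_num
    rcases eq_or_ne z D.h with rfl | hz
    · rw [nf_top le_rfl, nf_top le_rfl]
    · have := h3 (by omega)
      rw [nf_upR (by omega) (by omega) (by omega), nf_upR (by omega) (by omega) (by omega)]

/-- tiles near the room are in the large box -/
lemma inB_near (h : lt (x, y) ∈ EN D false) {u v : ℤ} (hu : |u - x| ≤ 1) (hv : |v - y| ≤ 1) : InB D u v := by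
  rw [mem_EN] at h
  have := h.box
  rw [abs_le] at hu hv
  unfold InB
  omega

/-- **The natural room agrees with the natural colours.** -/
theorem agr_WN : Agr (EN D false) (ncl D) (WN O false) where
  sid := by
    rintro ⟨x, y⟩ ⟨h1, ⟨u, v⟩, h2, h3⟩
    have hB : InB D x y := by
      refine inB_near h2 ?_ ?_
      · rcases h3 with ⟨h3, -⟩ | ⟨-, h3⟩
        · simp only at h3; rw [h3]; simp
        · simp only at h3; rw [abs_sub_comm]; omega
      · rcases h3 with ⟨-, h3⟩ | ⟨h3, -⟩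
        · simp only at h3; rw [abs_sub_comm]; omega
        · simp only at h3; rw [h3]; simp
    rw [mem_WN_box hB]
    exact ⟨fun h => h.2, fun h => ⟨h1, h⟩⟩
  dia := by
    intro q i hc he
    obtain ⟨k, hk⟩ := exists_posC hc
    rw [← hk.dia he]
    have hB : InB D (tl q (i + 2)).1 (tl q (i + 2)).2 := by
      have h0 := hc.1
      refine inB_near (x := (tl q i).1) (y := (tl q i).2) h0 ?_ ?_ <;>
      · unfold tl
        rcases four i with ⟨h, -, -⟩ | ⟨h, -, -⟩ | ⟨h, -, -⟩ | ⟨h, -, -⟩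
        · have : (i + 2) % 4 = 2 := by omega
          simp [h, this]
        · have : (i + 2) % 4 = 3 := by omega
          simp [h, this]
        · have : (i + 2) % 4 = 0 := by omega
          simp [h, this]
        · have : (i + 2) % 4 = 1 := by omega
          simp [h, this]
    have := mem_WN_box (O := O) hB
    rw [Prod.mk.eta] at this
    rw [this]
    exact ⟨fun h => h.2, fun h => ⟨hc.2.2.1, h⟩⟩

/-- no group is pushed out -/
lemma not_TA : ¬ TA D false (gA D false ∅) x y := by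
  rintro ⟨k, -, h, -⟩
  unfold gA at h
  exact absurd h (Finset.notMem_empty _)

lemma XN_E0 : (XN O false ∅).E = EN D false := by
  show Pool.Agent.H74.Win.EO D false (gA D false ∅) = EN D false
  ext e
  constructor
  · intro h
    obtain ⟨x, y, rfl⟩ := exists_lt (odd_TB h)
    rw [mem_EO] at h
    rw [mem_EN]
    exact h.resolve_right not_TA
  · intro h
    obtain ⟨x, y, rfl⟩ := exists_lt (odd_TB h)
    rw [mem_EN] at h
    rw [mem_EO]
    exact Or.inl h

lemma WB_eq : WB D false ∅ ∪ O.Wo = WN O false := by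
  unfold WN
  congr 1
  ext e
  constructor
  · intro h
    have hodd : (e.1 + e.2) % 2 = 1 := odd_GB (Pool.Agent.H74.Win.WO_sub Pool.Agent.H74.Win.Snat_sub h)
    obtain ⟨x, y, rfl⟩ := exists_lt hodd
    rw [mem_WOn] at h
    rw [mem_WNb]
    refine ⟨h.1, fun h' => h.2.1 ?_, h.2.2⟩
    rw [mem_EO]
    exact Or.inl h'
  · intro h
    obtain ⟨x, y, rfl⟩ := exists_lt (odd_TB h)
    rw [mem_WNb] at h
    rw [mem_WOn]
    refine ⟨h.1, fun h' => ?_, h.2.2⟩
    rw [mem_EO] at h'
    rcases h' with h' | h'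
    · exact h.2.1 h'
    · exact not_TA h'

lemma plane_XN0 (ho : ∀ e ∈ O.Wo, (e.1 + e.2) % 2 = 1) : PlaneEnv (XN O false ∅) (WN O false) := by
  have := plane_XN (O := O) (p := false) (s := ∅) ho
  rwa [WB_eq] at this

/-! ### Positions modulo the period -/

/-- **The convex corner `(q, i)` lies at the position `k`** -/
def PosM (D : Win) (q : ℤ × ℤ) (i k : ℤ) : Prop := ∃ n : ℤ, PosC D q i (k + n * nP D)

lemma PosC.posM (h : PosC D q i k) : PosM D q i k := ⟨0, by simpa using h⟩

lemma colp_mul (k n : ℤ) : colp D (k + n * nP D) = colp D k := by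
  unfold colp
  rw [Int.add_mul_emod_self_right]

lemma PosM.spec (h : PosM D q i k) : Cvx (EN D false) q i ∧ ncl D (tl q (i + 1)) = colp D (k - 1) ∧
    ncl D (tl q (i + 3)) = colp D k := by
  obtain ⟨n, hn⟩ := h
  obtain ⟨h1, h2, h3⟩ := hn.spec
  rw [show k + n * nP D - 1 = k - 1 + n * nP D by ring, colp_mul] at h2
  rw [colp_mul] at h3
  exact ⟨h1, h2, h3⟩

/-- the position in `(l0, l0 + nP D]` -/
lemma exists_fund (l0 k : ℤ) : ∃ n : ℤ, l0 < k + n * nP D ∧ k + n * nP D ≤ l0 + nP D := by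
  have hN := nP_pos D
  refine ⟨-((k - l0 - 1) / nP D), ?_⟩
  have h1 := Int.emod_add_mul_ediv (k - l0 - 1) (nP D)
  have h2 := Int.emod_nonneg (k - l0 - 1) hN.ne'
  have h3 := Int.emod_lt_of_pos (k - l0 - 1) hN
  have h4 : -((k - l0 - 1) / nP D) * nP D = -(nP D * ((k - l0 - 1) / nP D)) := by ring
  rw [h4]
  constructor <;> linarith

lemma PosM.shift (h : PosM D q i k) (n : ℤ) : PosM D q i (k + n * nP D) := by
  obtain ⟨m, hm⟩ := h
  refine ⟨m - n, ?_⟩
  rwa [show k + n * nP D + (m - n) * nP D = k + m * nP D by ring]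

/-- **Where the colour changes there is a convex corner.** -/
lemma exists_posM (h : colp D (k - 1) ≠ colp D k) : ∃ q i, PosM D q i k := by
  obtain ⟨n, h1, h2⟩ := exists_fund (D := D) 0 k
  have h3 : colp D (k + n * nP D - 1) ≠ colp D (k + n * nP D) := by
    rw [show k + n * nP D - 1 = k - 1 + n * nP D by ring, colp_mul, colp_mul]
    exact h
  obtain ⟨q, i, hq⟩ := exists_corner (by omega) (by omega) h3
  exact ⟨q, i, n, hq⟩

/-! ### Arcs -/

/-- **The arcs of the room** in the plane with the open labels `V`: the start at the position `k` is joined to the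
end at the position `s k + 1`, the root `c0` to the end at the position `l0 + 1`. -/
structure ArcsAt (D : Win) (V : Finset (ℤ × ℤ)) (c0 : ℤ × ℤ) (l0 : ℤ) (s : ℤ → ℤ) : Prop where
  st : ∀ k, l0 < k → k ≤ l0 + nP D → St (colp D) k → ∀ q i q' i', PosM D q i k → PosM D q' i' (s k + 1) →
    JJ (EN D false) V (xs q i) (ys q' i')
  rt : ∀ q i, PosM D q i (l0 + 1) → JJ (EN D false) V c0 (ys q i)

/-- the same with exact positions -/
theorem arcsAt_of {c0 : ℤ × ℤ} (h1 : ∀ k, l0 < k → k ≤ l0 + nP D → St (colp D) k → ∀ q i k1 q' i' k2,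
      PosC D q i k1 → PosC D q' i' k2 → k1 % nP D = k % nP D → k2 % nP D = (s k + 1) % nP D →
      JJ (EN D false) V (xs q i) (ys q' i'))
    (h2 : ∀ q i k1, PosC D q i k1 → k1 % nP D = (l0 + 1) % nP D → JJ (EN D false) V c0 (ys q i)) :
    ArcsAt D V c0 l0 s where
  st := fun k a b hk q i q' i' ⟨n, hn⟩ ⟨n', hn'⟩ =>
    h1 k a b hk _ _ _ _ _ _ hn hn' (Int.add_mul_emod_self_right _ _ _) (Int.add_mul_emod_self_right _ _ _)
  rt := fun q i ⟨_, hn⟩ => h2 q i _ hn (Int.add_mul_emod_self_right _ _ _)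

lemma PosM.isEn (h : PosM D q i (k + 1)) (hk : Ed (colp D) k) : IsEn (EN D false) (ys q i) := by
  obtain ⟨h1, h2, h3⟩ := h.spec
  rw [add_sub_cancel_right] at h2
  obtain ⟨o, q', j, hE⟩ := (enM_iff (E := EN D false) (f := ncl D) (x := ys q i)).2
    ⟨q, i, h1, by rw [h2]; exact hk.1, by rw [h3]; exact hk.2, rfl⟩
  exact hE.isEn

/-- **The same arcs give the same increments**, up to a unit. -/
theorem same_inc {W' : Finset (ℤ × ℤ)} (aV : Agr (EN D false) (ncl D) V) (aW : Agr (EN D false) (ncl D) W')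
    {X Y : Env} (pX : PlaneEnv X W') (pY : PlaneEnv Y V) (eX : X.E = EN D false) (eY : Y.E = EN D false)
    (h0 : Ed (colp D) l0)
    (hs : ∀ k, l0 < k → k ≤ l0 + nP D → St (colp D) k → Ed (colp D) (s k))
    (hW : ArcsAt D W' X.c0 l0 s) (hV : ArcsAt D V Y.c0 l0 s) :
    ∃ κ : ℤ, ∀ c, (lab c ∈ EN D false ∨ plab c ∈ EN D false) → Y.inc c = ph κ * X.inc c := by
  obtain ⟨q0, i0, hq0⟩ : ∃ q i, PosM D q i (l0 + 1) := by
    refine exists_posM ?_
    rw [add_sub_cancel_right, h0.1, h0.2]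
    simp
  refine same_marks tConn_EN wallC_EN aW aV ?_ pX pY eX eY (hq0.isEn h0) (hW.rt _ _ hq0) (hV.rt _ _ hq0)
  intro x o q j hx
  obtain ⟨q1, i1, c1, f1, f3, rfl⟩ := stM_iff.1 ⟨o, q, j, hx⟩
  obtain ⟨k, hk⟩ := exists_posC c1
  obtain ⟨-, g1, g3⟩ := hk.spec
  obtain ⟨n, n1, n2⟩ := exists_fund (D := D) l0 k
  have hSt : St (colp D) (k + n * nP D) := by
    constructor
    · rw [show k + n * nP D - 1 = k - 1 + n * nP D by ring, colp_mul, ← g1, f1]
    · rw [colp_mul, ← g3, f3]
  have hEd := hs _ n1 n2 hSt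
  obtain ⟨q2, i2, hq2⟩ : ∃ q i, PosM D q i (s (k + n * nP D) + 1) := by
    refine exists_posM ?_
    rw [add_sub_cancel_right, hEd.1, hEd.2]
    simp
  have hM : PosM D q1 i1 (k + n * nP D) := hk.posM.shift n
  exact ⟨ys q2 i2, hq2.isEn hEd, hW.st _ n1 n2 hSt _ _ _ _ hM hq2, hV.st _ n1 n2 hSt _ _ _ _ hM hq2⟩

/-- **The increments in the room from the canonical outside.** -/
theorem inc_of_arcs (ho : ∀ e ∈ O.Wo, (e.1 + e.2) % 2 = 1) (aV : Agr (EN D false) (ncl D) V) {Y : Env}
    (pY : PlaneEnv Y V) (eY : Y.E = EN D false) (h0 : Ed (colp D) l0)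
    (hs : ∀ k, l0 < k → k ≤ l0 + nP D → St (colp D) k → Ed (colp D) (s k))
    (hO : ArcsAt D (WN O false) O.c0 l0 s) (hV : ArcsAt D V Y.c0 l0 s) :
    ∃ κ : ℤ, ∀ c, (lab c ∈ EN D false ∨ plab c ∈ EN D false) → Y.inc c = ph κ * (XN O false ∅).inc c :=
  same_inc aV agr_WN (plane_XN0 ho) pY XN_E0 eY h0 hs hO hV

end Pool.Agent.H59.J
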