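import Mathlib
import Pool.Agent.H59.J.Arcs
import Pool.Agent.H40.W.R3.Rt

set_option autoImplicit false
open Finset

/-! # Rooms with walls of one colour

`mono_inc` : if all sides of `E` have the same colour then no strand enters `E`; all increments vanish.
`root_never` : also if the root is joined to no entrance. -/

namespace Pool.Agent.H59.J

open Pool.Agent.H75.Perc hiding ph cc EE
open Pool.Agent.H75.TwoArm Pool.Agent.Q1 Pool.Agent.H33.Q1
open Pool.Agent.H69.Q1
open Pool.Agent.H74.R45 hiding plab_nx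
open Pool.Agent.H13.R45 (gp)
open Pool.Agent.Q1.M6c (PlaneEnv)
open Pool.Agent.H33.Sp
open Pool.Agent.H13.Sp.SR (pt)

variable {E V : Finset (ℤ × ℤ)} {x c q : ℤ × ℤ} {f : ℤ × ℤ → Bool} {o : Bool} {j : ℤ}

/-- the labels at a vertex -/
lemma lab_vertex {v q : ℤ × ℤ} (hq : (q.1 + q.2) % 2 = 0) (h : IsUnit4 (gp q - v)) :
    ∃ i, v + gp q = lt (tl q i) := by
  obtain ⟨v1, v2⟩ := v
  obtain ⟨q1, q2⟩ := q
  have := unit_cases h
  unfold gp at this ⊢
  unfold lt tl
  simp only at this hq ⊢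
  rcases this with h1 | h1 | h1 | h1
  · exact ⟨3, by norm_num; omega⟩
  · exact ⟨0, by norm_num; omega⟩
  · exact ⟨1, by norm_num; omega⟩
  · exact ⟨2, by norm_num; omega⟩

/-- the labels at a face -/
lemma lab_face {v q : ℤ × ℤ} (hq : (q.1 + q.2) % 2 = 1) (h : IsUnit4 (gp q - v)) :
    ∃ i, v + gp q - (1, 1) = lt (tl q i) := by
  obtain ⟨v1, v2⟩ := v
  obtain ⟨q1, q2⟩ := q
  have := unit_cases h
  unfold gp at this ⊢
  unfold lt tl
  simp only [Prod.mk_add_mk, Prod.mk_sub_mk] at this hq ⊢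
  rcases this with h1 | h1 | h1 | h1
  · exact ⟨3, by norm_num; omega⟩
  · exact ⟨0, by norm_num; omega⟩
  · exact ⟨1, by norm_num; omega⟩
  · exact ⟨2, by norm_num; omega⟩

/-- a vertex with no open label is joined to nothing -/
lemma co_isolated {v q : ℤ × ℤ} (hq : (q.1 + q.2) % 2 = 0) (h : ∀ i, lt (tl q i) ∉ V) (hc : Co V v (gp q)) :
    v = gp q := by
  rcases Relation.ReflTransGen.cases_tail hc with h1 | ⟨w, -, h2⟩
  · exact h1.symm
  · obtain ⟨i, hi⟩ := lab_vertex hq h2.1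
    exact absurd (hi ▸ h2.2) (h i)

/-- a face with no closed label is joined to nothing -/
lemma dco_isolated {v q : ℤ × ℤ} (hq : (q.1 + q.2) % 2 = 1) (h : ∀ i, lt (tl q i) ∈ E ∪ V)
    (hc : DCo (E ∪ V) v (gp q)) : v = gp q := by
  rw [dco_iff] at hc
  rcases Relation.ReflTransGen.cases_tail hc with h1 | ⟨w, -, h2⟩
  · exact h1.symm
  · obtain ⟨i, hi⟩ := lab_face hq h2.1
    exact absurd (hi ▸ h i) h2.2

lemma T_mod {i k : ℤ} (h : i % 4 = k % 4) : T o q i = T o q k := by
  unfold T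
  split_ifs
  · exact tl_mod (by omega)
  · exact tl_mod h

/-- round an entrance all tiles outside of `E` have the colour of the walls -/
lemma round_mono (hm : ∀ t, Tou E t → f t = o) (aV : Agr E f V) (h0 : lt (T o q (j + 1)) ∈ E) (k : ℤ) :
    lt (T o q k) ∈ E ∨ (lt (T o q k) ∈ V ↔ o = true) := by
  by_cases hk : lt (T o q k) ∈ E
  · exact Or.inl hk
  right
  have ag : ∀ k, Tou E (T o q k) → (lt (T o q k) ∈ V ↔ o = true) := by
    intro k hk
    rw [aV.sid _ hk, hm _ hk]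
  by_cases h1 : lt (T o q (k - 1)) ∈ E
  · refine ag k ?_
    have := tou_next (E := E) (o := o) (q := q) (j := k - 1) h1 (by rwa [sub_add_cancel])
    rwa [sub_add_cancel] at this
  by_cases h2 : lt (T o q (k + 1)) ∈ E
  · exact ag k (tou_prev h2 hk)
  have e1 : T o q (k - 1) = T o q (k + 2 + 1) := T_mod (by omega)
  have e2 : T o q k = T o q (k + 2 + 2) := T_mod (by omega)
  have e3 : T o q (k + 1) = T o q (k + 2 + 3) := T_mod (by omega)
  have h3 : lt (T o q (k + 2)) ∈ E := by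
    rcases (by omega : (k - (j + 1)) % 4 = 0 ∨ (k - (j + 1)) % 4 = 1 ∨ (k - (j + 1)) % 4 = 2 ∨
      (k - (j + 1)) % 4 = 3) with h | h | h | h
    · exact absurd ((T_mod (o := o) (q := q) (i := k) (k := j + 1) (by omega)) ▸ h0) hk
    · exact absurd ((T_mod (o := o) (q := q) (i := k - 1) (k := j + 1) (by omega)) ▸ h0) h1
    · rw [T_mod (o := o) (q := q) (i := k + 2) (k := j + 1) (by omega)]; exact h0
    · exact absurd ((T_mod (o := o) (q := q) (i := k + 1) (k := j + 1) (by omega)) ▸ h0) h2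
  rw [e1] at h1
  rw [e2] at hk
  rw [e3] at h2
  rw [e2]
  refine aV.diaT h3 h1 hk h2 (hm _ (tou_next h3 h1)) (hm _ (tou_prev ?_ h2))
  rw [T_mod (o := o) (q := q) (i := k + 2 + 3 + 1) (k := k + 2) (by omega)]
  exact h3

/-- **Walls of one colour: only the corners of the room itself are joined to an entrance.** -/
theorem en_mono (hm : ∀ t, Tou E t → f t = o) (aV : Agr E f V) (dV : Disjoint V E) (hx : IsEn E x)
    (h : JJ E V c x) : ∃ q i, lt (tl q i) ∈ E ∧ (vx c = gp q ∨ fi c = gp q) := by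
  obtain ⟨q, j, hq, rfl⟩ := exists_rot o x
  obtain ⟨e1, e2⟩ := S_spec hq j
  obtain ⟨h0, h1⟩ := hx
  rw [e2] at h0
  have hr := fun k => round_mono (V := V) hm aV h0 k
  obtain ⟨i0, hi0⟩ : ∃ i, T o q (j + 1) = tl q i := by
    unfold T
    split_ifs
    · exact ⟨_, rfl⟩
    · exact ⟨_, rfl⟩
  refine ⟨q, i0, by rw [← hi0]; exact h0, ?_⟩
  have p1 := S_pts hq j
  have hr' : ∀ i, lt (tl q i) ∈ E ∨ (lt (tl q i) ∈ V ↔ o = true) := by
    intro i
    obtain ⟨k, hk⟩ : ∃ k, tl q i = T o q k := by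
      unfold T
      split_ifs
      · exact ⟨1 - i, by rw [show 1 - (1 - i) = i by ring]⟩
      · exact ⟨i, rfl⟩
    rw [hk]
    exact hr k
  cases o
  · left
    simp only [Bool.false_eq_true, if_false] at p1
    refine co_isolated (V := V) (by simpa [pt] using hq) (fun i hi => ?_) (by rw [← p1.1]; exact h.1)
    rcases hr' i with h2 | h2
    · exact disjoint_left.1 dV hi h2
    · simpa using h2.1 hi
  · right
    simp only [if_true] at p1
    refine dco_isolated (E := E) (V := V) (by simpa [pt] using hq) (fun i => ?_) (by rw [← p1.1]; exact h.2)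
    rw [mem_union]
    rcases hr' i with h2 | h2
    · exact Or.inl h2
    · exact Or.inr (h2.2 rfl)

/-- **If the root is joined to no entrance then the increments vanish.** -/
theorem root_never {Y : Env} (pY : PlaneEnv Y V) (h : ∀ x, IsEn Y.E x → ¬ JJ Y.E V Y.c0 x)
    (hc : lab c ∈ Y.E ∨ plab c ∈ Y.E) : Y.inc c = 0 := by
  classical
  have r : plab Y.c0 ∉ Y.E := Env.plab_root
  have hn : ∀ n, lab ((nx V)^[n] Y.c0) ∈ {e : ℤ × ℤ | e ∉ Y.E} := by
    by_contra hcon
    push Not at hcon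
    have hex : ∃ n, lab ((nx V)^[n] Y.c0) ∈ Y.E := by
      obtain ⟨n, hn⟩ := hcon
      exact ⟨n, by simpa using hn⟩
    have hA : Arc Y.E V Y.c0 ((nx V)^[Nat.find hex] Y.c0) :=
      ⟨Nat.find hex, fun i hi => Nat.find_min hex hi, rfl, Nat.find_spec hex⟩
    obtain ⟨h1, h2⟩ := arc_conn hA
    exact h _ (arc_entrance r hA) ⟨h1, h2⟩
  refine Pool.Agent.H40.W.R3.never_inc pY (Λ := {e : ℤ × ℤ | e ∉ Y.E}) (fun e he h => h he) r hn ?_
  rcases hc with hc | hc
  · exact Or.inl fun h => h hc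
  · exact Or.inr fun h => h hc

/-- **Walls of one colour: all increments vanish.** -/
theorem mono_inc {Y : Env} (eY : Y.E = E) (pY : PlaneEnv Y V) (hm : ∀ t, Tou E t → f t = o) (aV : Agr E f V)
    (far : ∀ q i, lt (tl q i) ∈ E → vx Y.c0 ≠ gp q ∧ fi Y.c0 ≠ gp q)
    (hc : lab c ∈ E ∨ plab c ∈ E) : Y.inc c = 0 := by
  subst eY
  refine root_never pY (fun x hx h => ?_) hc
  obtain ⟨q, i, h1, h2⟩ := en_mono hm aV pY.disj.symm hx h
  rcases h2 with h2 | h2
  · exact (far q i h1).1 h2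
  · exact (far q i h1).2 h2

end Pool.Agent.H59.J
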