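import Mathlib
import Pool.Agent.H59.J.Mono
import Pool.Agent.H59.J.Inc

set_option autoImplicit false
open Finset

/-! # The room with walls of one colour

`tou_colp` : the colours of the sides of the room are the colours of the positions. `mono_room` : if all positions
have the same colour then the increments in the room vanish. -/

namespace Pool.Agent.H59.J

open Pool.Agent.H75.Perc hiding ph cc EE
open Pool.Agent.H75.TwoArm Pool.Agent.Q1 Pool.Agent.H33.Q1
open Pool.Agent.H69.Q1
open Pool.Agent.H74.R45 hiding plab_nx WN
open Pool.Agent.H13.R45 (gp)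
open Pool.Agent.Q1.M6c (PlaneEnv)
open Pool.Agent.H46.Sp (Win)
open Pool.Agent.H46.Sp.Win
open Pool.Agent.H74.Win (EN)
open Pool.Agent.H13.Sp (nP colq colp nP_pos colp_add)

variable {D : Win} {V : Finset (ℤ × ℤ)} {x y : ℤ}

/-- **The colours of the sides are the colours of the positions.** -/
theorem tou_colp {t : ℤ × ℤ} (h : Tou (EN D false) t) : ∃ k, ncl D t = colp D k := by
  have hh := D.hh
  have P0 := D.P0
  have P1 := D.P1
  have Q0 := D.Q0
  have Q1 := D.Q1
  obtain ⟨x, y⟩ := t
  obtain ⟨h1, ⟨u, v⟩, h2, h3⟩ := h
  rw [mem_room] at h1 h2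
  unfold Sad at h3
  simp only at h3
  have kl : ∀ y, 0 ≤ y → y < D.h → ∃ k, kL D y = colp D k := by
    intro y a1 a2
    by_cases hy : y < D.yP
    · exact ⟨2 * D.h + 3 - y, by
        rw [kL1 hy, colp_L (by omega) (by omega)]
        congr 1; ring⟩
    · exact ⟨2 * D.h + 2 - y, by
        rw [kL2 a1 a2 (by omega), colp_L (by omega) (by omega)]
        congr 1; ring⟩
  have kr : ∀ y, 0 ≤ y → y < D.h → ∃ k, kR D y = colp D k := by
    intro y a1 a2
    by_cases hy : y < D.yQ
    · exact ⟨y + 1, by
        rw [kR1 a1 a2 (by omega), colp_R (by omega) (by omega)]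
        congr 1; ring⟩
    · exact ⟨y + 2, by
        rw [kR2 (by omega), colp_R (by omega) (by omega)]
        congr 1; ring⟩
  rcases h3 with ⟨h3, h4⟩ | ⟨h3, h4⟩
  · -- same column
    subst h3
    rcases (by rw [abs_eq (by norm_num)] at h4; omega : v = y + 1 ∨ y = v + 1) with h5 | h5
    · subst h5
      rcases eq_or_ne y (-1) with rfl | hy
      · refine ⟨0, ?_⟩
        rw [colp_zero, nf_bot (by simpa using h2.2.2.1) (by simpa using h2.2.2.2)]
      · have ab := D.ab y (by omega) (by omega)
        rcases (by omega : u < D.a y ∨ D.b y ≤ u) with c1 | c1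
        · have c2 : y + 1 < D.yP := by
            by_contra hc
            by_cases hc' : y + 1 = D.yP
            · have := D.aP (by omega)
              rw [← hc', add_sub_cancel_right] at this
              omega
            · have := D.aU y (by omega) (by omega)
              omega
          refine ⟨2 * D.h + 3 - y, ?_⟩
          rw [nf_loL (by omega) c2 (by omega) c1, colp_L (by omega) (by omega)]
          congr 1; ring
        · have c2 : y < D.yQ := by
            by_contra hc
            have := D.bU y (by omega) (by omega)
            omega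
          refine ⟨y + 1, ?_⟩
          rw [nf_loR (by omega) c2 c1 (by omega), colp_R (by omega) (by omega)]
          congr 1; ring
    · subst h5
      rcases eq_or_ne (v + 1) D.h with hy | hy
      · exact ⟨D.h + 2, by rw [colp_T, nf_top (by omega)]⟩
      · have ab := D.ab (v + 1) (by omega) (by omega)
        rcases (by omega : u < D.a (v + 1) ∨ D.b (v + 1) ≤ u) with c1 | c1
        · have c2 : D.yP ≤ v + 1 := by
            by_contra hc
            have := D.aL v (by omega) (by omega)
            omega
          refine ⟨2 * D.h + 2 - (v + 1), ?_⟩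
          rw [nf_upL c2 (by omega) c1, colp_L (by omega) (by omega)]
          congr 1; ring
        · have c2 : D.yQ ≤ v + 1 := by
            by_contra hc
            have := D.bL v (by omega) (by omega)
            omega
          refine ⟨v + 1 + 2, ?_⟩
          rw [nf_upR c2 (by omega) c1, colp_R (by omega) (by omega)]
          congr 1; ring
  · subst h3
    have ab := D.ab v (by omega) (by omega)
    rcases (by rw [abs_eq (by norm_num)] at h4; omega : x = D.a v - 1 ∨ x = D.b v) with h5 | h5
    · subst h5
      rw [nf_kL (by omega) (by omega)]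
      exact kl _ (by omega) (by omega)
    · subst h5
      rw [nf_kR (by omega) (by omega)]
      exact kr _ (by omega) (by omega)

/-- **The room with walls of one colour: all increments vanish.** -/
theorem mono_room {Y : Env} (eY : Y.E = EN D false) (pY : PlaneEnv Y V) (hm : ∀ k, colp D (k - 1) = colp D k)
    (aV : Agr (EN D false) (ncl D) V)
    (far : ∀ q i, lt (tl q i) ∈ EN D false → vx Y.c0 ≠ gp q ∧ fi Y.c0 ≠ gp q) {c : ℤ × ℤ}
    (hc : lab c ∈ EN D false ∨ plab c ∈ EN D false) : Y.inc c = 0 := by
  have all : ∀ n : ℕ, ∀ k : ℤ, colp D (k + n) = colp D k := by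
    intro n
    induction n with
    | zero => intro k; simp
    | succ n ih =>
      intro k
      have := hm (k + n + 1)
      rw [add_sub_cancel_right] at this
      rw [← ih k, this]
      congr 1
      push_cast; ring
  have hk : ∀ k, colp D k = colp D 0 := by
    intro k
    rcases le_total 0 k with h | h
    · have := all k.toNat 0
      rwa [Int.toNat_of_nonneg h, zero_add] at this
    · have := all (-k).toNat k
      rw [Int.toNat_of_nonneg (by omega), add_neg_cancel] at this
      exact this.symm
  refine mono_inc eY pY (o := colp D 0) (fun t ht => ?_) aV far hc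
  obtain ⟨k, h1⟩ := tou_colp ht
  rw [h1, hk]

end Pool.Agent.H59.J
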